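import Pool.Agent.W369.MH.PEN3
import Pool.Agent.W12.MD.HARM0
import Pool.Agent.H459R3.NS.Gen
import Pool.Agent.H459R3.NS.High2
import Pool.Agent.H459R3.NS.Lp

/-!
Basic tools: shifts of periodic functions, increments.
-/

set_option autoImplicit false

open MeasureTheory Set Metric Filter Topology
open scoped ContDiff Pointwise

namespace Pool.Agent.Run7.h782

open H459R3.NS W221.NS

/-! ### Shift invariance of the integral over the period cell (copied from N976.EQ.E4) -/

theorem per_span {F : Type*} {f : V → F} (hf : Per f)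
    (g : Submodule.span ℤ (Set.range (Pi.basisFun ℝ (Fin 3)))) (x : V) : f (g +ᵥ x) = f x := by
  obtain ⟨v, hv⟩ := g
  have key : ∀ v ∈ Submodule.span ℤ (Set.range (Pi.basisFun ℝ (Fin 3))), ∀ x, f (v + x) = f x := by
    intro v hv
    induction hv using Submodule.span_induction with
    | mem v hv =>
      obtain ⟨i, rfl⟩ := hv
      intro x
      rw [Pi.basisFun_apply, add_comm]
      exact hf i x
    | zero => intro x; rw [zero_add]
    | add a b _ _ ha hb => intro x; rw [add_assoc, ha, hb]
    | smul n a _ ha =>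
      intro x
      induction n using Int.induction_on generalizing x with
      | zero => rw [zero_smul, zero_add]
      | succ k ih => rw [add_smul, one_smul, add_assoc, ih, ha]
      | pred k ih =>
        rw [sub_smul, one_smul]
        have h1 := ha ((-(k : ℤ)) • a - a + x)
        have e1 : a + ((-(k : ℤ)) • a - a + x) = (-(k : ℤ)) • a + x := by abel
        rw [e1, ih] at h1
        exact h1.symm
  exact key v hv x

/-- The half open cell. -/
def dom : Set V := ZSpan.fundamentalDomain (Pi.basisFun ℝ (Fin 3))

theorem dom_ae : dom =ᵐ[volume] cube := by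
  have h1 : dom = Set.pi univ fun _ : Fin 3 => Ico (0 : ℝ) 1 := by
    ext x
    simp [dom, ZSpan.mem_fundamentalDomain]
  have h2 : cube = Icc (0 : V) 1 := rfl
  rw [h1, h2]
  exact Measure.univ_pi_Ico_ae_eq_Icc (μ := fun _ : Fin 3 => (volume : Measure ℝ))
    (f := (0 : V)) (g := (1 : V))

theorem int_shift {f : V → ℝ} (hf : Per f)
    (h : V) : ∫ x in cube, f (x + h) = ∫ x in cube, f x := by
  have hD : IsAddFundamentalDomain (Submodule.span ℤ (Set.range (Pi.basisFun ℝ (Fin 3)))) dom
      (volume : Measure V) := ZSpan.isAddFundamentalDomain _ _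
  have hmp : MeasurePreserving (fun x : V => x - h) volume volume := measurePreserving_sub_right _ h
  have hinv : VAddInvariantMeasure (Submodule.span ℤ (Set.range (Pi.basisFun ℝ (Fin 3)))) V
      (volume : Measure V) := ⟨fun g s _ => measure_preimage_add volume (g : V) s⟩
  have hD' : IsAddFundamentalDomain (Submodule.span ℤ (Set.range (Pi.basisFun ℝ (Fin 3))))
      ((fun x : V => x - h) ⁻¹' dom) (volume : Measure V) := by
    refine hD.preimage_of_equiv hmp.quasiMeasurePreserving (e := id) Function.bijective_id ?_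
    intro g x
    simp only [id]
    show (g +ᵥ x) - h = g +ᵥ (x - h)
    rw [Submodule.vadd_def, Submodule.vadd_def, vadd_eq_add, vadd_eq_add]
    abel
  have h1 : ∫ x in dom, f x = ∫ x in (fun x : V => x - h) ⁻¹' dom, f x :=
    hD.setIntegral_eq hD' (per_span hf)
  have hmp2 : MeasurePreserving (fun x : V => x + h) volume volume := measurePreserving_add_right _ h
  have h2 := hmp2.setIntegral_preimage_emb (measurableEmbedding_addRight h) f
    ((fun x : V => x - h) ⁻¹' dom)
  have h3 : (fun x : V => x + h) ⁻¹' ((fun x : V => x - h) ⁻¹' dom) = dom := by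
    ext x; simp
  rw [h3] at h2
  rw [← setIntegral_congr_set dom_ae, ← setIntegral_congr_set dom_ae, h2, h1]

theorem cube_cpt : IsCompact cube := isCompact_Icc

theorem cube_meas : MeasurableSet cube := measurableSet_Icc

theorem cube_vol : (volume : Measure V).real cube = 1 := by
  unfold Measure.real cube
  rw [Real.volume_Icc_pi]
  simp

/-! ### Shifts -/

/-- The shifted function. -/
def sh (z : V) (f : V → ℝ) (x : V) : ℝ := f (x + z)

theorem SP.sh {f : V → ℝ} (hf : SP f) (z : V) : SP (sh z f) where
  smooth := hf.smooth.comp (contDiff_id.add contDiff_const)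
  per := fun i x => by
    unfold h782.sh
    rw [show x + Pi.single i 1 + z = (x + z) + Pi.single i 1 by abel, hf.per i (x + z)]

theorem pd_sh {f : V → ℝ} (z : V) (j : Fin 3) : pd j (sh z f) = sh z (pd j f) := by
  funext x
  unfold pd sh
  rw [fderiv_comp_add_right]

theorem lap_sh {f : V → ℝ} (z : V) : lap (sh z f) = sh z (lap f) := by
  funext x
  unfold lap
  simp_rw [pd_sh]
  rfl

/-- The increment. -/
def dl (z : V) (f : V → ℝ) (x : V) : ℝ := f (x + z) - f x

theorem dl_eq (z : V) (f : V → ℝ) : dl z f = fun x => sh z f x - f x := rfl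

theorem SP.dl {f : V → ℝ} (hf : SP f) (z : V) : SP (dl z f) := (SP.sh hf z).sub hf

theorem pd_sub {f g : V → ℝ} (hf : SP f) (hg : SP g) (j : Fin 3) (x : V) :
    pd j (fun y => f y - g y) x = pd j f x - pd j g x := by
  unfold pd
  have h : HasFDerivAt (fun y => f y - g y) _ x := (hf.diff x).hasFDerivAt.sub (hg.diff x).hasFDerivAt
  rw [h.fderiv]
  simp

theorem pd_dl {f : V → ℝ} (hf : SP f) (z : V) (j : Fin 3) : pd j (dl z f) = dl z (pd j f) := by
  funext x
  rw [dl_eq, pd_sub (SP.sh hf z) hf, pd_sh]
  rfl

theorem lap_dl {f : V → ℝ} (hf : SP f) (z : V) : lap (dl z f) = dl z (lap f) := by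
  funext x
  unfold lap
  simp_rw [pd_dl hf, fun j => pd_dl (hf.pd j) z j]
  unfold dl
  rw [← Finset.sum_sub_distrib]

theorem int_sh {f : V → ℝ} (hf : Per f) (z : V) : ∫ x in cube, sh z f x = ∫ x in cube, f x :=
  int_shift hf z

theorem int_dl {f : V → ℝ} (hf : SP f) (z : V) : ∫ x in cube, dl z f x = 0 := by
  rw [dl_eq, integral_sub (SP.sh hf z).int hf.int, int_sh hf.per, sub_self]

end Pool.Agent.Run7.h782
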