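import Pool.Agent.Run7.h782.Stat
import Pool.Agent.H459R3.NS.Main

/-!
The `L²` bound of the pressure.
-/

set_option autoImplicit false

open MeasureTheory Set Metric Filter Topology
open scoped ContDiff

namespace Pool.Agent.Run7.h782

open H459R3.NS W221.NS

theorem fr_add {f g : V → ℝ} (hf : SP f) (hg : SP g) (k : K3) :
    fr (fun x => f x + g x) k = fr f k + fr g k := by
  have h1 : IntegrableOn (fun x => ee (-k) x * (f x : ℂ)) cube :=
    integrableOn_cube ((ee_continuous _).mul (contDiff_ofReal hf.smooth).continuous)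
  have h2 : IntegrableOn (fun x => ee (-k) x * (g x : ℂ)) cube :=
    integrableOn_cube ((ee_continuous _).mul (contDiff_ofReal hg.smooth).continuous)
  have h3 := integral_add h1 h2
  unfold fr fc
  rw [← h3]
  congr 1
  funext x
  push_cast
  ring

theorem hasSum_fr {f : V → ℝ} (hf : SP f) : HasSum (fun k => ‖fr f k‖ ^ 2) (nrm f ^ 2) := by
  rw [nrm_sq, ← n2_fr hf, n2_sq]
  exact (summable_sq (rap_fr hf).summable).hasSum

/-- `L²` theory for `-Δ Q = ∂ᵢ∂ⱼ Fᵢⱼ - ∂ᵢ gᵢ`. -/
theorem cz {Q : V → ℝ} {F : Fin 3 → Fin 3 → V → ℝ} {g : Fin 3 → V → ℝ} (hQ : SP Q)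
    (hF : ∀ i j, SP (F i j)) (hg : ∀ i, SP (g i)) (h0 : ∫ x in cube, Q x = 0)
    (heq : ∀ x, lap Q x + (∑ i, ∑ j, pd i (pd j (F i j)) x) = ∑ i, pd i (g i) x) :
    nrm Q ^ 2 ≤ 18 * ∑ i, ∑ j, nrm (F i j) ^ 2 + 6 * ∑ i, nrm (g i) ^ 2 := by
  have hfr : ∀ k : K3, ‖fr Q k‖ ≤ ∑ i, ∑ j, ‖fr (F i j) k‖ + ∑ i, ‖fr (g i) k‖ := by
    intro k
    by_cases hk : k = 0
    · have hz : fr Q 0 = 0 := by
        unfold fr fc
        simp_rw [neg_zero, ee_zero, one_mul]
        rw [integral_complex_ofReal, h0]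
        simp
      rw [hk, hz, norm_zero]
      positivity
    · have e1 : fr (lap Q) k = ∑ j, D j (D j (fr Q)) k := by
        have : lap Q = fun x => ∑ j, pd j (pd j Q) x := rfl
        rw [this, fr_sum (fun j _ => (hQ.pd j).pd j)]
        refine Finset.sum_congr rfl fun j _ => ?_
        rw [fr_pd (hQ.pd j), fr_pd hQ]
      have hFs : SP (fun x => ∑ i, ∑ j, pd i (pd j (F i j)) x) :=
        SP.sum fun i _ => SP.sum fun j _ => ((hF i j).pd j).pd i
      have e2 : fr (lap Q) k + ∑ i, ∑ j, D i (D j (fr (F i j))) k = ∑ i, D i (fr (g i)) k := by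
        have h1 : fr (fun x => lap Q x + (∑ i, ∑ j, pd i (pd j (F i j)) x)) k
            = fr (fun x => ∑ i, pd i (g i) x) k := by
          simp_rw [heq]
        rw [fr_add hQ.lap hFs, fr_sum (fun i _ => SP.sum fun j _ => ((hF i j).pd j).pd i),
          fr_sum (fun i _ => (hg i).pd i)] at h1
        have h2 : ∀ i, fr (fun x => ∑ j, pd i (pd j (F i j)) x) k
            = ∑ j, D i (D j (fr (F i j))) k := by
          intro i
          rw [fr_sum (fun j _ => ((hF i j).pd j).pd i)]
          refine Finset.sum_congr rfl fun j _ => ?_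
          rw [fr_pd ((hF i j).pd j), fr_pd (hF i j)]
        simp_rw [h2] at h1
        rw [h1]
        exact Finset.sum_congr rfl fun i _ => by rw [fr_pd (hg i)]
      rw [e1] at e2
      unfold D at e2
      set K : ℝ := ∑ j, (k j : ℝ) ^ 2 with hK
      have hK1 : 1 ≤ K := by
        obtain ⟨j, hj⟩ : ∃ j, k j ≠ 0 := by
          by_contra h
          push Not at h
          exact hk (funext h)
        have h1 : (1 : ℝ) ≤ (k j : ℝ) ^ 2 := by
          have h2 : 1 ≤ (k j) ^ 2 := by
            have := sq_pos_of_ne_zero hj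
            omega
          exact_mod_cast h2
        exact h1.trans (Finset.single_le_sum (f := fun l => (k l : ℝ) ^ 2)
          (fun l _ => sq_nonneg _) (Finset.mem_univ j))
      have hkj : ∀ j, (k j : ℝ) ^ 2 ≤ K := fun j =>
        Finset.single_le_sum (f := fun l => (k l : ℝ) ^ 2) (fun l _ => sq_nonneg _)
          (Finset.mem_univ j)
      have habs : ∀ j, |(k j : ℝ)| ≤ K := by
        intro j
        by_cases hj : k j = 0
        · rw [hj]
          simp only [Int.cast_zero, abs_zero]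
          linarith
        · have h1 : (1 : ℝ) ≤ |(k j : ℝ)| := by
            rw [← Int.cast_abs]
            exact_mod_cast Int.one_le_abs hj
          have h2 : |(k j : ℝ)| ^ 2 ≤ K := by
            rw [sq_abs]
            exact hkj j
          nlinarith
      have e3 : (4 * Real.pi ^ 2 * K : ℝ) * fr Q k
          = (∑ i, ∑ j, 2 * Real.pi * Complex.I * (k i : ℂ) *
              (2 * Real.pi * Complex.I * (k j : ℂ) * fr (F i j) k))
            - ∑ i, 2 * Real.pi * Complex.I * (k i : ℂ) * fr (g i) k := by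
        rw [← e2]
        have h1 : ∑ j, 2 * Real.pi * Complex.I * (k j : ℂ) *
            (2 * Real.pi * Complex.I * (k j : ℂ) * fr Q k)
            = -((4 * Real.pi ^ 2 * K : ℝ) * fr Q k) := by
          have h2 : ∀ j, 2 * Real.pi * Complex.I * (k j : ℂ) *
            (2 * Real.pi * Complex.I * (k j : ℂ) * fr Q k)
            = -(4 * (Real.pi : ℂ) ^ 2 * (((k j : ℝ) ^ 2 : ℝ) : ℂ) * fr Q k) := by
            intro j
            have : Complex.I * Complex.I = -1 := Complex.I_mul_I
            push_cast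
            linear_combination (4 * (Real.pi : ℂ) ^ 2 * (k j : ℂ) ^ 2 * fr Q k) * this
          simp_rw [h2]
          rw [Finset.sum_neg_distrib, ← Finset.sum_mul, ← Finset.mul_sum, ← Complex.ofReal_sum,
            ← hK]
          push_cast
          ring
        rw [h1]
        ring
      have hpi := Real.pi_gt_three
      have hP : 0 < 4 * Real.pi ^ 2 * K := by positivity
      have nrmc : ∀ j, ‖2 * Real.pi * Complex.I * (k j : ℂ)‖ = 2 * Real.pi * |(k j : ℝ)| := by
        intro j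
        rw [norm_mul, norm_mul, norm_mul, Complex.norm_I, mul_one, Complex.norm_real,
          Real.norm_eq_abs, abs_of_pos Real.pi_pos, Complex.norm_ofNat, Complex.norm_intCast]
      have h4 : (4 * Real.pi ^ 2 * K) * ‖fr Q k‖ ≤ (4 * Real.pi ^ 2 * K)
          * (∑ i, ∑ j, ‖fr (F i j) k‖ + ∑ i, ‖fr (g i) k‖) := by
        calc (4 * Real.pi ^ 2 * K) * ‖fr Q k‖ = ‖((4 * Real.pi ^ 2 * K : ℝ) : ℂ) * fr Q k‖ := by
              rw [norm_mul, Complex.norm_real, Real.norm_eq_abs, abs_of_pos hP]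
          _ ≤ ‖∑ i, ∑ j, 2 * Real.pi * Complex.I * (k i : ℂ) *
              (2 * Real.pi * Complex.I * (k j : ℂ) * fr (F i j) k)‖
            + ‖∑ i, 2 * Real.pi * Complex.I * (k i : ℂ) * fr (g i) k‖ := by
              rw [e3]
              exact norm_sub_le _ _
          _ ≤ (∑ i, ∑ j, (4 * Real.pi ^ 2 * K) * ‖fr (F i j) k‖)
            + ∑ i, (4 * Real.pi ^ 2 * K) * ‖fr (g i) k‖ := by
              gcongr
              · refine (norm_sum_le _ _).trans (Finset.sum_le_sum fun i _ =>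
                  (norm_sum_le _ _).trans (Finset.sum_le_sum fun j _ => ?_))
                rw [norm_mul, nrmc, norm_mul, nrmc]
                have h5 : |(k i : ℝ)| * |(k j : ℝ)| ≤ K := by
                  have a1 := hkj i
                  have a2 := hkj j
                  rw [← sq_abs] at a1 a2
                  nlinarith [sq_nonneg (|(k i : ℝ)| - |(k j : ℝ)|)]
                calc 2 * Real.pi * |(k i : ℝ)| * (2 * Real.pi * |(k j : ℝ)| * ‖fr (F i j) k‖)
                    = 4 * Real.pi ^ 2 * (|(k i : ℝ)| * |(k j : ℝ)|) * ‖fr (F i j) k‖ := by ring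
                  _ ≤ _ := by gcongr
              · refine (norm_sum_le _ _).trans (Finset.sum_le_sum fun i _ => ?_)
                rw [norm_mul, nrmc]
                have a1 := habs i
                have h5 : 2 * Real.pi * |(k i : ℝ)| ≤ 4 * Real.pi ^ 2 * K := by
                  have : 2 * Real.pi ≤ 4 * Real.pi ^ 2 := by nlinarith
                  gcongr
                gcongr
          _ = _ := by
              simp_rw [← Finset.mul_sum]
              ring
      exact le_of_mul_le_mul_left h4 hP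
  have hs := hasSum_fr hQ
  have hs2 : HasSum (fun k => 18 * ∑ i, ∑ j, ‖fr (F i j) k‖ ^ 2 + 6 * ∑ i, ‖fr (g i) k‖ ^ 2)
      (18 * ∑ i, ∑ j, nrm (F i j) ^ 2 + 6 * ∑ i, nrm (g i) ^ 2) :=
    ((hasSum_sum fun i _ => hasSum_sum fun j _ => hasSum_fr (hF i j)).mul_left 18).add
      ((hasSum_sum fun i _ => hasSum_fr (hg i)).mul_left 6)
  refine hasSum_le (fun k => ?_) hs hs2
  have h1 := hfr k
  have h2 : (∑ i, ∑ j, ‖fr (F i j) k‖) ^ 2 ≤ 9 * ∑ i, ∑ j, ‖fr (F i j) k‖ ^ 2 := by
    have a1 := sq_sum_le_card_mul_sum_sq (s := (Finset.univ : Finset (Fin 3)))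
      (f := fun i => ∑ j, ‖fr (F i j) k‖)
    have a2 : ∀ i, (∑ j, ‖fr (F i j) k‖) ^ 2 ≤ 3 * ∑ j, ‖fr (F i j) k‖ ^ 2 := by
      intro i
      have := sq_sum_le_card_mul_sum_sq (s := (Finset.univ : Finset (Fin 3)))
        (f := fun j => ‖fr (F i j) k‖)
      simpa using this
    have a3 : ∑ i, (∑ j, ‖fr (F i j) k‖) ^ 2 ≤ ∑ i, 3 * ∑ j, ‖fr (F i j) k‖ ^ 2 :=
      Finset.sum_le_sum fun i _ => a2 i
    rw [← Finset.mul_sum] at a3
    simp only [Finset.card_univ, Fintype.card_fin, Nat.cast_ofNat] at a1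
    linarith
  have h3 : (∑ i, ‖fr (g i) k‖) ^ 2 ≤ 3 * ∑ i, ‖fr (g i) k‖ ^ 2 := by
    have := sq_sum_le_card_mul_sum_sq (s := (Finset.univ : Finset (Fin 3)))
      (f := fun j => ‖fr (g j) k‖)
    simpa using this
  have h4 : 0 ≤ ‖fr Q k‖ := norm_nonneg _
  have h5 : ‖fr Q k‖ ^ 2 ≤ (∑ i, ∑ j, ‖fr (F i j) k‖ + ∑ i, ‖fr (g i) k‖) ^ 2 := by
    gcongr
  nlinarith [sq_nonneg (∑ i, ∑ j, ‖fr (F i j) k‖ - ∑ i, ‖fr (g i) k‖)]

end Pool.Agent.Run7.h782
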