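import Pool.Agent.Run7.h782.Err

/-!
Time derivative of the weighted square of the increment.
-/

set_option autoImplicit false

open MeasureTheory Set Metric Filter Topology
open scoped ContDiff

namespace Pool.Agent.Run7.h782

open H459R3.NS W221.NS Pool.Agent.W369.MH

/-- the components -/
def U (u : ℝ → V → V) (t : ℝ) (i : Fin 3) (x : V) : ℝ := u t x i

section

variable {ν T F : ℝ} {u : ℝ → V → V} {p : ℝ → V → ℝ} {f : ℝ → V → V}

theorem sm_U (h : IsSolF ν T F u p f) (i : Fin 3) :
    ContDiffOn ℝ ∞ (fun z : ℝ × V => U u z.1 i z.2) (Ico 0 T ×ˢ univ) := smooth_c h i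

theorem sp_U (h : IsSolF ν T F u p f) {t : ℝ} (ht : t ∈ Ico 0 T) (i : Fin 3) :
    SP (U u t i) := sp h ht i

theorem div_U (h : IsSolF ν T F u p f) {t : ℝ} (ht : t ∈ Ico 0 T) (x : V) :
    ∑ i, pd i (U u t i) x = 0 := h.divfree t ht x

/-- the time derivative -/
noncomputable def DU (u : ℝ → V → V) (t : ℝ) (i : Fin 3) (x : V) : ℝ :=
  dt (fun s y => u s y i) t x

theorem sp_DU (h : IsSolF ν T F u p f) {t : ℝ} (ht : t ∈ Ioo 0 T) (i : Fin 3) :
    SP (DU u t i) where
  smooth := contDiff_dt (f := fun s y => u s y i) (smooth_c h i) ht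
  per := fun j x => by
    unfold DU dt
    apply Filter.EventuallyEq.deriv_eq
    filter_upwards [Ioo_mem_nhds ht.1 ht.2] with s hs
    rw [h.per_u s ⟨hs.1.le, hs.2⟩ j x]

theorem DU_eq (h : IsSolF ν T F u p f) {t : ℝ} (ht : t ∈ Ioo 0 T) (i : Fin 3) (x : V) :
    DU u t i x = ν * lap (U u t i) x - conv (U u t) i x - pd i (p t) x + f t x i :=
  dt_eqF h ht i x

theorem sp_f (h : IsSolF ν T F u p f) {t : ℝ} (ht : t ∈ Ioo 0 T) (i : Fin 3) :
    SP (fun x => f t x i) := by
  have hI : t ∈ Ico 0 T := ⟨ht.1.le, ht.2⟩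
  have e : (fun x => f t x i) = fun x => (((DU u t i x
      - (fun x => ν * lap (U u t i) x) x) - (fun x => -1 * conv (U u t) i x) x))
        - (fun x => -1 * pd i (p t) x) x := by
    funext x
    rw [DU_eq h ht]
    ring
  rw [e]
  exact (((sp_DU h ht i).sub (SP.cmul (sp_U h hI i).lap ν)).sub
    (SP.cmul (sp_conv (fun i => sp_U h hI i) i) (-1))).sub (SP.cmul ((sp_p h hI).pd i) (-1))

theorem hd_U (h : IsSolF ν T F u p f) {t : ℝ} (ht : t ∈ Ioo 0 T) (i : Fin 3) (x : V) :
    HasDerivAt (fun s => U u s i x) (DU u t i x) t := by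
  have := hasDerivAt_slice (F := fun s y => u s y i)
    (mono_Ioo (f := fun s y => u s y i) (smooth_c h i) (by norm_cast)) ht x
  rwa [← H459R3.NS.dt_eq (f := fun s y => u s y i) (smooth_c h i) ht x] at this

theorem div_DU (h : IsSolF ν T F u p f) {t : ℝ} (ht : t ∈ Ioo 0 T) (x : V) :
    ∑ i, pd i (DU u t i) x = 0 := by
  have e1 : ∀ i, pd i (DU u t i) x = deriv (fun s => pd i (U u s i) x) t := fun i =>
    (dt_pd (f := fun s y => u s y i) (smooth_c h i) ht i x).symm
  simp_rw [e1]
  have h2 : ∀ i, HasDerivAt (fun s => pd i (U u s i) x) (deriv (fun s => pd i (U u s i) x) t) t := by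
    intro i
    have := hasDerivAt_slice (F := fun s => pd i (U u s i))
      (mono_Ioo (f := fun s => pd i (U u s i))
        (contDiffOn_pd (f := fun s y => U u s i y) (sm_U h i) i) (by norm_cast)) ht x
    exact this.differentiableAt.hasDerivAt
  have h3 : HasDerivAt (fun s => ∑ i, pd i (U u s i) x)
      (∑ i, deriv (fun s => pd i (U u s i) x) t) t := HasDerivAt.fun_sum fun i _ => h2 i
  have h4 : HasDerivAt (fun s => ∑ i, pd i (U u s i) x) 0 t := by
    refine (hasDerivAt_const t (0 : ℝ)).congr_of_eventuallyEq ?_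
    filter_upwards [Ioo_mem_nhds ht.1 ht.2] with s hs
    exact div_U h ⟨hs.1.le, hs.2⟩ x
  exact h3.unique h4

/-- The pressure equation. -/
theorem pres_eq (h : IsSolF ν T F u p f) {t : ℝ} (ht : t ∈ Ioo 0 T) (x : V) :
    lap (p t) x + (∑ i, ∑ j, pd i (pd j (fun y => U u t i y * U u t j y)) x)
      = ∑ i, pd i (fun y => f t y i) x := by
  have hI : t ∈ Ico 0 T := ⟨ht.1.le, ht.2⟩
  have hv := fun i => sp_U h hI i
  have hdiv := div_U h hI
  have e1 : ∀ i, conv (U u t) i = fun y => ∑ j, pd j (fun y => U u t i y * U u t j y) y := by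
    intro i
    funext y
    simp_rw [fun j => pd_mul (hv i) (hv j) j]
    rw [Finset.sum_add_distrib, ← Finset.mul_sum, hdiv, mul_zero, zero_add]
    unfold conv
    exact Finset.sum_congr rfl fun j _ => by ring
  have e2 : ∀ i, pd i (conv (U u t) i) x
      = ∑ j, pd i (pd j (fun y => U u t i y * U u t j y)) x := by
    intro i
    rw [e1 i, pd_sum (fun j _ => ((hv i).mul (hv j)).pd j)]
  have e3 : ∀ i, (fun y => f t y i) = fun y => (((DU u t i y
      - (fun x => ν * lap (U u t i) x) y) - (fun x => -1 * conv (U u t) i x) y))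
        - (fun x => -1 * pd i (p t) x) y := by
    intro i
    funext x
    rw [DU_eq h ht]
    ring
  have pdc : ∀ (c : ℝ) (g : V → ℝ) (j : Fin 3), SP g → pd j (fun y => c * g y) x = c * pd j g x := by
    intro c g j hg
    unfold pd
    have : HasFDerivAt (fun y => c * g y) _ x := (hg.diff x).hasFDerivAt.const_mul c
    rw [this.fderiv]
    simp
  have e4 : ∀ i, pd i (fun y => f t y i) x = pd i (DU u t i) x - ν * pd i (lap (U u t i)) x
      + pd i (conv (U u t) i) x + pd i (pd i (p t)) x := by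
    intro i
    have s1 := sp_DU h ht i
    have s2 := SP.cmul (hv i).lap ν
    have s3 := SP.cmul (sp_conv hv i) (-1)
    have s4 := SP.cmul ((sp_p h hI).pd i) (-1)
    rw [e3 i, pd_sub ((s1.sub s2).sub s3) s4, pd_sub (s1.sub s2) s3, pd_sub s1 s2,
      pdc ν _ i (hv i).lap, pdc (-1) _ i (sp_conv hv i), pdc (-1) _ i ((sp_p h hI).pd i)]
    ring
  have e5 : ∑ i, pd i (lap (U u t i)) x = 0 := by
    have a1 : ∀ i, pd i (lap (U u t i)) x = ∑ j, pd j (pd j (pd i (U u t i))) x := by
      intro i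
      have : lap (U u t i) = fun x => ∑ j, pd j (pd j (U u t i)) x := rfl
      rw [this, pd_sum (fun j _ => ((hv i).pd j).pd j)]
      refine Finset.sum_congr rfl fun j _ => ?_
      have b1 : pd i (pd j (pd j (U u t i))) x = pd j (pd i (pd j (U u t i))) x :=
        congrFun (pd_comm ((hv i).pd j) i j) x
      have b2 : pd i (pd j (U u t i)) = pd j (pd i (U u t i)) := pd_comm (hv i) i j
      rw [b1, b2]
    simp_rw [a1]
    rw [Finset.sum_comm]
    refine Finset.sum_eq_zero fun j _ => ?_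
    have b3 : (fun y => ∑ i, pd i (U u t i) y) = fun _ => (0 : ℝ) := by
      funext y
      exact hdiv y
    have b4 : pd j (pd j (fun y => ∑ i, pd i (U u t i) y)) x = 0 := by
      rw [b3]
      unfold pd
      simp
    rw [← b4]
    have b5 : pd j (fun y => ∑ i, pd i (U u t i) y) = fun y => ∑ i, pd j (pd i (U u t i)) y := by
      funext y
      exact pd_sum (fun i _ => (hv i).pd i) j y
    rw [b5, pd_sum (fun i _ => ((hv i).pd i).pd j)]
  simp_rw [e4]
  rw [Finset.sum_add_distrib, Finset.sum_add_distrib, Finset.sum_sub_distrib, div_DU h ht,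
    ← Finset.mul_sum, e5, mul_zero, sub_zero, zero_add]
  simp_rw [e2]
  rw [add_comm]
  rfl

end

end Pool.Agent.Run7.h782
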