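import Pool.Agent.Run7.h782.Inc2
import Pool.Agent.Run7.h782.Time1
import Pool.Agent.W52.MH.PERO
import Pool.Agent.Results.MP_6bf1e5_an.MinkowskiContent

/-!
Weighted counting of the singular points.
-/

set_option autoImplicit false

open MeasureTheory Set Metric Filter Topology
open scoped ContDiff ENNReal

namespace Pool.Agent.Run7.h782

open H459R3.NS W221.NS

theorem dyad_lo (a : ℝ) : ∀ (N : ℕ) (M : ℝ), 0 ≤ M → a ≤ M → M / 2 ^ N < a →
    a ≤ ∑ k ∈ Finset.range N, if M / 2 ^ k / 2 ≤ a then M / 2 ^ k else 0 := by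
  intro N
  induction N with
  | zero =>
    intro M _ h1 h2
    simp at h2
    linarith
  | succ N ih =>
    intro M hM h1 h2
    rw [Finset.sum_range_succ']
    have e : ∀ k : ℕ, M / 2 ^ (k + 1) = (M / 2) / 2 ^ k := fun k => by
      rw [pow_succ]
      field_simp
    have hnn : 0 ≤ ∑ k ∈ Finset.range N, if M / 2 ^ (k + 1) / 2 ≤ a then M / 2 ^ (k + 1) else 0 :=
      Finset.sum_nonneg fun k _ => by split_ifs <;> positivity
    by_cases h : M / 2 ≤ a
    · simp only [pow_zero, div_one, if_pos h]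
      linarith
    · simp only [pow_zero, div_one, if_neg h, add_zero]
      push Not at h
      simp_rw [e]
      exact ih (M / 2) (by linarith) h.le (by rwa [← e])

theorem dyad_hi (a : ℝ) (ha : 0 ≤ a) : ∀ (N : ℕ) (M : ℝ), 0 ≤ M →
    (∑ k ∈ Finset.range N, if M / 2 ^ k / 4 < a then M / 2 ^ k else 0) ≤ 8 * a := by
  have hall : ∀ (N : ℕ) (M : ℝ), 0 ≤ M →
      (∑ k ∈ Finset.range N, if M / 2 ^ k / 4 < a then M / 2 ^ k else 0) ≤ 2 * M := by
    intro N
    induction N with
    | zero =>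
      intro M hM
      simp
      linarith
    | succ N ih =>
      intro M hM
      rw [Finset.sum_range_succ']
      have e : ∀ k : ℕ, M / 2 ^ (k + 1) = (M / 2) / 2 ^ k := fun k => by
        rw [pow_succ]
        field_simp
      simp_rw [e]
      have h1 := ih (M / 2) (by linarith)
      have h2 : (if M / 2 ^ 0 / 4 < a then M / 2 ^ 0 else 0) ≤ M := by
        simp only [pow_zero, div_one]
        split_ifs <;> linarith
      linarith
  intro N
  induction N with
  | zero =>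
    intro M hM
    simp
    linarith
  | succ N ih =>
    intro M hM
    rw [Finset.sum_range_succ']
    have e : ∀ k : ℕ, M / 2 ^ (k + 1) = (M / 2) / 2 ^ k := fun k => by
      rw [pow_succ]
      field_simp
    simp_rw [e]
    simp only [pow_zero, div_one]
    by_cases h : M / 4 < a
    · rw [if_pos h]
      have h1 := hall N (M / 2) (by linarith)
      linarith
    · rw [if_neg h, add_zero]
      exact ih (M / 2) (by linarith)

theorem osol_mono {ν T E F : ℝ} {Ω Ω' : Set V} {u : ℝ → V → V} {p : ℝ → V → ℝ} {f : ℝ → V → V}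
    (h : OSolF ν T E F Ω u p f) (hO : IsOpen Ω') (hsub : Ω' ⊆ Ω) :
    OSolF ν T E F Ω' u p f where
  openO := hO
  smooth_u := h.smooth_u.mono (prod_mono subset_rfl hsub)
  smooth_p := h.smooth_p.mono (prod_mono subset_rfl hsub)
  divfree := fun t ht x hx => h.divfree t ht x (hsub hx)
  momentum := fun t ht x hx i => h.momentum t ht x (hsub hx) i
  force := fun t ht x hx => h.force t ht x (hsub hx)
  en_int := fun t ht => (h.en_int t ht).mono_set hsub
  en := fun t ht => (setIntegral_mono_set (h.en_int t ht)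
    (Filter.Eventually.of_forall fun x => Finset.sum_nonneg fun i _ => sq_nonneg _)
    hsub.eventuallyLE).trans (h.en t ht)


theorem sum_lint_le {α ι : Type*} {m : MeasurableSpace α} {μ : Measure α} (s : Finset ι)
    (f : ι → α → ℝ≥0∞) : ∑ k ∈ s, ∫⁻ x, f k x ∂μ ≤ ∫⁻ x, ∑ k ∈ s, f k x ∂μ := by
  classical
  induction s using Finset.induction_on with
  | empty => simp
  | insert a s ha ih =>
    rw [Finset.sum_insert ha]
    simp_rw [Finset.sum_insert ha]
    exact (add_le_add le_rfl ih).trans (le_lintegral_add _ _)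

theorem cube_sub : cube ⊆ ball (0 : V) 3 := by
  intro x hx
  rw [mem_ball_zero_iff]
  refine lt_of_le_of_lt ((pi_norm_le_iff_of_nonneg zero_le_one).2 fun i => ?_) (by norm_num :
    (1 : ℝ) < 3)
  rw [Real.norm_eq_abs, abs_le]
  exact ⟨by linarith [hx.1 i, (show (0 : V) i = 0 from rfl)], hx.2 i⟩

theorem fin_small {P : ℕ → ℝ → Prop} (h : ∀ k, ∃ r₀ : ℝ, 0 < r₀ ∧ ∀ r, 0 < r → r < r₀ → P k r)
    (N : ℕ) : ∃ r₀ : ℝ, 0 < r₀ ∧ ∀ r, 0 < r → r < r₀ → ∀ k ∈ Finset.range N, P k r := by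
  induction N with
  | zero => exact ⟨1, one_pos, fun r _ _ k hk => by simp at hk⟩
  | succ N ih =>
    obtain ⟨a, ha, h1⟩ := ih
    obtain ⟨b, hb, h2⟩ := h N
    refine ⟨min a b, lt_min ha hb, fun r hr hrr k hk => ?_⟩
    rw [Finset.mem_range, Nat.lt_succ_iff_lt_or_eq] at hk
    rcases hk with hk | rfl
    · exact h1 r hr (hrr.trans_le (min_le_left _ _)) k (Finset.mem_range.2 hk)
    · exact h2 r hr (hrr.trans_le (min_le_right _ _))

theorem gsq_nonneg (v : V → V) (x : V) : 0 ≤ gsq v x :=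
  Finset.sum_nonneg fun _ _ => Finset.sum_nonneg fun _ _ => sq_nonneg _

/-- Weighted counting of the singular points. -/
theorem wcount : ∃ C : ℝ, 0 < C ∧ ∀ (ν T F : ℝ) (u : ℝ → V → V) (p : ℝ → V → ℝ) (f : ℝ → V → V)
    (χ : V → ℝ), 0 < ν → 0 < T → IsSolF ν T F u p f → SP χ → (∀ x, 0 < χ x) →
    ∃ r₀ : ℝ, 0 < r₀ ∧ ∀ r : ℝ, 0 < r → r < r₀ → ∀ S : Finset V,
      (∀ x ∈ S, x ∈ cube ∧ Sing T u x) → (∀ x ∈ S, ∀ y ∈ S, x ≠ y → r ≤ ‖x - y‖) →
        ENNReal.ofReal ((∑ x ∈ S, χ x) * r) ≤ ENNReal.ofReal (C / ν) *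
          ∫⁻ t in Ioo (T - 32 * r ^ 2 / ν) T, ENNReal.ofReal (EN χ (U u t)) := by
  classical
  obtain ⟨C, hC, -, H⟩ := Pool.Agent.Results.MP_6bf1e5_an.MinkowskiContent.result
  refine ⟨C * 1728, by positivity, fun ν T F u p f χ hν hT h hχ hχ0 => ?_⟩
  obtain ⟨c, M, hw⟩ := exists_wt hχ hχ0
  have hM := hw.M0
  have hF : 0 ≤ F := (abs_nonneg _).trans
    (h.force (T / 2) ⟨by linarith, by linarith⟩ 0 (mem_univ _) 0).1
  obtain ⟨⟨E, hE0, hE⟩, -⟩ := Pool.Agent.W369.MH.t_PEN3 ν T F u p f hν hT hF h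
  have hO := Pool.Agent.W52.MH.t_PERO.1 ν T E F u p f hT hE0 h hE
  obtain ⟨N, hN⟩ : ∃ N : ℕ, M / 2 ^ N < c := by
    obtain ⟨N, hN⟩ := exists_pow_lt_of_lt_one (x := c / M) (by have := hw.c0; positivity)
      (by norm_num : (1 / 2 : ℝ) < 1)
    refine ⟨N, ?_⟩
    rw [lt_div_iff₀ hM, one_div, inv_pow] at hN
    rw [div_eq_inv_mul]
    exact hN
  set lam : ℕ → ℝ := fun k => M / 2 ^ k with hlam
  have hlam0 : ∀ k, 0 < lam k := fun k => by positivity
  set Om : ℕ → Set V := fun k => ball (0 : V) 3 ∩ {x | lam k / 4 < χ x} with hOm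
  set Ka : ℕ → Set V := fun k => cube ∩ {x | lam k / 2 ≤ χ x} with hKa
  have hOmo : ∀ k, IsOpen (Om k) := fun k =>
    isOpen_ball.inter (isOpen_lt continuous_const hχ.cont)
  have hKc : ∀ k, IsCompact (Ka k) := fun k =>
    cube_cpt.inter_right (isClosed_le continuous_const hχ.cont)
  have hKO : ∀ k, Ka k ⊆ Om k := fun k x hx => ⟨cube_sub hx.1, by
    have h1 : lam k / 2 ≤ χ x := hx.2
    have h2 := hlam0 k
    show lam k / 4 < χ x
    linarith⟩
  have hk : ∀ k, ∃ r₀ : ℝ, 0 < r₀ ∧ ∀ r, 0 < r → r < r₀ → ∀ S : Finset V,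
        (∀ x ∈ S, x ∈ Ka k ∧ Sing T u x) → (∀ x ∈ S, ∀ y ∈ S, x ≠ y → r ≤ ‖x - y‖) →
          ENNReal.ofReal (S.card * r) ≤ ENNReal.ofReal (C / ν) *
            ∫⁻ t in Ioo (T - 32 * r ^ 2 / ν) T, ∫⁻ y in Om k, ENNReal.ofReal (gsq (u t) y) :=
    fun k => (H ν T (15 * E) F (Om k) (Ka k) u p f hν hT (osol_mono hO (hOmo k)
      inter_subset_left) (Or.inl ⟨hKc k, hKO k⟩)).1
  obtain ⟨r₀, hr₀, hk'⟩ := fin_small hk N
  have hr₀' : 0 < min r₀ (√(T * ν / 32)) := lt_min hr₀ (Real.sqrt_pos.2 (by positivity))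
  refine ⟨min r₀ (√(T * ν / 32)), hr₀', fun r hr hrr S hS hsep => ?_⟩
  have hr1 : r < r₀ := hrr.trans_le (min_le_left _ _)
  have hr2 : 0 ≤ T - 32 * r ^ 2 / ν := by
    have h1 : r ≤ √(T * ν / 32) := (hrr.trans_le (min_le_right _ _)).le
    have h2 : r ^ 2 ≤ T * ν / 32 := by
      rw [← Real.sq_sqrt (by positivity : 0 ≤ T * ν / 32)]
      exact pow_le_pow_left₀ hr.le h1 2
    have h3 : 32 * r ^ 2 / ν ≤ T := by
      rw [div_le_iff₀ hν]
      linarith
    linarith
  set J := Ioo (T - 32 * r ^ 2 / ν) T with hJ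
  have hcard : ∀ k ∈ Finset.range N,
      ENNReal.ofReal (lam k * ((S.filter fun x => lam k / 2 ≤ χ x).card * r))
        ≤ ENNReal.ofReal (C / ν) * ∫⁻ t in J, ENNReal.ofReal (lam k) *
          ∫⁻ y in Om k, ENNReal.ofReal (gsq (u t) y) := by
    intro k hkN
    have h1 := hk' r hr hr1 k hkN (S.filter fun x => lam k / 2 ≤ χ x)
      (fun x hx => by
        rw [Finset.mem_filter] at hx
        exact ⟨⟨(hS x hx.1).1, hx.2⟩, (hS x hx.1).2⟩)
      (fun x hx y hy => by
        rw [Finset.mem_filter] at hx hy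
        exact hsep x hx.1 y hy.1)
    rw [ENNReal.ofReal_mul (hlam0 k).le, lintegral_const_mul' _ _ ENNReal.ofReal_ne_top]
    calc ENNReal.ofReal (lam k) * ENNReal.ofReal ((S.filter fun x => lam k / 2 ≤ χ x).card * r)
        ≤ ENNReal.ofReal (lam k) * (ENNReal.ofReal (C / ν) *
            ∫⁻ t in J, ∫⁻ y in Om k, ENNReal.ofReal (gsq (u t) y)) := by gcongr
      _ = _ := by ring
  have hsum1 : (∑ x ∈ S, χ x) * r ≤ ∑ k ∈ Finset.range N,
      lam k * ((S.filter fun x => lam k / 2 ≤ χ x).card * r) := by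
    have h1 : ∀ x ∈ S, χ x ≤ ∑ k ∈ Finset.range N, if lam k / 2 ≤ χ x then lam k else 0 :=
      fun x _ => dyad_lo (χ x) N M hM.le (hw.hi x) (hN.trans_le (hw.lo x))
    have h2 : ∑ x ∈ S, χ x ≤ ∑ k ∈ Finset.range N,
        lam k * (S.filter fun x => lam k / 2 ≤ χ x).card := by
      refine (Finset.sum_le_sum h1).trans (le_of_eq ?_)
      rw [Finset.sum_comm]
      refine Finset.sum_congr rfl fun k _ => ?_
      rw [← Finset.sum_filter, Finset.sum_const, nsmul_eq_mul, mul_comm]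
    calc (∑ x ∈ S, χ x) * r ≤ (∑ k ∈ Finset.range N,
        lam k * (S.filter fun x => lam k / 2 ≤ χ x).card) * r := by gcongr
      _ = _ := by
        rw [Finset.sum_mul]
        exact Finset.sum_congr rfl fun k _ => by ring
  have hpt : ∀ t ∈ J, ∑ k ∈ Finset.range N, ENNReal.ofReal (lam k) *
      ∫⁻ y in Om k, ENNReal.ofReal (gsq (u t) y)
        ≤ ENNReal.ofReal 1728 * ENNReal.ofReal (EN χ (U u t)) := by
    intro t ht
    have htI : t ∈ Ico 0 T := ⟨hr2.trans ht.1.le, ht.2⟩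
    have hv : ∀ i, SP (U u t i) := fun i => Pool.Agent.W369.MH.sp h htI i
    have sgs : SP (gsq (u t)) := by
      have : gsq (u t) = fun x => ∑ i, ∑ j, pd j (U u t i) x ^ 2 := rfl
      rw [this]
      exact SP.sum fun i _ => SP.sum fun j _ => SP.sq ((hv i).pd j)
    have sχg : SP (fun y => χ y * gsq (u t) y) := hχ.mul sgs
    have e1 : ∀ k, ENNReal.ofReal (lam k) * ∫⁻ y in Om k, ENNReal.ofReal (gsq (u t) y)
        = ∫⁻ y in ball (0 : V) 3, ENNReal.ofReal ((if lam k / 4 < χ y then lam k else 0)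
          * gsq (u t) y) := by
      intro k
      rw [← lintegral_const_mul' _ _ ENNReal.ofReal_ne_top]
      have hms : MeasurableSet {x | lam k / 4 < χ x} :=
        (isOpen_lt continuous_const hχ.cont).measurableSet
      have h2 : (volume : Measure V).restrict (Om k)
          = ((volume : Measure V).restrict (ball 0 3)).restrict {x | lam k / 4 < χ x} := by
        rw [Measure.restrict_restrict hms, hOm]
        simp only
        rw [inter_comm]
      rw [h2, ← lintegral_indicator hms]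
      refine lintegral_congr fun y => ?_
      by_cases hy : lam k / 4 < χ y
      · rw [indicator_of_mem (by exact hy), if_pos hy, ENNReal.ofReal_mul (hlam0 k).le]
      · rw [indicator_of_notMem (by exact hy), if_neg hy, zero_mul, ENNReal.ofReal_zero]
    simp_rw [e1]
    refine (sum_lint_le _ _).trans ?_
    have e2 : ∀ y, ∑ k ∈ Finset.range N, ENNReal.ofReal ((if lam k / 4 < χ y then lam k else 0)
          * gsq (u t) y) ≤ ENNReal.ofReal (8 * (χ y * gsq (u t) y)) := by
      intro y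
      have hg := gsq_nonneg (u t) y
      rw [← ENNReal.ofReal_sum_of_nonneg]
      · apply ENNReal.ofReal_le_ofReal
        rw [← Finset.sum_mul, ← mul_assoc]
        exact mul_le_mul_of_nonneg_right (dyad_hi (χ y) (hχ0 y).le N M hM.le) hg
      · intro k _
        refine mul_nonneg ?_ hg
        split_ifs
        · exact (hlam0 k).le
        · exact le_rfl
    refine (lintegral_mono e2).trans ?_
    have h3 := Pool.Agent.W52.MH.big (fun y => 8 * (χ y * gsq (u t) y))
      (continuous_const.mul sχg.cont) (fun i x => by simp only [sχg.per i x])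
      (fun x => mul_nonneg (by norm_num) (mul_nonneg (hχ0 x).le (gsq_nonneg _ _)))
    rw [h3, ← ENNReal.ofReal_mul (by norm_num), integral_const_mul]
    apply ENNReal.ofReal_le_ofReal
    have h4 : ∫ x in cube, χ x * gsq (u t) x = EN χ (U u t) := by
      unfold EN GG
      have : ∀ x, χ x * gsq (u t) x = ∑ i, ∑ j, χ x * pd j (U u t i) x ^ 2 := by
        intro x
        have : gsq (u t) x = ∑ i, ∑ j, pd j (U u t i) x ^ 2 := rfl
        rw [this]
        simp_rw [Finset.mul_sum]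
      simp_rw [this]
      rw [integral_finsetSum _ fun i _ => (SP.sum fun j _ => hχ.mul (SP.sq ((hv i).pd j))).int]
      exact Finset.sum_congr rfl fun i _ =>
        integral_finsetSum _ fun j _ => (hχ.mul (SP.sq ((hv i).pd j))).int
    rw [h4]
    linarith
  calc ENNReal.ofReal ((∑ x ∈ S, χ x) * r)
      ≤ ENNReal.ofReal (∑ k ∈ Finset.range N,
          lam k * ((S.filter fun x => lam k / 2 ≤ χ x).card * r)) := ENNReal.ofReal_le_ofReal hsum1
    _ = ∑ k ∈ Finset.range N, ENNReal.ofReal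
          (lam k * ((S.filter fun x => lam k / 2 ≤ χ x).card * r)) :=
        ENNReal.ofReal_sum_of_nonneg fun k _ => by
          have := hlam0 k
          positivity
    _ ≤ ∑ k ∈ Finset.range N, ENNReal.ofReal (C / ν) * ∫⁻ t in J, ENNReal.ofReal (lam k) *
          ∫⁻ y in Om k, ENNReal.ofReal (gsq (u t) y) := Finset.sum_le_sum hcard
    _ = ENNReal.ofReal (C / ν) * ∑ k ∈ Finset.range N, ∫⁻ t in J, ENNReal.ofReal (lam k) *
          ∫⁻ y in Om k, ENNReal.ofReal (gsq (u t) y) := by rw [Finset.mul_sum]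
    _ ≤ ENNReal.ofReal (C / ν) * ∫⁻ t in J, ∑ k ∈ Finset.range N, ENNReal.ofReal (lam k) *
          ∫⁻ y in Om k, ENNReal.ofReal (gsq (u t) y) := by
        gcongr
        exact sum_lint_le _ _
    _ ≤ ENNReal.ofReal (C / ν) * ∫⁻ t in J, ENNReal.ofReal 1728 *
          ENNReal.ofReal (EN χ (U u t)) := by
        gcongr ENNReal.ofReal (C / ν) * ?_
        exact setLIntegral_mono' measurableSet_Ioo hpt
    _ = _ := by
        rw [lintegral_const_mul' _ _ ENNReal.ofReal_ne_top, ← mul_assoc,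
          ← ENNReal.ofReal_mul (by positivity)]
        congr 2
        ring

end Pool.Agent.Run7.h782
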