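import Mathlib

/-!
The recursion over the scales.
-/

set_option autoImplicit false

open MeasureTheory Set Metric Filter Topology

namespace Pool.Agent.Run7.h782

theorem step {e d a : ℝ → ℝ} {t₂ T W κ c₁ P δ Y2 L2 k : ℝ} (hW : 0 < W) (hκ : 0 < κ)
    (hc : 0 < c₁) (hk : κ * W / c₁ = k)
    (ce : ContinuousOn e (Ico t₂ T)) (cd : ContinuousOn d (Ico t₂ T))
    (ca : ContinuousOn a (Ico t₂ T))
    (hd : ∀ t ∈ Ico t₂ T, 0 ≤ d t) (ha : ∀ t ∈ Ico t₂ T, 0 ≤ a t)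
    (he : ∀ t ∈ Ico t₂ T, 0 ≤ e t)
    (haδ : ∀ s t, t₂ ≤ s → s ≤ t → t < T → ∫ τ in s..t, a τ ≤ δ)
    (H1 : ∀ s t, t₂ ≤ s → s ≤ t → t < T → t - s ≤ W →
      e t + κ * ∫ τ in s..t, d τ ≤ e s + P + ∫ τ in s..t, a τ * e τ)
    (H2 : ∀ t ∈ Ico t₂ T, e t ≤ 3 / 8 * Y2 + c₁ * d t)
    (H4 : e t₂ ≤ L2) (hδ : δ * (1 + k) ≤ k / 16) (hP : 0 ≤ P) (hY2 : 0 ≤ Y2) (hL2 : 0 ≤ L2) :
    ∀ t ∈ Ico t₂ T, e t ≤ 2 / 5 * Y2 + 2 * ((1 + k) / k) * P + 2 * L2 := by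
  intro t ht
  have hk0 : 0 < k := by rw [← hk]; positivity
  have hsub : Icc t₂ t ⊆ Ico t₂ T := fun s hs => ⟨hs.1, hs.2.trans_lt ht.2⟩
  obtain ⟨m, hm, hmax⟩ := isCompact_Icc.exists_isMaxOn (nonempty_Icc.2 ht.1) (ce.mono hsub)
  have hmax' : ∀ s ∈ Icc t₂ t, e s ≤ e m := fun s hs => hmax hs
  have hmT : m ∈ Ico t₂ T := hsub hm
  set Y := e m with hY
  have hY0 : 0 ≤ Y := he m hmT
  have hδ1 : δ ≤ 1 / 16 := by
    by_contra h
    push Not at h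
    nlinarith
  refine (hmax' t ⟨ht.1, le_rfl⟩).trans ?_
  have hae : ∀ s, t₂ ≤ s → s ≤ m → ∫ τ in s..m, a τ * e τ ≤ δ * Y := by
    intro s hs hsm
    have hsub2 : Icc s m ⊆ Icc t₂ t := Icc_subset_Icc hs hm.2
    have hsub3 : Icc s m ⊆ Ico t₂ T := hsub2.trans hsub
    have i1 : IntervalIntegrable (fun τ => a τ * e τ) volume s m := by
      refine ContinuousOn.intervalIntegrable ?_
      rw [uIcc_of_le hsm]
      exact (ca.mono hsub3).mul (ce.mono hsub3)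
    have i2 : IntervalIntegrable (fun τ => a τ * Y) volume s m := by
      refine ContinuousOn.intervalIntegrable ?_
      rw [uIcc_of_le hsm]
      exact (ca.mono hsub3).mul continuousOn_const
    have h1 : ∫ τ in s..m, a τ * e τ ≤ ∫ τ in s..m, a τ * Y :=
      intervalIntegral.integral_mono_on hsm i1 i2 fun τ hτ =>
        mul_le_mul_of_nonneg_left (hmax' τ (hsub2 hτ)) (ha τ (hsub3 hτ))
    refine h1.trans ?_
    rw [intervalIntegral.integral_mul_const]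
    exact mul_le_mul_of_nonneg_right (haδ s m hs hsm hmT.2) hY0
  have hdn : ∀ s, t₂ ≤ s → s ≤ m → 0 ≤ ∫ τ in s..m, d τ := by
    intro s hs hsm
    exact intervalIntegral.integral_nonneg hsm fun τ hτ => hd τ ⟨hs.trans hτ.1, hτ.2.trans_lt hmT.2⟩
  have hlow : ∀ s, t₂ ≤ s → s ≤ m → m - s ≤ W → (1 - δ) * Y - P ≤ e s := by
    intro s hs hsm hsW
    have h1 := H1 s m hs hsm hmT.2 hsW
    have h2 := hae s hs hsm
    have h3 : 0 ≤ κ * ∫ τ in s..m, d τ := mul_nonneg hκ.le (hdn s hs hsm)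
    linarith
  have hkk : 2 ≤ 2 * ((1 + k) / k) := by
    have : 1 ≤ (1 + k) / k := by
      rw [le_div_iff₀ hk0]
      linarith
    linarith
  by_cases hcase : m - W ≤ t₂
  · have h1 := hlow t₂ le_rfl hmT.1 (by linarith)
    have h2 : 15 / 16 * Y ≤ (1 - δ) * Y := mul_le_mul_of_nonneg_right (by linarith) hY0
    have h3 : Y ≤ 2 * P + 2 * L2 := by linarith
    have h4 : 2 * P ≤ 2 * ((1 + k) / k) * P := mul_le_mul_of_nonneg_right hkk hP
    linarith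
  · push Not at hcase
    have hs0 : t₂ ≤ m - W := hcase.le
    have hsm : m - W ≤ m := by linarith
    have h1 := H1 (m - W) m hs0 hsm hmT.2 (by linarith)
    have h2 := hae (m - W) hs0 hsm
    have h3 : e (m - W) ≤ Y := hmax' _ ⟨hs0, hsm.trans hm.2⟩
    have h4 : κ * ∫ τ in (m - W)..m, d τ ≤ P + δ * Y := by linarith
    set B := (1 - δ) * Y - P - 3 / 8 * Y2 with hB
    have hsub3 : Icc (m - W) m ⊆ Ico t₂ T := fun τ hτ => ⟨hs0.trans hτ.1, hτ.2.trans_lt hmT.2⟩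
    have h5 : ∫ τ in (m - W)..m, B / c₁ ≤ ∫ τ in (m - W)..m, d τ := by
      refine intervalIntegral.integral_mono_on hsm (by simp) ?_ fun τ hτ => ?_
      · refine ContinuousOn.intervalIntegrable ?_
        rw [uIcc_of_le hsm]
        exact cd.mono hsub3
      · have b1 := hlow τ (hs0.trans hτ.1) hτ.2 (by linarith [hτ.1])
        have b2 := H2 τ (hsub3 hτ)
        rw [div_le_iff₀ hc]
        rw [hB]
        linarith
    rw [intervalIntegral.integral_const, smul_eq_mul] at h5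
    have h6 : k * B ≤ P + δ * Y := by
      refine le_trans ?_ h4
      have : k * B = κ * ((m - (m - W)) * (B / c₁)) := by
        rw [← hk]
        ring
      rw [this]
      exact mul_le_mul_of_nonneg_left h5 hκ.le
    have h7 : 15 / 16 * k * Y ≤ (1 + k) * P + 3 / 8 * k * Y2 := by
      have : δ * (1 + k) * Y ≤ k / 16 * Y := mul_le_mul_of_nonneg_right hδ hY0
      rw [hB] at h6
      nlinarith
    have h8 : Y ≤ 16 / 15 * ((1 + k) / k) * P + 2 / 5 * Y2 := by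
      have e1 : 16 / 15 * ((1 + k) / k) * P + 2 / 5 * Y2
          = (16 / 15) * ((1 + k) * P + 3 / 8 * k * Y2) / k := by
        field_simp
        ring
      rw [e1, le_div_iff₀ hk0]
      linarith
    have h9 : 16 / 15 * ((1 + k) / k) * P ≤ 2 * ((1 + k) / k) * P := by
      have : 0 ≤ (1 + k) / k * P := by positivity
      nlinarith
    linarith

theorem iter {e : ℝ → ℝ → ℝ} {ψ : ℝ → ℝ} {t₂ T r₁ D Y₀ ν : ℝ} (hr₁ : 0 < r₁) (hD : 1 ≤ D)
    (hν : 0 < ν) (hψ : ∀ r s, 0 < r → r ≤ s → s ≤ 2 * r₁ → ψ s ≤ ψ r)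
    (hψ0 : ∀ r, 0 < r → r ≤ 2 * r₁ → 0 < ψ r) (hY0 : 0 ≤ Y₀)
    (hY : ∀ r t, 0 < r → t ∈ Ico t₂ T → e r t ≤ Y₀)
    (hs : ∀ r Y2, 0 < r → r ≤ r₁ → 0 ≤ Y2 → (∀ t ∈ Ico t₂ T, e (2 * r) t ≤ Y2) →
      ∀ t ∈ Ico t₂ T, e r t ≤ 2 / 5 * Y2 + D * (ν ^ 2 * (r * ψ r))) :
    ∃ r₂, 0 < r₂ ∧ r₂ ≤ r₁ ∧ ∀ r, 0 < r → r ≤ r₂ → ∀ t ∈ Ico t₂ T,
      e r t ≤ 6 * D * (ν ^ 2 * (r * ψ r)) := by
  have claim : ∀ n : ℕ, ∀ r, 0 < r → r ≤ r₁ / 2 ^ n → ∀ t ∈ Ico t₂ T,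
      e r t ≤ 5 * D * (ν ^ 2 * (r * ψ r)) + (2 / 5) ^ n * Y₀ := by
    intro n
    induction n with
    | zero =>
      intro r hr hr1 t ht
      rw [pow_zero, div_one] at hr1
      have h1 := hψ0 r hr (by linarith)
      have h2 := hY r t hr ht
      have h3 : 0 ≤ 5 * D * (ν ^ 2 * (r * ψ r)) := by positivity
      simp only [pow_zero, one_mul]
      linarith
    | succ n ih =>
      intro r hr hr1 t ht
      have hr2 : 2 * r ≤ r₁ / 2 ^ n := by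
        rw [pow_succ] at hr1
        have : r₁ / (2 ^ n * 2) = r₁ / 2 ^ n / 2 := by field_simp
        rw [this] at hr1
        linarith
      have hr3 : r₁ / 2 ^ n ≤ r₁ := div_le_self hr₁.le (one_le_pow₀ (by norm_num))
      have hr4 : r ≤ r₁ := by linarith
      have h1 := hψ0 r hr (by linarith)
      have h2 := hψ r (2 * r) hr (by linarith) (by linarith)
      have h3 := hψ0 (2 * r) (by linarith) (by linarith)
      have h4 := hs r (5 * D * (ν ^ 2 * (2 * r * ψ (2 * r))) + (2 / 5) ^ n * Y₀) hr hr4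
        (by positivity) (ih (2 * r) (by linarith) hr2) t ht
      have h5 : D * (ν ^ 2 * (2 * r * ψ (2 * r))) ≤ D * (ν ^ 2 * (2 * r * ψ r)) := by gcongr
      have h6 : (2 / 5 : ℝ) ^ (n + 1) * Y₀ = 2 / 5 * ((2 / 5) ^ n * Y₀) := by
        rw [pow_succ]
        ring
      rw [h6]
      have h7 : 5 * D * (ν ^ 2 * (2 * r * ψ (2 * r))) = 5 * (D * (ν ^ 2 * (2 * r * ψ (2 * r)))) := by
        ring
      rw [h7] at h4
      nlinarith
  have hψ1 : 0 < ψ r₁ := hψ0 r₁ hr₁ (by linarith)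
  obtain ⟨N, hN⟩ := exists_pow_lt_of_lt_one (x := ν ^ 2 * ψ r₁ * r₁ / (2 * (Y₀ + 1)))
    (by positivity) (by norm_num : (4 / 5 : ℝ) < 1)
  refine ⟨r₁ / 2 ^ N, by positivity, div_le_self hr₁.le (one_le_pow₀ (by norm_num)),
    fun r hr hrN t ht => ?_⟩
  have hr1 : r ≤ r₁ := hrN.trans (div_le_self hr₁.le (one_le_pow₀ (by norm_num)))
  have hx : 1 ≤ r₁ / r := by rwa [le_div_iff₀ hr, one_mul]
  obtain ⟨n, hn1, hn2⟩ := exists_nat_pow_near hx (by norm_num : (1 : ℝ) < 2)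
  have hNn : N ≤ n := by
    have h1 : (2 : ℝ) ^ N < 2 ^ (n + 1) := by
      refine lt_of_le_of_lt ?_ hn2
      rw [le_div_iff₀ hr]
      rw [le_div_iff₀ (by positivity)] at hrN
      linarith
    have h2 := (pow_lt_pow_iff_right₀ (by norm_num : (1 : ℝ) < 2)).1 h1
    omega
  have h1 := claim n r hr (by
    rw [le_div_iff₀ hr] at hn1
    rw [le_div_iff₀ (by positivity)]
    linarith) t ht
  have h2 : (2 / 5 : ℝ) ^ n * Y₀ ≤ D * (ν ^ 2 * (r * ψ r)) := by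
    have e1 : (2 / 5 : ℝ) ^ n = (4 / 5) ^ n * (1 / 2) ^ n := by
      rw [← mul_pow]
      norm_num
    have h3 : (1 / 2 : ℝ) ^ n ≤ 2 * r / r₁ := by
      rw [div_lt_iff₀ hr] at hn2
      rw [le_div_iff₀ hr₁, one_div, inv_pow, inv_mul_le_iff₀ (by positivity)]
      rw [pow_succ] at hn2
      linarith
    have h4 : (4 / 5 : ℝ) ^ n ≤ (4 / 5) ^ N :=
      pow_le_pow_of_le_one (by norm_num) (by norm_num) hNn
    have h5 : (4 / 5 : ℝ) ^ n ≤ ν ^ 2 * ψ r₁ * r₁ / (2 * (Y₀ + 1)) := h4.trans hN.le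
    have h6 : ψ r₁ ≤ ψ r := hψ r r₁ hr hr1 (by linarith)
    calc (2 / 5 : ℝ) ^ n * Y₀ = (4 / 5) ^ n * (1 / 2) ^ n * Y₀ := by rw [e1]
      _ ≤ (ν ^ 2 * ψ r₁ * r₁ / (2 * (Y₀ + 1))) * (2 * r / r₁) * (Y₀ + 1) := by
          gcongr
          linarith
      _ = ν ^ 2 * (r * ψ r₁) := by field_simp
      _ ≤ ν ^ 2 * (r * ψ r) := by gcongr
      _ ≤ D * (ν ^ 2 * (r * ψ r)) := by
          have := hψ0 r hr (by linarith)
          exact le_mul_of_one_le_left (by positivity) hD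
  linarith

end Pool.Agent.Run7.h782
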