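import Pool.Agent.Run7.h782.TimeK
import Pool.Agent.Run7.h782.Rec

/-!
The dissipation on short time intervals.
-/

set_option autoImplicit false

open MeasureTheory Set Metric Filter Topology
open scoped ContDiff

namespace Pool.Agent.Run7.h782

open H459R3.NS W221.NS Pool.Agent.W369.MH

theorem XX_eq (u : ℝ → V → V) (t : ℝ) : XX (U u t) = enstrophy (u t) + energy (u t) := by
  unfold XX Y1 enstrophy energy
  rw [Finset.sum_add_distrib]
  rfl

theorem F_nonneg {ν T F : ℝ} {u : ℝ → V → V} {p : ℝ → V → ℝ} {f : ℝ → V → V} (hT : 0 < T)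
    (h : IsSolF ν T F u p f) : 0 ≤ F :=
  (abs_nonneg _).trans (h.force (T / 2) ⟨by linarith, by linarith⟩ 0 (mem_univ _) 0).1

/-- Integrability of the coefficient. -/
theorem tail {ν T F : ℝ} {u : ℝ → V → V} {p : ℝ → V → ℝ} {f : ℝ → V → V} (hν : 0 < ν)
    (hT : 0 < T) (h : IsSolF ν T F u p f) {C δ t₀ : ℝ} (hC : 0 ≤ C) (hδ : 0 < δ) (ht₀ : 0 ≤ t₀)
    (ht₀' : t₀ < T) :
    ∃ t₂, t₀ ≤ t₂ ∧ t₂ < T ∧ ∀ s t, t₂ ≤ s → s ≤ t → t < T →
      ∫ τ in s..t, C * (1 + XX (U u τ)) ≤ δ := by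
  have hF := F_nonneg hT h
  obtain ⟨⟨E, hE0, hE⟩, hI⟩ := t_PEN3 ν T F u p f hν hT hF h
  have hX0 : ∀ τ, 0 ≤ XX (U u τ) := fun τ => XX_nonneg _
  have hcX : ContinuousOn (fun τ => XX (U u τ)) (Ioo 0 T) := (c_XX h).mono Ioo_subset_Ico_self
  have i1 : IntegrableOn (fun τ => XX (U u τ)) (Ioo 0 T) := by
    have i2 : IntegrableOn (fun τ => enstrophy (u τ) + E ^ 2) (Ioo 0 T) :=
      hI.add (integrableOn_const (by simp))
    refine Integrable.mono' i2 (hcX.aestronglyMeasurable measurableSet_Ioo) ?_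
    refine (ae_restrict_iff' measurableSet_Ioo).2 (Filter.Eventually.of_forall fun τ hτ => ?_)
    rw [Real.norm_eq_abs, abs_of_nonneg (hX0 τ), XX_eq]
    have := hE τ hτ
    linarith
  have i3 : IntegrableOn (fun τ => C * (1 + XX (U u τ))) (Ioo 0 T) :=
    ((integrableOn_const (by simp)).add i1).const_mul C
  have i4 : IntegrableOn (fun τ => C * (1 + XX (U u τ))) (Icc 0 T) := by
    rw [integrableOn_Icc_iff_integrableOn_Ioo]
    exact i3
  have i5 : IntegrableOn (fun τ => C * (1 + XX (U u τ))) (uIcc 0 T) := by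
    rwa [uIcc_of_le hT.le]
  have hc := intervalIntegral.continuousOn_primitive_interval_left i5
  have hcT : ContinuousWithinAt (fun x => ∫ τ in x..T, C * (1 + XX (U u τ))) (uIcc 0 T) T :=
    hc T (by rw [uIcc_of_le hT.le]; exact ⟨hT.le, le_rfl⟩)
  obtain ⟨η, hη, hη'⟩ := Metric.continuousWithinAt_iff.1 hcT δ hδ
  refine ⟨max t₀ (T - η / 2), le_max_left _ _, max_lt ht₀' (by linarith), fun s t hs hst htT => ?_⟩
  set t₂ := max t₀ (T - η / 2) with ht₂
  have ht₂0 : 0 ≤ t₂ := ht₀.trans (le_max_left _ _)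
  have ht₂T : t₂ < T := max_lt ht₀' (by linarith)
  have h1 := @hη' t₂ (by rw [uIcc_of_le hT.le]; exact ⟨ht₂0, ht₂T.le⟩) (by
    rw [Real.dist_eq, abs_sub_comm, abs_of_nonneg (by linarith)]
    have := le_max_right t₀ (T - η / 2)
    linarith)
  rw [intervalIntegral.integral_same, dist_zero_right, Real.norm_eq_abs] at h1
  have h2 : ∫ τ in s..t, C * (1 + XX (U u τ)) ≤ ∫ τ in t₂..T, C * (1 + XX (U u τ)) := by
    refine intervalIntegral.integral_mono_interval hs hst htT.le ?_ ?_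
    · refine Filter.Eventually.of_forall fun τ => ?_
      have := hX0 τ
      simp only [Pi.zero_apply]
      positivity
    · rw [intervalIntegrable_iff_integrableOn_Icc_of_le ht₂T.le]
      exact i4.mono_set (Icc_subset_Icc_left ht₂0)
  exact h2.trans ((le_abs_self _).trans h1.le)


theorem c_EN {ν T F : ℝ} {u : ℝ → V → V} {p : ℝ → V → ℝ} {f : ℝ → V → V} {χ : V → ℝ}
    (h : IsSolF ν T F u p f) (hχ : SP χ) :
    ContinuousOn (fun t => EN χ (U u t)) (Ico 0 T) := by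
  unfold EN GG
  refine continuousOn_finsetSum _ fun i _ => continuousOn_finsetSum _ fun j _ => ?_
  refine continuousOn_int (F := fun s x => χ x * pd j (U u s i) x ^ 2) ?_
  exact ((hχ.cont.comp continuous_snd).continuousOn).mul ((c_pdU h i j).pow 2)

theorem dyn {φ : V → ℝ} (hφ : Ker φ) {θ : ℝ} (hθ : θ < 1) :
    ∃ C₁ : ℝ, 0 < C₁ ∧ ∀ (ν T F t₀ r₀ : ℝ) (u : ℝ → V → V) (p : ℝ → V → ℝ) (f : ℝ → V → V)
      (χ : V → ℝ) (ψ : ℝ → ℝ), 0 < ν → 0 < T → IsSolF ν T F u p f → SP χ → (∀ x, 0 < χ x) →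
      0 ≤ t₀ → t₀ < T → 0 < r₀ → (∀ r s, 0 < r → r ≤ s → s < r₀ → ψ s ≤ ψ r) →
      (∀ r, 0 < r → r < r₀ → 0 < ψ r) →
      (∀ r s t, 0 < r → r < r₀ → t₀ ≤ s → s ≤ t → t < T → t - s ≤ r ^ 2 / ν →
        ∫ τ in s..t, fx φ χ r (U u τ) ≤ 2 * ν * θ * (∫ τ in s..t, dr φ χ r (U u τ))
          + ν ^ 2 * (r * ψ r)) →
      ∃ r₃ t₂, 0 < r₃ ∧ r₃ < r₀ ∧ t₀ ≤ t₂ ∧ t₂ < T ∧ ∀ r s t, 0 < r → r ≤ r₃ → t₂ ≤ s → s ≤ t →
        t < T → t - s ≤ r ^ 2 / ν → ∫ τ in s..t, EN χ (U u τ) ≤ C₁ * (ν * (r * ψ r)) := by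
  obtain ⟨R, hR, hR'⟩ := hφ.rad
  obtain ⟨L, hL, hlow'⟩ := low hφ
  obtain ⟨Λ, hΛ, hlow⟩ := hlow' L le_rfl
  have hm := hφ.mass_pos
  set m := ∫ y, φ y with hmd
  have hθ' : 0 < 1 - θ := by linarith
  set k := 2 * (1 - θ) / (9 * R ^ 2) with hk
  have hk0 : 0 < k := by positivity
  set D := 2 * ((1 + k) / k) + 1 with hD
  have hkk : 0 < (1 + k) / k := by positivity
  have hD1 : 1 ≤ D := by linarith
  refine ⟨(28 * D * m / (1 - θ) + 6 * Λ * D * L) / m ^ 2, by positivity,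
    fun ν T F t₀ r₀ u p f χ ψ hν hT h hχ hχ0 ht₀ ht₀T hr₀ hψ hψ0 hflux => ?_⟩
  obtain ⟨c, M, hw⟩ := exists_wt hχ hχ0
  obtain ⟨ρ, hρ, hn⟩ := near hw
  have hF := F_nonneg hT h
  set κ := ν * (1 - θ) with hκ
  have hκ0 : 0 < κ := by positivity
  obtain ⟨C, hC0, hbal⟩ := bal_av hν hw hκ0
  set δ := k / (16 * (1 + k)) with hδ
  have hδ0 : 0 < δ := by positivity
  obtain ⟨t₂, ht₂, ht₂T, htail⟩ := tail hν hT h hC0 hδ0 ht₀ ht₀T
  have ht₂0 : 0 ≤ t₂ := ht₀.trans ht₂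
  have hsubI : Ico t₂ T ⊆ Ico 0 T := Ico_subset_Ico_left ht₂0
  set b := C * F ^ 2 * m with hb
  have hb0 : 0 ≤ b := by positivity
  set L0 := 6 * R ^ 2 * m * EN χ (U u t₂) with hL0
  have hEN0 : ∀ t, 0 ≤ EN χ (U u t) := fun t => EN_nonneg hw
  have hL00 : 0 ≤ L0 := by
    have := hEN0 t₂
    positivity
  -- bound on the energy
  obtain ⟨⟨E, hE0, hE⟩, -⟩ := t_PEN3 ν T F u p f hν hT hF h
  set E' := Real.exp T * (energy (u 0) + 3 * F ^ 2) with hE'
  have hE'0 : 0 ≤ E' := by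
    have := H459R3.NS.energy_nonneg (u 0)
    positivity
  have hM := hw.M0
  set Y₀ := 4 * M * E' * m with hY₀
  have hY₀0 : 0 ≤ Y₀ := by positivity
  have hY : ∀ r t, 0 < r → t ∈ Ico t₂ T → er φ χ r (U u t) ≤ Y₀ := by
    intro r t hr ht
    have hI := hsubI ht
    refine (er_le (fun i => sp_U h hI i) hφ hw r).trans ?_
    have h1 : ∑ i, ∫ x in cube, U u t i x ^ 2 = energy (u t) := rfl
    rw [h1]
    have h2 := energy_bd hν hF h hI
    rw [hY₀]
    gcongr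
  -- the small scale
  set ψ0 := ψ (r₀ / 2) with hψ0d
  have hψ00 : 0 < ψ0 := hψ0 _ (by linarith) (by linarith)
  set Q := 2 * ((1 + k) / k) * b / ν + 2 * L0 + b / ν + 1 with hQ
  have hQ0 : 0 < Q := by positivity
  set r₁ := min (r₀ / 4) (min (ρ / R) (ν ^ 2 * ψ0 / Q)) with hr₁
  have hr₁0 : 0 < r₁ := by
    rw [hr₁]
    refine lt_min (by linarith) (lt_min (by positivity) (by positivity))
  have hr₁a : r₁ ≤ r₀ / 4 := min_le_left _ _
  have hr₁b : r₁ ≤ ρ / R := (min_le_right _ _).trans (min_le_left _ _)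
  have hr₁c : r₁ ≤ ν ^ 2 * ψ0 / Q := (min_le_right _ _).trans (min_le_right _ _)
  have hψm : ∀ r s, 0 < r → r ≤ s → s ≤ 2 * r₁ → ψ s ≤ ψ r := fun r s hr hrs hs =>
    hψ r s hr hrs (by linarith)
  have hψp : ∀ r, 0 < r → r ≤ 2 * r₁ → 0 < ψ r := fun r hr hs => hψ0 r hr (by linarith)
  have hψge : ∀ r, 0 < r → r ≤ r₁ → ψ0 ≤ ψ r := fun r hr hs =>
    hψ r (r₀ / 2) hr (by linarith) (by linarith)
  have hQr : ∀ r, 0 < r → r ≤ r₁ → Q * r ^ 2 ≤ ν ^ 2 * (r * ψ r) := by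
    intro r hr hr1
    have h1 : Q * r ≤ ν ^ 2 * ψ0 := by
      have := hr1.trans hr₁c
      rw [le_div_iff₀ hQ0] at this
      linarith
    have h2 := hψge r hr hr1
    calc Q * r ^ 2 = (Q * r) * r := by ring
      _ ≤ (ν ^ 2 * ψ0) * r := by gcongr
      _ ≤ (ν ^ 2 * ψ r) * r := by gcongr
      _ = _ := by ring
  -- the inequality on windows
  have hH1 : ∀ r s t, 0 < r → r ≤ r₁ → t₂ ≤ s → s ≤ t → t < T → t - s ≤ r ^ 2 / ν →
      er φ χ r (U u t) + κ * (∫ τ in s..t, dr φ χ r (U u τ))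
        ≤ er φ χ r (U u s) + (ν ^ 2 * (r * ψ r) + b * r ^ 2 / ν)
          + ∫ τ in s..t, C * (1 + XX (U u τ)) * er φ χ r (U u τ) := by
    intro r s t hr hr1 hs hst htT htW
    have h1 := hbal φ hφ T F u p f h r s t hr (ht₂0.trans hs) hst htT
    have h2 := hflux r s t hr (by linarith) (ht₂.trans hs) hst htT htW
    have h3 : b * (t - s) ≤ b * r ^ 2 / ν := by
      calc b * (t - s) ≤ b * (r ^ 2 / ν) := by gcongr
        _ = _ := by ring
    have e1 : (2 * ν - κ) * (∫ τ in s..t, dr φ χ r (U u τ))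
        = κ * (∫ τ in s..t, dr φ χ r (U u τ))
          + 2 * ν * θ * (∫ τ in s..t, dr φ χ r (U u τ)) := by
      rw [hκ]
      ring
    rw [e1] at h1
    linarith
  have ha0 : ∀ τ, 0 ≤ C * (1 + XX (U u τ)) := fun τ => by
    have := XX_nonneg (U u τ)
    positivity
  have caC : ContinuousOn (fun τ => C * (1 + XX (U u τ))) (Ico t₂ T) :=
    (continuousOn_const.mul (continuousOn_const.add (c_XX h))).mono hsubI
  have hstep : ∀ r Y2, 0 < r → r ≤ r₁ → 0 ≤ Y2 →
      (∀ t ∈ Ico t₂ T, er φ χ (2 * r) (U u t) ≤ Y2) →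
      ∀ t ∈ Ico t₂ T, er φ χ r (U u t) ≤ 2 / 5 * Y2 + D * (ν ^ 2 * (r * ψ r)) := by
    intro r Y2 hr hr1 hY2 hY2' t ht
    have hrR : r * R ≤ ρ := by
      have := hr1.trans hr₁b
      rwa [le_div_iff₀ hR] at this
    have hψr := hψp r hr (by linarith)
    have h1 := step (e := fun t => er φ χ r (U u t)) (d := fun t => dr φ χ r (U u t))
      (a := fun τ => C * (1 + XX (U u τ))) (t₂ := t₂) (T := T) (W := r ^ 2 / ν) (κ := κ)
      (c₁ := 9 / 2 * R ^ 2 * r ^ 2) (P := ν ^ 2 * (r * ψ r) + b * r ^ 2 / ν) (δ := δ) (Y2 := Y2)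
      (L2 := L0 * r ^ 2) (k := k) (by positivity) hκ0 (by positivity)
      (by rw [hκ, hk]; field_simp)
      ((c_er h hφ hχ r).mono hsubI) ((c_dr h hφ hχ r).mono hsubI) caC
      (fun t ht => dr_nonneg (fun i => sp_U h (hsubI ht) i) hφ hw r) (fun τ _ => ha0 τ)
      (fun t ht => er_nonneg (fun i => sp_U h (hsubI ht) i) hφ hw r)
      htail (fun s t hs hst htT htW => hH1 r s t hr hr1 hs hst htT htW)
      (fun t ht => by
        have h2 := er_incr (fun i => sp_U h (hsubI ht) i) hφ hw hn hR hR' hr hrR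
        have h3 := hY2' t ht
        linarith)
      (by
        have h2 := er_small (fun i => sp_U h (hsubI ⟨le_rfl, ht₂T⟩) i) hφ hw hn hR hR' hr hrR
        refine h2.trans (le_of_eq ?_)
        rw [hL0]
        ring)
      (by rw [hδ]; field_simp; exact le_rfl) (by positivity) hY2 (by positivity) t ht
    refine h1.trans ?_
    have h2 := hQr r hr hr1
    have h3 : 2 * ((1 + k) / k) * (ν ^ 2 * (r * ψ r) + b * r ^ 2 / ν) + 2 * (L0 * r ^ 2)
        ≤ 2 * ((1 + k) / k) * (ν ^ 2 * (r * ψ r)) + Q * r ^ 2 := by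
      have e1 : 2 * ((1 + k) / k) * (ν ^ 2 * (r * ψ r) + b * r ^ 2 / ν) + 2 * (L0 * r ^ 2)
          = 2 * ((1 + k) / k) * (ν ^ 2 * (r * ψ r))
            + (2 * ((1 + k) / k) * b / ν + 2 * L0) * r ^ 2 := by ring
      rw [e1]
      have : 2 * ((1 + k) / k) * b / ν + 2 * L0 ≤ Q := by
        rw [hQ]
        have : 0 ≤ b / ν := by positivity
        linarith
      gcongr
    rw [hD]
    linarith
  obtain ⟨r₂, hr₂, hr₂₁, hfin⟩ := iter (e := fun r t => er φ χ r (U u t)) hr₁0 hD1 hν hψm hψp hY₀0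
    hY hstep
  refine ⟨r₂ / L, t₂, by positivity, ?_, ht₂, ht₂T, fun r s t hr hrr hs hst htT htW => ?_⟩
  · have : r₂ / L ≤ r₂ := div_le_self hr₂.le hL
    linarith
  have hL0' : 0 < L := by linarith
  have hLr : L * r ≤ r₂ := by
    rw [le_div_iff₀ hL0'] at hrr
    linarith
  have hrL : r ≤ L * r := le_mul_of_one_le_left hr.le hL
  have hr2 : r ≤ r₂ := hrL.trans hLr
  have hr1 : r ≤ r₁ := hr2.trans hr₂₁
  have hψr := hψp r hr (by linarith)
  have hsub : Icc s t ⊆ Ico t₂ T := fun τ hτ => ⟨hs.trans hτ.1, hτ.2.trans_lt htT⟩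
  have hsI : s ∈ Ico t₂ T := hsub ⟨le_rfl, hst⟩
  have hX := hQr r hr hr1
  set X := ν ^ 2 * (r * ψ r) with hXd
  have hX0 : 0 < X := by positivity
  -- dissipation
  have hdis : κ * (∫ τ in s..t, dr φ χ r (U u τ)) ≤ 14 * D * X := by
    have h1 := hH1 r s t hr hr1 hs hst htT htW
    have h2 := hfin r hr hr2 s hsI
    have h3 : 0 ≤ er φ χ r (U u t) :=
      er_nonneg (fun i => sp_U h (hsubI (hsub ⟨hst, le_rfl⟩)) i) hφ hw r
    have h4 : b * r ^ 2 / ν ≤ X := by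
      refine le_trans ?_ hX
      have : b * r ^ 2 / ν = b / ν * r ^ 2 := by ring
      rw [this]
      have : b / ν ≤ Q := by
        rw [hQ]
        have : 0 ≤ 2 * ((1 + k) / k) * b / ν := by positivity
        linarith
      gcongr
    have h5 : ∫ τ in s..t, C * (1 + XX (U u τ)) * er φ χ r (U u τ)
        ≤ ∫ τ in s..t, C * (1 + XX (U u τ)) * (6 * D * X) := by
      refine intervalIntegral.integral_mono_on hst ?_ ?_ fun τ hτ =>
        mul_le_mul_of_nonneg_left (hfin r hr hr2 τ (hsub hτ)) (ha0 τ)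
      · refine ContinuousOn.intervalIntegrable ?_
        rw [uIcc_of_le hst]
        exact (caC.mono hsub).mul (((c_er h hφ hχ r).mono hsubI).mono hsub)
      · refine ContinuousOn.intervalIntegrable ?_
        rw [uIcc_of_le hst]
        exact (caC.mono hsub).mul continuousOn_const
    rw [intervalIntegral.integral_mul_const] at h5
    have h6 := htail s t hs hst htT
    have h7 : δ ≤ 1 := by
      rw [hδ, div_le_one (by positivity)]
      linarith
    have h8 : (∫ τ in s..t, C * (1 + XX (U u τ))) * (6 * D * X) ≤ 1 * (6 * D * X) :=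
      mul_le_mul_of_nonneg_right (h6.trans h7) (by positivity)
    have h9 : X ≤ D * X := le_mul_of_one_le_left hX0.le hD1
    linarith
  have hdint : IntervalIntegrable (fun τ => dr φ χ r (U u τ)) volume s t := by
    refine ContinuousOn.intervalIntegrable ?_
    rw [uIcc_of_le hst]
    exact ((c_dr h hφ hχ r).mono hsubI).mono hsub
  have hENint : IntervalIntegrable (fun τ => EN χ (U u τ)) volume s t := by
    refine ContinuousOn.intervalIntegrable ?_
    rw [uIcc_of_le hst]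
    exact ((c_EN h hχ).mono hsubI).mono hsub
  have hψL := hψm r (L * r) hr hrL (by linarith)
  have hψL0 := hψp (L * r) (by positivity) (by linarith)
  set Z := Λ / r ^ 2 * (6 * D * (ν ^ 2 * (L * r * ψ r))) with hZ
  have hZ0 : 0 ≤ Z := by positivity
  have hpt : ∀ τ ∈ Icc s t, m ^ 2 * EN χ (U u τ) ≤ 2 * m * dr φ χ r (U u τ) + Z := by
    intro τ hτ
    have h1 := hlow (U u τ) χ c M (fun i => sp_U h (hsubI (hsub hτ)) i) hw r hr
    refine h1.trans ?_
    have h2 := hfin (L * r) (by positivity) hLr τ (hsub hτ)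
    have h3 : ν ^ 2 * (L * r * ψ (L * r)) ≤ ν ^ 2 * (L * r * ψ r) := by gcongr
    have h4 : er φ χ (L * r) (U u τ) ≤ 6 * D * (ν ^ 2 * (L * r * ψ r)) := by
      refine h2.trans ?_
      gcongr
    have h5 : 0 ≤ Λ / r ^ 2 := by positivity
    have := mul_le_mul_of_nonneg_left h4 h5
    linarith
  have hI := intervalIntegral.integral_mono_on hst (hENint.const_mul (m ^ 2))
    ((hdint.const_mul (2 * m)).add (intervalIntegrable_const (c := Z))) hpt
  rw [intervalIntegral.integral_add (hdint.const_mul (2 * m)) intervalIntegrable_const,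
    intervalIntegral.integral_const_mul, intervalIntegral.integral_const_mul,
    intervalIntegral.integral_const, smul_eq_mul] at hI
  have hZ2 : (t - s) * Z ≤ 6 * Λ * D * L * (ν * (r * ψ r)) := by
    calc (t - s) * Z ≤ (r ^ 2 / ν) * Z := by gcongr
      _ = _ := by
        rw [hZ]
        field_simp
  have hd2 : 2 * m * (∫ τ in s..t, dr φ χ r (U u τ)) ≤ 28 * D * m / (1 - θ) * (ν * (r * ψ r)) := by
    have h1 : (∫ τ in s..t, dr φ χ r (U u τ)) ≤ 14 * D * X / κ := by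
      rw [le_div_iff₀ hκ0]
      linarith
    calc 2 * m * (∫ τ in s..t, dr φ χ r (U u τ)) ≤ 2 * m * (14 * D * X / κ) := by gcongr
      _ = _ := by
        rw [hXd, hκ]
        field_simp
        ring
  have hfinal : m ^ 2 * (∫ τ in s..t, EN χ (U u τ))
      ≤ (28 * D * m / (1 - θ) + 6 * Λ * D * L) * (ν * (r * ψ r)) := by
    linarith
  rw [div_mul_eq_mul_div, le_div_iff₀ (by positivity)]
  linarith

end Pool.Agent.Run7.h782
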