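import Pool.Agent.Run7.h782.Dyn
import Pool.Agent.Run7.h782.Count

/-!
The number of the singular points and the flux.
-/

set_option autoImplicit false

open MeasureTheory Set Metric Filter Topology
open scoped ContDiff ENNReal

namespace Pool.Agent.Run7.h782

open H459R3.NS W221.NS

theorem lim_lint {g : ℝ → ℝ≥0∞} {s T : ℝ} {B : ℝ≥0∞}
    (h : ∀ t, s < t → t < T → ∫⁻ τ in Ioc s t, g τ ≤ B) : ∫⁻ τ in Ioo s T, g τ ≤ B := by
  by_cases hsT : s < T
  · obtain ⟨w, hw1, hw2, hw3⟩ := exists_seq_strictMono_tendsto' hsT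
    have e : Ioo s T = ⋃ n, Ioc s (w n) := by
      ext x
      simp only [mem_Ioo, mem_iUnion, mem_Ioc]
      constructor
      · rintro ⟨h1, h2⟩
        obtain ⟨n, hn⟩ := (hw3.eventually (Ioi_mem_nhds h2)).exists
        exact ⟨n, h1, hn.le⟩
      · rintro ⟨n, h1, h2⟩
        exact ⟨h1, h2.trans_lt (hw2 n).2⟩
    rw [e, setLIntegral_iUnion_of_directed]
    · exact iSup_le fun n => h (w n) (hw2 n).1 (hw2 n).2
    · intro a b
      exact ⟨max a b, Ioc_subset_Ioc_right (hw1.monotone (le_max_left _ _)),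
        Ioc_subset_Ioc_right (hw1.monotone (le_max_right _ _))⟩
  · rw [Ioo_eq_empty hsT]
    simp

/-- The weighted number of separated singular points. -/
theorem fin_count {φ : V → ℝ} (hφ : Ker φ) {θ : ℝ} (hθ : θ < 1) :
    ∃ C : ℝ, 0 < C ∧ ∀ (ν T F t₀ r₀ : ℝ) (u : ℝ → V → V) (p : ℝ → V → ℝ) (f : ℝ → V → V)
      (χ : V → ℝ) (ψ : ℝ → ℝ), 0 < ν → 0 < T → IsSolF ν T F u p f → SP χ → (∀ x, 0 < χ x) →
      0 ≤ t₀ → t₀ < T → 0 < r₀ → (∀ r s, 0 < r → r ≤ s → s < r₀ → ψ s ≤ ψ r) →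
      (∀ r, 0 < r → r < r₀ → 0 < ψ r) →
      (∀ r s t, 0 < r → r < r₀ → t₀ ≤ s → s ≤ t → t < T → t - s ≤ r ^ 2 / ν →
        ∫ τ in s..t, fx φ χ r (U u τ) ≤ 2 * ν * θ * (∫ τ in s..t, dr φ χ r (U u τ))
          + ν ^ 2 * (r * ψ r)) →
      ∃ r₁, 0 < r₁ ∧ r₁ ≤ r₀ ∧ ∀ r, 0 < r → r < r₁ → ∀ S : Finset V,
        (∀ x ∈ S, x ∈ cube ∧ Sing T u x) → (∀ x ∈ S, ∀ y ∈ S, x ≠ y → r ≤ ‖x - y‖) →
        ∑ x ∈ S, χ x ≤ C * ψ r := by
  obtain ⟨C₁, hC₁, H1⟩ := dyn hφ hθ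
  obtain ⟨C₂, hC₂, H2⟩ := wcount
  refine ⟨6 * C₁ * C₂, by positivity,
    fun ν T F t₀ r₀ u p f χ ψ hν hT h hχ hχ0 ht₀ ht₀T hr₀ hψ hψ0 hflux => ?_⟩
  obtain ⟨r₃, t₂, hr₃, hr₃₀, ht₂, ht₂T, hdis⟩ :=
    H1 ν T F t₀ r₀ u p f χ ψ hν hT h hχ hχ0 ht₀ ht₀T hr₀ hψ hψ0 hflux
  obtain ⟨r₄, hr₄, hcount⟩ := H2 ν T F u p f χ hν hT h hχ hχ0
  have hq : 0 < √((T - t₂) * ν / 32) := Real.sqrt_pos.2 (by
    have : 0 < T - t₂ := by linarith
    positivity)
  refine ⟨min (r₃ / 6) (min r₄ (√((T - t₂) * ν / 32))), lt_min (by positivity) (lt_min hr₄ hq),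
    (min_le_left _ _).trans (by linarith), fun r hr hrr S hS hsep => ?_⟩
  have h1 : r < r₃ / 6 := hrr.trans_le (min_le_left _ _)
  have h2 : r < r₄ := hrr.trans_le ((min_le_right _ _).trans (min_le_left _ _))
  have h3 : r ≤ √((T - t₂) * ν / 32) :=
    (hrr.trans_le ((min_le_right _ _).trans (min_le_right _ _))).le
  have h4 : t₂ ≤ T - 32 * r ^ 2 / ν := by
    have h2 : r ^ 2 ≤ (T - t₂) * ν / 32 := by
      have h5 : 0 ≤ (T - t₂) * ν / 32 := by
        have : 0 < T - t₂ := by linarith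
        positivity
      rw [← Real.sq_sqrt h5]
      exact pow_le_pow_left₀ hr.le h3 2
    have h3 : 32 * r ^ 2 / ν ≤ T - t₂ := by
      rw [div_le_iff₀ hν]
      linarith
    linarith
  have hψr := hψ0 r hr (by linarith)
  have h6r : 6 * r < r₀ := by linarith
  have hψ6 : ψ (6 * r) ≤ ψ r := hψ r (6 * r) hr (by linarith) h6r
  have hψ6' := hψ0 (6 * r) (by linarith) h6r
  set s := T - 32 * r ^ 2 / ν with hs
  have hw := hcount r hr h2 S hS hsep
  have hlin : ∫⁻ τ in Ioo s T, ENNReal.ofReal (EN χ (U u τ))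
      ≤ ENNReal.ofReal (6 * C₁ * (ν * (r * ψ r))) := by
    refine lim_lint fun t hst htT => ?_
    have hsub : Icc s t ⊆ Ico 0 T := fun τ hτ =>
      ⟨(ht₀.trans (ht₂.trans h4)).trans hτ.1, hτ.2.trans_lt htT⟩
    have hc : ContinuousOn (fun τ => EN χ (U u τ)) (Icc s t) := (c_EN h hχ).mono hsub
    have hi : IntegrableOn (fun τ => EN χ (U u τ)) (Ioc s t) :=
      (hc.integrableOn_Icc).mono_set Ioc_subset_Icc_self
    have h0 : ∀ τ, 0 ≤ EN χ (U u τ) := fun τ =>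
      Finset.sum_nonneg fun i _ => GG_nonneg fun x => (hχ0 x).le
    rw [← ofReal_integral_eq_lintegral_ofReal hi (Filter.Eventually.of_forall h0)]
    apply ENNReal.ofReal_le_ofReal
    rw [← intervalIntegral.integral_of_le hst.le]
    have h7 := hdis (6 * r) s t (by linarith) (by linarith) h4 hst.le htT (by
      have : T - s = 32 * r ^ 2 / ν := by rw [hs]; ring
      have h8 : t - s ≤ 32 * r ^ 2 / ν := by linarith
      refine h8.trans ?_
      gcongr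
      nlinarith [sq_nonneg r])
    refine h7.trans ?_
    calc C₁ * (ν * (6 * r * ψ (6 * r))) ≤ C₁ * (ν * (6 * r * ψ r)) := by gcongr
      _ = _ := by ring
  have h5 : ENNReal.ofReal ((∑ x ∈ S, χ x) * r)
      ≤ ENNReal.ofReal (C₂ / ν * (6 * C₁ * (ν * (r * ψ r)))) := by
    refine hw.trans ?_
    rw [ENNReal.ofReal_mul (by positivity)]
    gcongr
  have h6 : (∑ x ∈ S, χ x) * r ≤ C₂ / ν * (6 * C₁ * (ν * (r * ψ r))) :=
    (ENNReal.ofReal_le_ofReal_iff (by positivity)).1 h5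
  have h7 : C₂ / ν * (6 * C₁ * (ν * (r * ψ r))) = 6 * C₁ * C₂ * ψ r * r := by
    field_simp
  rw [h7] at h6
  exact le_of_mul_le_mul_right h6 hr

/-- No singular point: the solution is bounded. -/
theorem bdd_of_no_sing {ν T F : ℝ} {u : ℝ → V → V} {p : ℝ → V → ℝ} {f : ℝ → V → V} (hT : 0 < T)
    (h : IsSolF ν T F u p f) (hs : ∀ x ∈ cube, ¬ Sing T u x) :
    ∃ B : ℝ, ∀ t ∈ Ico 0 T, ∀ x, ‖u t x‖ ≤ B := by
  have h1 : ∀ x ∈ cube, ∃ δ > 0, ∃ B : ℝ, ∀ t ∈ Ioo (T - δ) T, ∀ y ∈ ball x δ, ‖u t y‖ ≤ B := by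
    intro x hx
    have := hs x hx
    unfold Sing at this
    push Not at this
    exact this
  choose! δ hδ B hB using h1
  obtain ⟨K, hK, hcov⟩ := cube_cpt.elim_nhds_subcover (fun x => ball x (δ x))
    (fun x hx => ball_mem_nhds x (hδ x hx))
  have h2 : ∃ η : ℝ, 0 < η ∧ η ≤ T ∧ ∀ x ∈ K, η ≤ δ x := by
    classical
    have : ∀ K' : Finset V, (∀ x ∈ K', x ∈ cube) → ∃ η : ℝ, 0 < η ∧ η ≤ T ∧ ∀ x ∈ K', η ≤ δ x := by
      intro K'
      induction K' using Finset.induction_on with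
      | empty => exact fun _ => ⟨T, hT, le_rfl, fun x hx => by simp at hx⟩
      | insert a K' _ ih =>
        intro hK'
        obtain ⟨η, h3, h4, h5⟩ := ih fun x hx => hK' x (Finset.mem_insert_of_mem hx)
        refine ⟨min η (δ a), lt_min h3 (hδ a (hK' a (Finset.mem_insert_self _ _))),
          (min_le_left _ _).trans h4, fun x hx => ?_⟩
        rcases Finset.mem_insert.1 hx with rfl | hx
        · exact min_le_right _ _
        · exact (min_le_left _ _).trans (h5 x hx)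
    exact this K hK
  obtain ⟨η, hη, hηT, hη'⟩ := h2
  have hcomp : IsCompact (Icc 0 (T - η / 2) ×ˢ cube) := isCompact_Icc.prod cube_cpt
  obtain ⟨B1, hB1⟩ := hcomp.exists_bound_of_continuousOn (h.smooth_u.continuousOn.mono
    (prod_mono (fun s hs => ⟨hs.1, by have := hs.2; linarith⟩) (subset_univ _)))
  refine ⟨max B1 (∑ x ∈ K, |B x|), fun t ht x => ?_⟩
  obtain ⟨y, hy, e⟩ := W398.MD.FLOWX.per_cube (h.per_u t ht) x
  rw [e]
  by_cases htη : t ≤ T - η / 2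
  · exact (hB1 (t, y) ⟨⟨ht.1, htη⟩, hy⟩).trans (le_max_left _ _)
  · push Not at htη
    have h3 := hcov hy
    simp only [mem_iUnion, exists_prop] at h3
    obtain ⟨z, hz, hyz⟩ := h3
    have h4 := hB z (hK z hz) t ⟨by have := hη' z hz; linarith, ht.2⟩ y hyz
    refine (h4.trans (le_abs_self _)).trans (le_trans ?_ (le_max_right _ _))
    exact Finset.single_le_sum (f := fun x => |B x|) (fun _ _ => abs_nonneg _) hz

end Pool.Agent.Run7.h782
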