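import Mathlib

/-!
The recursion over the scales, with exceptional scales.
-/

set_option autoImplicit false

open MeasureTheory Set Metric Filter Topology

namespace Pool.Agent.Run7.h782

theorem stepn {e d a : ℝ → ℝ} {τ₀ T W κ c₁ P δ Y2 M₀ k : ℝ} (hW : 0 < W) (hκ : 0 < κ)
    (hc : 0 < c₁) (hk : κ * W / c₁ = k)
    (ce : ContinuousOn e (Ico τ₀ T)) (cd : ContinuousOn d (Ico τ₀ T))
    (ca : ContinuousOn a (Ico τ₀ T))
    (hd : ∀ t ∈ Ico τ₀ T, 0 ≤ d t) (ha : ∀ t ∈ Ico τ₀ T, 0 ≤ a t)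
    (haδ : ∀ s t, τ₀ ≤ s → s ≤ t → t < T → ∫ τ in s..t, a τ ≤ δ)
    (H1 : ∀ s t, τ₀ ≤ s → s ≤ t → t < T → t - s ≤ W →
      e t + κ * ∫ τ in s..t, d τ ≤ e s + P + ∫ τ in s..t, a τ * e τ)
    (H2 : ∀ t ∈ Ico τ₀ T, e t ≤ 3 / 8 * Y2 + c₁ * d t)
    (HM : ∀ t ∈ Ico τ₀ T, e t ≤ M₀) (hδ0 : 0 ≤ δ) (hP : 0 ≤ P) (hY2 : 0 ≤ Y2) (hM₀ : 0 ≤ M₀)
    (n : ℕ) :
    ∀ t, τ₀ + n * W ≤ t → t < T →
      e t ≤ 3 / 8 * Y2 + M₀ / (1 + k) ^ n + (1 + k) / k * (P + δ * M₀) := by
  have hk0 : 0 < k := by rw [← hk]; positivity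
  set G := P + δ * M₀ with hG
  have hG0 : 0 ≤ G := by positivity
  have hae : ∀ s t, τ₀ ≤ s → s ≤ t → t < T → ∫ τ in s..t, a τ * e τ ≤ δ * M₀ := by
    intro s t hs hst htT
    have hsub : Icc s t ⊆ Ico τ₀ T := fun τ hτ => ⟨hs.trans hτ.1, hτ.2.trans_lt htT⟩
    have i1 : IntervalIntegrable (fun τ => a τ * e τ) volume s t := by
      refine ContinuousOn.intervalIntegrable ?_
      rw [uIcc_of_le hst]
      exact (ca.mono hsub).mul (ce.mono hsub)
    have i2 : IntervalIntegrable (fun τ => a τ * M₀) volume s t := by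
      refine ContinuousOn.intervalIntegrable ?_
      rw [uIcc_of_le hst]
      exact (ca.mono hsub).mul continuousOn_const
    have h1 : ∫ τ in s..t, a τ * e τ ≤ ∫ τ in s..t, a τ * M₀ :=
      intervalIntegral.integral_mono_on hst i1 i2 fun τ hτ =>
        mul_le_mul_of_nonneg_left (HM τ (hsub hτ)) (ha τ (hsub hτ))
    refine h1.trans ?_
    rw [intervalIntegral.integral_mul_const]
    exact mul_le_mul_of_nonneg_right (haδ s t hs hst htT) hM₀
  -- one window
  have hone : ∀ t, τ₀ + W ≤ t → t < T →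
      (1 + k) * (e t - 3 / 8 * Y2) ≤ (e (t - W) - 3 / 8 * Y2) + (1 + k) * G := by
    intro t ht htT
    have hs0 : τ₀ ≤ t - W := by linarith
    have hst : t - W ≤ t := by linarith
    have hsub : Icc (t - W) t ⊆ Ico τ₀ T := fun τ hτ => ⟨hs0.trans hτ.1, hτ.2.trans_lt htT⟩
    have h1 := H1 (t - W) t hs0 hst htT (by linarith)
    have h2 := hae (t - W) t hs0 hst htT
    have h4 : κ * ∫ τ in (t - W)..t, d τ ≤ e (t - W) - e t + G := by
      rw [hG]
      linarith
    have hlow : ∀ s ∈ Icc (t - W) t, e t - G ≤ e s := by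
      intro s hs
      have b1 := H1 s t (hs0.trans hs.1) hs.2 htT (by linarith [hs.1])
      have b2 := hae s t (hs0.trans hs.1) hs.2 htT
      have b3 : 0 ≤ κ * ∫ τ in s..t, d τ :=
        mul_nonneg hκ.le (intervalIntegral.integral_nonneg hs.2 fun τ hτ =>
          hd τ (hsub ⟨hs.1.trans hτ.1, hτ.2⟩))
      rw [hG]
      linarith
    set B := e t - G - 3 / 8 * Y2 with hB
    have h5 : ∫ τ in (t - W)..t, B / c₁ ≤ ∫ τ in (t - W)..t, d τ := by
      refine intervalIntegral.integral_mono_on hst (by simp) ?_ fun τ hτ => ?_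
      · refine ContinuousOn.intervalIntegrable ?_
        rw [uIcc_of_le hst]
        exact cd.mono hsub
      · have b1 := hlow τ hτ
        have b2 := H2 τ (hsub hτ)
        rw [div_le_iff₀ hc]
        rw [hB]
        linarith
    rw [intervalIntegral.integral_const, smul_eq_mul] at h5
    have h6 : k * B ≤ e (t - W) - e t + G := by
      refine le_trans ?_ h4
      have : k * B = κ * ((t - (t - W)) * (B / c₁)) := by
        rw [← hk]
        ring
      rw [this]
      exact mul_le_mul_of_nonneg_left h5 hκ.le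
    rw [hB] at h6
    linarith
  induction n with
  | zero =>
    intro t ht htT
    have h1 := HM t ⟨by simpa using ht, htT⟩
    have h2 : 0 ≤ (1 + k) / k * G := by positivity
    simp only [pow_zero, div_one]
    linarith
  | succ n ih =>
    intro t ht htT
    push_cast at ht
    have hnW : 0 ≤ n * W := by positivity
    have h1 := hone t (by nlinarith) htT
    have h2 := ih (t - W) (by linarith) (by linarith)
    have h3 : (1 + k) * (e t - 3 / 8 * Y2) ≤ M₀ / (1 + k) ^ n + (1 + k) / k * G + (1 + k) * G := by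
      linarith
    have h4 : e t - 3 / 8 * Y2 ≤ (M₀ / (1 + k) ^ n + (1 + k) / k * G + (1 + k) * G) / (1 + k) := by
      rw [le_div_iff₀ (by positivity)]
      linarith
    have h5 : (M₀ / (1 + k) ^ n + (1 + k) / k * G + (1 + k) * G) / (1 + k)
        = M₀ / (1 + k) ^ (n + 1) + (1 + k) / k * G := by
      rw [pow_succ]
      field_simp
      ring
    linarith

/-- number of exceptional indices -/
noncomputable def cnt (G : Set ℕ) (i j : ℕ) : ℕ := (Set.Ioc i j \ G).ncard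

theorem cnt_succ_left (G : Set ℕ) {i j : ℕ} (hij : i < j) :
    cnt G i j = cnt G (i + 1) j + cnt G i (i + 1) := by
  unfold cnt
  have h : Set.Ioc i j \ G = (Set.Ioc (i + 1) j \ G) ∪ (Set.Ioc i (i + 1) \ G) := by
    ext x
    simp only [Set.mem_sdiff, mem_Ioc, mem_union]
    constructor
    · rintro ⟨⟨h1, h2⟩, h3⟩
      by_cases hx : i + 1 < x
      · exact Or.inl ⟨⟨hx, h2⟩, h3⟩
      · exact Or.inr ⟨⟨h1, by omega⟩, h3⟩
    · rintro (⟨⟨h1, h2⟩, h3⟩ | ⟨⟨h1, h2⟩, h3⟩)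
      · exact ⟨⟨by omega, h2⟩, h3⟩
      · exact ⟨⟨h1, by omega⟩, h3⟩
  rw [h]
  refine Set.ncard_union_eq ?_ ((Set.finite_Ioc _ _).subset sdiff_subset)
    ((Set.finite_Ioc _ _).subset sdiff_subset)
  rw [Set.disjoint_left]
  rintro x ⟨⟨h1, -⟩, -⟩ ⟨⟨-, h2⟩, -⟩
  omega

theorem cnt_add (G : Set ℕ) {i j l : ℕ} (hij : i ≤ j) (hjl : j ≤ l) :
    cnt G i l = cnt G i j + cnt G j l := by
  unfold cnt
  have h : Set.Ioc i l \ G = (Set.Ioc i j \ G) ∪ (Set.Ioc j l \ G) := by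
    rw [← union_sdiff_distrib, Set.Ioc_union_Ioc_eq_Ioc hij hjl]
  rw [h]
  refine Set.ncard_union_eq ?_ ((Set.finite_Ioc _ _).subset sdiff_subset)
    ((Set.finite_Ioc _ _).subset sdiff_subset)
  rw [Set.disjoint_left]
  rintro x ⟨⟨-, h1⟩, -⟩ ⟨⟨h2, -⟩, -⟩
  omega

theorem cnt_le (G : Set ℕ) (i j : ℕ) : cnt G i j ≤ j - i := by
  unfold cnt
  refine (Set.ncard_le_ncard sdiff_subset (Set.finite_Ioc i j)).trans (le_of_eq ?_)
  rw [← Finset.coe_Ioc, Set.ncard_coe_finset, Nat.card_Ioc]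

theorem cnt_one_mem {G : Set ℕ} {i : ℕ} (h : i + 1 ∈ G) : cnt G i (i + 1) = 0 := by
  unfold cnt
  rw [Set.ncard_eq_zero ((Set.finite_Ioc _ _).subset sdiff_subset)]
  ext x
  simp only [Set.mem_sdiff, mem_Ioc, mem_empty_iff_false, iff_false, not_and, not_not]
  rintro ⟨h1, h2⟩
  have : x = i + 1 := by omega
  rwa [this]

theorem cnt_one_notMem {G : Set ℕ} {i : ℕ} (h : i + 1 ∉ G) : cnt G i (i + 1) = 1 := by
  unfold cnt
  rw [Set.ncard_eq_one]
  refine ⟨i + 1, ?_⟩
  ext x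
  simp only [Set.mem_sdiff, mem_Ioc, mem_singleton_iff]
  constructor
  · rintro ⟨⟨h1, h2⟩, -⟩
    omega
  · rintro rfl
    exact ⟨⟨by omega, le_rfl⟩, h⟩

/-- The recursion with exceptional indices. -/
theorem rec_bad {y K : ℕ → ℝ} {G : Set ℕ} {Λ D : ℝ} {q j₁ j : ℕ} (hD : 0 ≤ D)
    (hq : Λ ≤ (10 / 9) ^ q) (hΛ : 0 ≤ Λ) (hy : ∀ m, 0 ≤ y m) (hK : ∀ m, 0 ≤ K m)
    (hKm : Monotone K)
    (hgood : ∀ m, j₁ ≤ m → m + 1 ∈ G → y (m + 1) ≤ 4 / 5 * y m + D * K (m + 1))
    (hbad : ∀ m, j₁ ≤ m → m + 1 ∉ G → y (m + 1) ≤ Λ * y m) (hj : j₁ ≤ j)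
    (hcnt : ∀ i, i < j → (q + 2) * cnt G i j ≤ j - i) :
    y j ≤ (9 / 10) ^ (j - j₁) * y j₁ + 10 * D * K j := by
  have claim : ∀ n, n ≤ j - j₁ → ∃ A : ℝ, 0 ≤ A ∧
      A ≤ (9 / 10) ^ (2 * n) * (10 / 9) ^ ((q + 2) * cnt G (j - n) j) ∧
      y j ≤ A * y (j - n) + D * K j * ∑ i ∈ Finset.range n, (9 / 10 : ℝ) ^ i := by
    intro n
    induction n with
    | zero =>
      intro _
      refine ⟨1, zero_le_one, ?_, by simp⟩
      have : cnt G (j - 0) j = 0 := by
        have := cnt_le G (j - 0) j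
        omega
      rw [this]
      simp
    | succ n ih =>
      intro hn
      obtain ⟨A, hA0, hA, hyA⟩ := ih (by omega)
      obtain ⟨m, hm⟩ : ∃ m, j - n = m + 1 := ⟨j - n - 1, by omega⟩
      have hm' : j - (n + 1) = m := by omega
      have hmj : j₁ ≤ m := by omega
      have hc1 : cnt G m j = cnt G (m + 1) j + cnt G m (m + 1) := cnt_succ_left G (by omega)
      rw [hm] at hA hyA
      rw [hm']
      have hAn : A ≤ (9 / 10) ^ n := by
        have h1 : (q + 2) * cnt G (m + 1) j ≤ n := by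
          rcases Nat.eq_zero_or_pos n with hn0 | hn0
          · have : cnt G (m + 1) j = 0 := by
              have := cnt_le G (m + 1) j
              omega
            rw [this]
            omega
          · have := hcnt (m + 1) (by omega)
            omega
        refine hA.trans ?_
        have h2 : (10 / 9 : ℝ) ^ ((q + 2) * cnt G (m + 1) j) ≤ (10 / 9) ^ n :=
          pow_le_pow_right₀ (by norm_num) h1
        calc (9 / 10 : ℝ) ^ (2 * n) * (10 / 9) ^ ((q + 2) * cnt G (m + 1) j)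
            ≤ (9 / 10) ^ (2 * n) * (10 / 9) ^ n := by gcongr
          _ = (9 / 10) ^ n := by
            rw [two_mul, pow_add, mul_assoc, ← mul_pow]
            norm_num
      have hKK : K (m + 1) ≤ K j := hKm (by omega)
      have hsum : D * K j * ∑ i ∈ Finset.range (n + 1), (9 / 10 : ℝ) ^ i
          = D * K j * (∑ i ∈ Finset.range n, (9 / 10 : ℝ) ^ i) + D * K j * (9 / 10) ^ n := by
        rw [Finset.sum_range_succ]
        ring
      by_cases hG : m + 1 ∈ G
      · refine ⟨A * (4 / 5), by positivity, ?_, ?_⟩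
        · rw [hc1, cnt_one_mem hG, add_zero]
          have e1 : (9 / 10 : ℝ) ^ (2 * (n + 1)) = (9 / 10) ^ (2 * n) * (81 / 100) := by
            rw [mul_add, pow_add]
            norm_num
          rw [e1]
          calc A * (4 / 5) ≤ ((9 / 10) ^ (2 * n) * (10 / 9) ^ ((q + 2) * cnt G (m + 1) j))
                * (81 / 100) := mul_le_mul hA (by norm_num) (by norm_num) (by positivity)
            _ = _ := by ring
        · have h1 := hgood m hmj hG
          rw [hsum]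
          have h2 : A * y (m + 1) ≤ A * (4 / 5 * y m + D * K (m + 1)) := by gcongr
          have h3 : A * (D * K (m + 1)) ≤ (9 / 10) ^ n * (D * K j) := by
            have := hK (m + 1)
            gcongr
          linarith
      · refine ⟨A * Λ, by positivity, ?_, ?_⟩
        · rw [hc1, cnt_one_notMem hG]
          have e1 : (9 / 10 : ℝ) ^ (2 * (n + 1)) * (10 / 9) ^ ((q + 2) * (cnt G (m + 1) j + 1))
              = ((9 / 10) ^ (2 * n) * (10 / 9) ^ ((q + 2) * cnt G (m + 1) j)) * (10 / 9) ^ q := by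
            have : (9 / 10 : ℝ) ^ 2 * (10 / 9) ^ 2 = 1 := by norm_num
            calc (9 / 10 : ℝ) ^ (2 * (n + 1)) * (10 / 9) ^ ((q + 2) * (cnt G (m + 1) j + 1))
                = ((9 / 10) ^ (2 * n) * (10 / 9) ^ ((q + 2) * cnt G (m + 1) j)) * (10 / 9) ^ q
                  * ((9 / 10 : ℝ) ^ 2 * (10 / 9) ^ 2) := by ring
              _ = _ := by rw [this, mul_one]
          rw [e1]
          gcongr
        · have h1 := hbad m hmj hG
          rw [hsum]
          have h2 : A * y (m + 1) ≤ A * (Λ * y m) := by gcongr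
          have h3 : 0 ≤ D * K j * (9 / 10) ^ n := by
            have := hK j
            positivity
          linarith
  obtain ⟨A, hA0, hA, hyA⟩ := claim (j - j₁) le_rfl
  have e : j - (j - j₁) = j₁ := by omega
  rw [e] at hA hyA
  have hAn : A ≤ (9 / 10) ^ (j - j₁) := by
    have h1 : (q + 2) * cnt G j₁ j ≤ j - j₁ := by
      rcases Nat.eq_zero_or_pos (j - j₁) with hn0 | hn0
      · have : cnt G j₁ j = 0 := by
          have := cnt_le G j₁ j
          omega
        rw [this]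
        omega
      · exact hcnt j₁ (by omega)
    refine hA.trans ?_
    have h2 : (10 / 9 : ℝ) ^ ((q + 2) * cnt G j₁ j) ≤ (10 / 9) ^ (j - j₁) :=
      pow_le_pow_right₀ (by norm_num) h1
    calc (9 / 10 : ℝ) ^ (2 * (j - j₁)) * (10 / 9) ^ ((q + 2) * cnt G j₁ j)
        ≤ (9 / 10) ^ (2 * (j - j₁)) * (10 / 9) ^ (j - j₁) := by gcongr
      _ = (9 / 10) ^ (j - j₁) := by
        rw [two_mul, pow_add, mul_assoc, ← mul_pow]
        norm_num
  have hgeom : ∑ i ∈ Finset.range (j - j₁), (9 / 10 : ℝ) ^ i ≤ 10 := by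
    have h1 := geom_sum_eq (by norm_num : (9 / 10 : ℝ) ≠ 1) (j - j₁)
    rw [h1]
    have h2 : 0 ≤ (9 / 10 : ℝ) ^ (j - j₁) := by positivity
    have : ((9 / 10 : ℝ) ^ (j - j₁) - 1) / (9 / 10 - 1) = 10 * (1 - (9 / 10) ^ (j - j₁)) := by ring
    rw [this]
    linarith
  have h1 := hy j₁
  have h2 := hK j
  calc y j ≤ A * y j₁ + D * K j * ∑ i ∈ Finset.range (j - j₁), (9 / 10 : ℝ) ^ i := hyA
    _ ≤ (9 / 10) ^ (j - j₁) * y j₁ + D * K j * 10 := by gcongr
    _ = _ := by ring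

/-- Pliss' lemma. -/
theorem pliss {G : Set ℕ} {Q : ℕ} (h : ∃ᶠ J in atTop, 2 * Q * cnt G 0 J ≤ J) :
    ∃ᶠ j in atTop, ∀ i, i < j → Q * cnt G i j ≤ j - i := by
  rw [Filter.frequently_atTop] at h ⊢
  intro a
  obtain ⟨J, hJ, hc⟩ := h (2 * a + 1)
  set S : ℕ → ℤ := fun n => (n : ℤ) - Q * cnt G 0 n with hS
  obtain ⟨j, hj, hmax⟩ := (Finset.range (J + 1)).exists_max_image S ⟨0, by simp⟩
  rw [Finset.mem_range] at hj
  have h1 : S J ≤ S j := hmax J (by simp)
  have h2 : (J : ℤ) ≤ 2 * S J := by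
    rw [hS]
    simp only
    have : (2 * Q * cnt G 0 J : ℤ) ≤ J := by exact_mod_cast hc
    linarith
  have h3 : S j ≤ j := by
    rw [hS]
    simp only
    have : (0 : ℤ) ≤ Q * cnt G 0 j := by positivity
    linarith
  refine ⟨j, by omega, fun i hi => ?_⟩
  have h4 : S i ≤ S j := hmax i (by rw [Finset.mem_range]; omega)
  have h5 := cnt_add G (Nat.zero_le i) hi.le
  rw [hS] at h4
  simp only at h4
  have h6 : (Q * cnt G i j : ℤ) ≤ (j : ℤ) - i := by
    have : (cnt G 0 j : ℤ) = cnt G 0 i + cnt G i j := by exact_mod_cast h5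
    rw [this] at h4
    linarith
  have h7 : ((Q * cnt G i j : ℕ) : ℤ) ≤ ((j - i : ℕ) : ℤ) := by
    rw [Nat.cast_sub hi.le]
    push_cast
    exact h6
  exact_mod_cast h7

end Pool.Agent.Run7.h782
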