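import Pool.Agent.Run7.h782.Low

/-!
Comparison of the averages at neighbouring scales.
-/

set_option autoImplicit false

open MeasureTheory Set Metric Filter Topology
open scoped ContDiff

namespace Pool.Agent.Run7.h782

open H459R3.NS W221.NS Pool.Agent.W369.MH

section

variable {v : Fin 3 → V → ℝ} (hv : ∀ i, SP (v i)) {φ χ : V → ℝ} (hφ : Ker φ) {c M ρ : ℝ}
  (hw : Wt χ c M) (hn : Near χ ρ)

include hv hw hn in
theorem AA_add (z₁ : V) {z₂ : V} (hz : ‖z₂‖ ≤ ρ) :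
    AA χ v (z₁ + z₂) ≤ 4 * (AA χ v z₁ + AA χ v z₂) := by
  rw [AA_eq hv hw, AA_eq hv hw, AA_eq hv hw, ← Finset.sum_add_distrib, Finset.mul_sum]
  refine Finset.sum_le_sum fun i _ => ?_
  have s1 : SP (dl z₁ (v i)) := SP.dl (hv i) z₁
  have s2 : SP (dl z₂ (v i)) := SP.dl (hv i) z₂
  have s3 : SP (dl (z₁ + z₂) (v i)) := SP.dl (hv i) _
  have s4 : SP (sh z₂ (dl z₁ (v i))) := SP.sh s1 z₂
  have h1 : ∫ x in cube, χ x * dl (z₁ + z₂) (v i) x ^ 2
      ≤ ∫ x in cube, (2 * (χ x * sh z₂ (dl z₁ (v i)) x ^ 2) + 2 * (χ x * dl z₂ (v i) x ^ 2)) := by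
    refine integral_mono (hw.sp.mul (SP.sq s3)).int
      ((SP.cmul (hw.sp.mul (SP.sq s4)) 2).int.add (SP.cmul (hw.sp.mul (SP.sq s2)) 2).int)
      fun x => ?_
    simp only
    have e : dl (z₁ + z₂) (v i) x = sh z₂ (dl z₁ (v i)) x + dl z₂ (v i) x := by
      unfold dl sh
      rw [show x + (z₁ + z₂) = x + z₂ + z₁ by abel]
      ring
    rw [e]
    have h0 := (hw.pos x).le
    have : 0 ≤ χ x * (sh z₂ (dl z₁ (v i)) x - dl z₂ (v i) x) ^ 2 := by positivity
    nlinarith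
  rw [integral_add (SP.cmul (hw.sp.mul (SP.sq s4)) 2).int (SP.cmul (hw.sp.mul (SP.sq s2)) 2).int,
    integral_const_mul, integral_const_mul] at h1
  have h2 : ∫ x in cube, χ x * sh z₂ (dl z₁ (v i)) x ^ 2
      ≤ 2 * ∫ x in cube, χ x * dl z₁ (v i) x ^ 2 := by
    have a2 : ∫ x in cube, χ x * sh z₂ (dl z₁ (v i)) x ^ 2
        = ∫ x in cube, χ (x - z₂) * dl z₁ (v i) x ^ 2 := by
      have s5 : SP (fun x => χ x * sh z₂ (dl z₁ (v i)) x ^ 2) := hw.sp.mul (SP.sq s4)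
      rw [← int_shift s5.per (-z₂)]
      congr 1
      funext x
      unfold sh
      simp [sub_eq_add_neg]
    rw [a2, ← integral_const_mul]
    have s6 : SP (fun x => χ (x - z₂)) := by
      have := SP.sh hw.sp (-z₂)
      have e : sh (-z₂) χ = fun x => χ (x - z₂) := by
        funext x
        unfold sh
        rw [sub_eq_add_neg]
      rwa [e] at this
    refine integral_mono (s6.mul (SP.sq s1)).int (SP.cmul (hw.sp.mul (SP.sq s1)) 2).int fun x => ?_
    simp only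
    have b1 : χ (x - z₂) ≤ 2 * χ x := by
      have := hn x (-z₂) (by rwa [norm_neg])
      rwa [← sub_eq_add_neg] at this
    calc χ (x - z₂) * dl z₁ (v i) x ^ 2 ≤ 2 * χ x * dl z₁ (v i) x ^ 2 :=
          mul_le_mul_of_nonneg_right b1 (sq_nonneg _)
      _ = _ := by ring
  have h3 : 0 ≤ ∫ x in cube, χ x * dl z₂ (v i) x ^ 2 :=
    integral_nonneg fun x => mul_nonneg (hw.pos x).le (sq_nonneg _)
  linarith

include hv hw hn in
theorem AA_double {z : V} (hz : ‖z‖ ≤ ρ) : AA χ v (z + z) ≤ 8 * AA χ v z := by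
  have := AA_add hv hw hn z hz
  linarith

include hv hw hn in
theorem AA_pow (n : ℕ) {z : V} (hz : ‖z‖ ≤ ρ) : AA χ v z ≤ 8 ^ n * AA χ v ((1 / 2 ^ n : ℝ) • z) := by
  induction n with
  | zero => simp
  | succ n ih =>
    refine ih.trans ?_
    have hρ : 0 ≤ ρ := (norm_nonneg _).trans hz
    have h1 : ‖(1 / 2 ^ (n + 1) : ℝ) • z‖ ≤ ρ := by
      rw [norm_smul, Real.norm_eq_abs, abs_of_pos (by positivity)]
      have : (1 / 2 ^ (n + 1) : ℝ) ≤ 1 := by
        rw [div_le_one (by positivity)]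
        exact one_le_pow₀ (by norm_num)
      calc (1 / 2 ^ (n + 1) : ℝ) * ‖z‖ ≤ 1 * ‖z‖ := by gcongr
        _ ≤ ρ := by rwa [one_mul]
    have h2 := AA_double hv hw hn h1
    have h3 : (1 / 2 ^ (n + 1) : ℝ) • z + (1 / 2 ^ (n + 1) : ℝ) • z = (1 / 2 ^ n : ℝ) • z := by
      rw [← add_smul]
      congr 1
      rw [pow_succ]
      field_simp
      norm_num
    rw [h3] at h2
    calc 8 ^ n * AA χ v ((1 / 2 ^ n : ℝ) • z)
        ≤ 8 ^ n * (8 * AA χ v ((1 / 2 ^ (n + 1) : ℝ) • z)) := by gcongr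
      _ = _ := by ring

include hv hφ hw hn in
theorem er_two {R : ℝ} (hR' : ∀ y, R < ‖y‖ → φ y = 0) {r : ℝ} (hr : 0 < r)
    (hrR : r * R ≤ ρ) : er φ χ (2 * r) v ≤ 8 * er φ χ r v := by
  have c1 := cA hv hw.sp
  have i1 : Integrable (fun y => φ y * AA χ v (r • y)) := hφ.int_mul (by fun_prop)
  have i2 : Integrable (fun y => φ y * AA χ v ((2 * r) • y)) := hφ.int_mul (by fun_prop)
  unfold er
  rw [← integral_const_mul]
  refine integral_mono i2 (i1.const_mul _) fun y => ?_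
  simp only
  by_cases hy : R < ‖y‖
  · rw [hR' y hy]
    simp
  · push Not at hy
    have h1 : ‖r • y‖ ≤ r * R := by
      rw [norm_smul, Real.norm_eq_abs, abs_of_pos hr]
      gcongr
    have h2 := AA_double hv hw hn (h1.trans hrR)
    have h3 : r • y + r • y = (2 * r) • y := by
      rw [← add_smul]
      ring_nf
    rw [h3] at h2
    have h7 := mul_le_mul_of_nonneg_left h2 (hφ.nonneg y)
    linarith

include hv hφ hw hn in
theorem er_pow {R : ℝ} (hR : 0 < R) (hR' : ∀ y, R < ‖y‖ → φ y = 0) (n : ℕ) {r : ℝ} (hr : 0 < r)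
    (hrR : 2 ^ n * r * R ≤ ρ) : er φ χ (2 ^ n * r) v ≤ 8 ^ n * er φ χ r v := by
  induction n with
  | zero => simp
  | succ n ih =>
    have h0 : 0 < 2 ^ n * r := by positivity
    have h1 : 2 ^ n * r * R ≤ ρ := by
      refine le_trans ?_ hrR
      rw [pow_succ]
      nlinarith [mul_pos h0 hR]
    have h2 := er_two hv hφ hw hn hR' h0 h1
    have e : (2 : ℝ) ^ (n + 1) * r = 2 * (2 ^ n * r) := by ring
    rw [e]
    refine h2.trans ?_
    calc 8 * er φ χ (2 ^ n * r) v ≤ 8 * (8 ^ n * er φ χ r v) :=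
          mul_le_mul_of_nonneg_left (ih h1) (by norm_num)
      _ = _ := by ring

end

/-- The average at one scale is bounded by that at the double scale. -/
theorem er_half {φ : V → ℝ} (hφ : Ker φ) : ∃ Cφ R' : ℝ, 1 ≤ Cφ ∧ 0 < R' ∧
    ∀ (v : Fin 3 → V → ℝ) (χ : V → ℝ) (c M ρ : ℝ), (∀ i, SP (v i)) → Wt χ c M → Near χ ρ →
      ∀ r : ℝ, 0 < r → r * R' ≤ ρ → er φ χ r v ≤ Cφ * er φ χ (2 * r) v := by
  obtain ⟨R, hR, hR'⟩ := hφ.rad
  have hca : ContinuousAt φ 0 := hφ.cont.continuousAt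
  obtain ⟨δ', hδ', hδ''⟩ := Metric.continuousAt_iff.1 hca (φ 0 / 2) (half_pos hφ.pos)
  set δ := δ' / 2 with hδd
  have hδ : 0 < δ := by positivity
  have hφ0 := hφ.pos
  have hphi : ∀ y : V, ‖y‖ ≤ δ → φ 0 / 2 ≤ φ y := by
    intro y hy
    have h1 : dist y 0 < δ' := by
      rw [dist_zero_right]
      linarith
    have h2 := hδ'' h1
    rw [Real.dist_eq, abs_lt] at h2
    linarith [h2.1]
  obtain ⟨n, hn⟩ : ∃ n : ℕ, R / 2 ^ n ≤ δ := by
    obtain ⟨n, hn⟩ := exists_pow_lt_of_lt_one (x := δ / R) (by positivity)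
      (by norm_num : (1 / 2 : ℝ) < 1)
    refine ⟨n, ?_⟩
    rw [lt_div_iff₀ hR, one_div, inv_pow] at hn
    rw [div_eq_inv_mul]
    exact hn.le
  set vol := (volume : Measure V).real (closedBall (0 : V) δ) with hvol
  have hvol0 : 0 < vol := by
    rw [hvol, measureReal_def]
    refine ENNReal.toReal_pos ?_ ?_
    · exact (measure_closedBall_pos _ _ hδ).ne'
    · exact (isCompact_closedBall (0 : V) δ).measure_lt_top.ne
  have hm := hφ.mass_pos
  set m := ∫ y, φ y with hmd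
  refine ⟨m * (8 ^ n * (128 / (φ 0 * vol))) + 1, R + δ, ?_, by positivity,
    fun v χ c M ρ hv hw hnr r hr hrR => ?_⟩
  · have : 0 ≤ m * (8 ^ n * (128 / (φ 0 * vol))) := by positivity
    linarith
  have c1 := cA hv hw.sp
  have he0 := er_nonneg hv hφ hw (2 * r)
  have hρ1 : r * R ≤ ρ := by nlinarith [mul_pos hr hδ]
  have hρ2 : r * δ ≤ ρ := by nlinarith [mul_pos hr hR]
  have cφ := hφ.cont
  -- the scaled integral
  have hsc0 : ∫ z, φ ((1 / 2 : ℝ) • z) * AA χ v ((2 * r) • ((1 / 2 : ℝ) • z))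
      = 8 * er φ χ (2 * r) v := by
    rw [Measure.integral_comp_smul (volume : Measure V)
      (fun y => φ y * AA χ v ((2 * r) • y)) (1 / 2 : ℝ)]
    unfold er
    rw [smul_eq_mul]
    congr 1
    simp only [Module.finrank_fintype_fun_eq_card, Fintype.card_fin]
    norm_num
  have hsc : ∀ w₀ : V, ∫ z, φ ((1 / 2 : ℝ) • (w₀ - z)) * AA χ v ((2 * r) • ((1 / 2 : ℝ) • (w₀ - z)))
      = 8 * er φ χ (2 * r) v := by
    intro w₀
    rw [integral_sub_left_eq_self (fun z => φ ((1 / 2 : ℝ) • z) * AA χ v ((2 * r) •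
      ((1 / 2 : ℝ) • z))) volume w₀]
    exact hsc0
  have hi0 : Integrable (fun z : V => φ ((1 / 2 : ℝ) • z) * AA χ v ((2 * r) •
      ((1 / 2 : ℝ) • z))) := by
    have h1 : Integrable (fun y => φ y * AA χ v ((2 * r) • y)) := hφ.int_mul (by fun_prop)
    exact h1.comp_smul (by norm_num : (1 / 2 : ℝ) ≠ 0)
  have hii : ∀ w₀ : V, Integrable (fun z => φ ((1 / 2 : ℝ) • (w₀ - z)) *
      AA χ v ((2 * r) • ((1 / 2 : ℝ) • (w₀ - z)))) := fun w₀ => hi0.comp_sub_left w₀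
  have key : ∀ z₀ : V, ‖z₀‖ ≤ δ → AA χ v (r • z₀) ≤ 128 / (φ 0 * vol) * er φ χ (2 * r) v := by
    intro z₀ hz₀
    have hg0 : ∀ z : V, 0 ≤ (8 / φ 0) *
          (φ ((1 / 2 : ℝ) • (z₀ - z)) * AA χ v ((2 * r) • ((1 / 2 : ℝ) • (z₀ - z)))
          + φ ((1 / 2 : ℝ) • z) * AA χ v ((2 * r) • ((1 / 2 : ℝ) • z))) := by
      intro z
      have a1 := hφ.nonneg ((1 / 2 : ℝ) • (z₀ - z))
      have a2 := hφ.nonneg ((1 / 2 : ℝ) • z)
      have a3 := AA_nonneg hv hw ((2 * r) • ((1 / 2 : ℝ) • (z₀ - z)))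
      have a4 := AA_nonneg hv hw ((2 * r) • ((1 / 2 : ℝ) • z))
      positivity
    have h1 : ∫ z in closedBall (0 : V) δ, AA χ v (r • z₀)
        ≤ ∫ z in closedBall (0 : V) δ, (8 / φ 0) *
          (φ ((1 / 2 : ℝ) • (z₀ - z)) * AA χ v ((2 * r) • ((1 / 2 : ℝ) • (z₀ - z)))
          + φ ((1 / 2 : ℝ) • z) * AA χ v ((2 * r) • ((1 / 2 : ℝ) • z))) := by
      refine setIntegral_mono_on ?_ ?_ measurableSet_closedBall fun z hz => ?_
      · exact integrableOn_const (isCompact_closedBall (0 : V) δ).measure_lt_top.ne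
      · exact (((hii z₀).add hi0).const_mul _).integrableOn
      · rw [mem_closedBall_zero_iff] at hz
        have e1 : (2 * r) • ((1 / 2 : ℝ) • (z₀ - z)) = r • (z₀ - z) := by
          rw [smul_smul]
          congr 1
          ring
        have e2 : (2 * r) • ((1 / 2 : ℝ) • z) = r • z := by
          rw [smul_smul]
          congr 1
          ring
        rw [e1, e2]
        have b1 : ‖(1 / 2 : ℝ) • (z₀ - z)‖ ≤ δ := by
          rw [norm_smul, Real.norm_eq_abs, abs_of_pos (by norm_num)]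
          have := norm_sub_le z₀ z
          linarith
        have b2 : ‖(1 / 2 : ℝ) • z‖ ≤ δ := by
          rw [norm_smul, Real.norm_eq_abs, abs_of_pos (by norm_num)]
          linarith [norm_nonneg z]
        have b3 := hphi _ b1
        have b4 := hphi _ b2
        have b5 := AA_nonneg hv hw (r • (z₀ - z))
        have b6 := AA_nonneg hv hw (r • z)
        have b7 : AA χ v (r • z₀) ≤ 4 * (AA χ v (r • (z₀ - z)) + AA χ v (r • z)) := by
          have := AA_add hv hw hnr (r • (z₀ - z)) (z₂ := r • z) (by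
            rw [norm_smul, Real.norm_eq_abs, abs_of_pos hr]
            exact (mul_le_mul_of_nonneg_left hz hr.le).trans hρ2)
          rwa [← smul_add, sub_add_cancel] at this
        refine b7.trans ?_
        have b8 : 4 * AA χ v (r • (z₀ - z)) ≤ 8 / φ 0 *
            (φ ((1 / 2 : ℝ) • (z₀ - z)) * AA χ v (r • (z₀ - z))) := by
          have : 8 / φ 0 * (φ 0 / 2 * AA χ v (r • (z₀ - z))) = 4 * AA χ v (r • (z₀ - z)) := by
            field_simp
            ring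
          rw [← this]
          gcongr
        have b9 : 4 * AA χ v (r • z) ≤ 8 / φ 0 *
            (φ ((1 / 2 : ℝ) • z) * AA χ v (r • z)) := by
          have : 8 / φ 0 * (φ 0 / 2 * AA χ v (r • z)) = 4 * AA χ v (r • z) := by
            field_simp
            ring
          rw [← this]
          gcongr
        linarith
    have h2 : ∫ z in closedBall (0 : V) δ, (8 / φ 0) *
          (φ ((1 / 2 : ℝ) • (z₀ - z)) * AA χ v ((2 * r) • ((1 / 2 : ℝ) • (z₀ - z)))
          + φ ((1 / 2 : ℝ) • z) * AA χ v ((2 * r) • ((1 / 2 : ℝ) • z)))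
        ≤ ∫ z, (8 / φ 0) *
          (φ ((1 / 2 : ℝ) • (z₀ - z)) * AA χ v ((2 * r) • ((1 / 2 : ℝ) • (z₀ - z)))
          + φ ((1 / 2 : ℝ) • z) * AA χ v ((2 * r) • ((1 / 2 : ℝ) • z))) :=
      setIntegral_le_integral (((hii z₀).add hi0).const_mul _) (Filter.Eventually.of_forall hg0)
    have h2' : ∫ z, (8 / φ 0) *
          (φ ((1 / 2 : ℝ) • (z₀ - z)) * AA χ v ((2 * r) • ((1 / 2 : ℝ) • (z₀ - z)))
          + φ ((1 / 2 : ℝ) • z) * AA χ v ((2 * r) • ((1 / 2 : ℝ) • z)))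
        = 8 / φ 0 * (8 * er φ χ (2 * r) v + 8 * er φ χ (2 * r) v) := by
      rw [integral_const_mul, integral_add (hii z₀) hi0, hsc, hsc0]
    rw [h2'] at h2
    rw [setIntegral_const, smul_eq_mul, ← hvol] at h1
    have h3 := h1.trans h2
    rw [div_mul_eq_mul_div, le_div_iff₀ (by positivity)]
    have h4 : 8 / φ 0 * (8 * er φ χ (2 * r) v + 8 * er φ χ (2 * r) v) * φ 0
        = 128 * er φ χ (2 * r) v := by
      field_simp
      ring
    calc AA χ v (r • z₀) * (φ 0 * vol) = (vol * AA χ v (r • z₀)) * φ 0 := by ring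
      _ ≤ 8 / φ 0 * (8 * er φ χ (2 * r) v + 8 * er φ χ (2 * r) v) * φ 0 := by gcongr
      _ = _ := h4
  have key2 : ∀ y : V, ‖y‖ ≤ R → AA χ v (r • y)
      ≤ 8 ^ n * (128 / (φ 0 * vol)) * er φ χ (2 * r) v := by
    intro y hy
    have h1 : ‖r • y‖ ≤ ρ := by
      rw [norm_smul, Real.norm_eq_abs, abs_of_pos hr]
      exact (mul_le_mul_of_nonneg_left hy hr.le).trans hρ1
    have h2 := AA_pow hv hw hnr n h1
    have h3 : (1 / 2 ^ n : ℝ) • r • y = r • ((1 / 2 ^ n : ℝ) • y) := smul_comm _ _ _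
    rw [h3] at h2
    have h4 := key ((1 / 2 ^ n : ℝ) • y) (by
      rw [norm_smul, Real.norm_eq_abs, abs_of_pos (by positivity)]
      refine le_trans ?_ hn
      rw [one_div, inv_mul_eq_div]
      gcongr)
    calc AA χ v (r • y) ≤ 8 ^ n * AA χ v (r • ((1 / 2 ^ n : ℝ) • y)) := h2
      _ ≤ 8 ^ n * (128 / (φ 0 * vol) * er φ χ (2 * r) v) := by gcongr
      _ = _ := by ring
  have i1 : Integrable (fun y => φ y * AA χ v (r • y)) := hφ.int_mul (by fun_prop)
  have i2 : Integrable φ := hφ.cont.integrable_of_hasCompactSupport hφ.cs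
  have h1 : er φ χ r v ≤ ∫ y, (8 ^ n * (128 / (φ 0 * vol)) * er φ χ (2 * r) v) * φ y := by
    unfold er
    refine integral_mono i1 (i2.const_mul _) fun y => ?_
    simp only
    by_cases hy : R < ‖y‖
    · rw [hR' y hy]
      simp
    · push Not at hy
      have := mul_le_mul_of_nonneg_left (key2 y hy) (hφ.nonneg y)
      unfold er at this
      linarith
  rw [integral_const_mul] at h1
  refine h1.trans ?_
  rw [← hmd]
  nlinarith

/-- The gradient is bounded by averages of increments at the same scale. -/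
theorem low' {φ : V → ℝ} (hφ : Ker φ) : ∃ Λ R' : ℝ, 0 ≤ Λ ∧ 0 < R' ∧
    ∀ (v : Fin 3 → V → ℝ) (χ : V → ℝ) (c M ρ : ℝ), (∀ i, SP (v i)) → Wt χ c M → Near χ ρ →
      ∀ r : ℝ, 0 < r → r * R' ≤ ρ →
      (∫ y, φ y) ^ 2 * EN χ v ≤ 2 * (∫ y, φ y) * dr φ χ r v + Λ / r ^ 2 * er φ χ r v := by
  obtain ⟨R, hR, hR'⟩ := hφ.rad
  obtain ⟨L, hL, hlow'⟩ := low hφ
  obtain ⟨n, hn⟩ : ∃ n : ℕ, L ≤ 2 ^ n := by
    obtain ⟨n, hn⟩ := pow_unbounded_of_one_lt L (by norm_num : (1 : ℝ) < 2)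
    exact ⟨n, hn.le⟩
  obtain ⟨Λ, hΛ, hlow⟩ := hlow' (2 ^ n) hn
  refine ⟨Λ * 8 ^ n, 2 ^ n * R, by positivity, by positivity,
    fun v χ c M ρ hv hw hnr r hr hrR => ?_⟩
  refine (hlow v χ c M hv hw r hr).trans ?_
  have h1 := er_pow hv hφ hw hnr hR hR' n hr (by
    calc 2 ^ n * r * R = r * (2 ^ n * R) := by ring
      _ ≤ ρ := hrR)
  have h2 : 0 ≤ Λ / r ^ 2 := by positivity
  have h3 := mul_le_mul_of_nonneg_left h1 h2
  have h4 : Λ / r ^ 2 * (8 ^ n * er φ χ r v) = Λ * 8 ^ n / r ^ 2 * er φ χ r v := by ring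
  linarith

end Pool.Agent.Run7.h782
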