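import Pool.Agent.Run7.h782.Dyn
import Pool.Agent.Run7.h782.Sub
import Pool.Agent.Run7.h782.Rec2
import Pool.Agent.Run7.h782.Fin

/-!
The energy cascade before a singularity.
-/

set_option autoImplicit false

open MeasureTheory Set Metric Filter Topology
open scoped ContDiff ENNReal

namespace Pool.Agent.Run7.h782

open H459R3.NS W221.NS Pool.Agent.W369.MH

theorem chain {g : ℝ → ℝ} {a T W X : ℝ} (hg : ContinuousOn g (Ico a T)) (hX : 0 ≤ X)
    (h : ∀ s t, a ≤ s → s ≤ t → t < T → t - s ≤ W → ∫ τ in s..t, g τ ≤ X) (n : ℕ) :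
    ∀ s t, a ≤ s → s ≤ t → t < T → t - s ≤ n * W → ∫ τ in s..t, g τ ≤ n * X := by
  induction n with
  | zero =>
    intro s t hs hst htT hW
    have : s = t := by
      rw [Nat.cast_zero, zero_mul] at hW
      linarith
    rw [this]
    simp
  | succ n ih =>
    intro s t hs hst htT hW
    push_cast at hW ⊢
    by_cases hc : t - W ≤ s
    · have h1 := h s t hs hst htT (by linarith)
      have : 0 ≤ n * X := by positivity
      linarith
    · push Not at hc
      by_cases hW0 : 0 ≤ W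
      · have h1 := ih s (t - W) hs hc.le (by linarith) (by linarith)
        have h2 := h (t - W) t (by linarith) (by linarith) htT (by linarith)
        have ii : ∀ x y, a ≤ x → x ≤ y → y < T → IntervalIntegrable g volume x y := by
          intro x y hx hxy hy
          refine ContinuousOn.intervalIntegrable ?_
          rw [uIcc_of_le hxy]
          exact hg.mono fun τ hτ => ⟨hx.trans hτ.1, hτ.2.trans_lt hy⟩
        rw [← intervalIntegral.integral_add_adjacent_intervals
          (ii s (t - W) hs hc.le (by linarith)) (ii (t - W) t (by linarith) (by linarith) htT)]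
        linarith
      · push Not at hW0
        have : ((n : ℝ) + 1) * W < 0 := mul_neg_of_pos_of_neg (by positivity) hW0
        linarith

theorem cascade {φ : V → ℝ} (hφ : Ker φ) {θ : ℝ} (hθ : θ < 1) :
    ∃ (A C : ℝ) (Q : ℕ), 0 < A ∧ 0 < C ∧ 2 ≤ Q ∧
    ∀ (ν T F r₀ : ℝ) (u : ℝ → V → V) (p : ℝ → V → ℝ) (f : ℝ → V → V) (χ : V → ℝ) (K : ℕ → ℝ)
      (G : Set ℕ), 0 < ν → 0 < T → 0 < r₀ → IsSolF ν T F u p f → SP χ → (∀ x, 0 < χ x) →
      (∀ j, 0 < K j) → Monotone K →
      (∀ j ∈ G, ∀ s t, 0 ≤ s → T - A * (r₀ / 2 ^ j) ^ 2 / ν ≤ s → s ≤ t → t < T →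
        t - s ≤ (r₀ / 2 ^ j) ^ 2 / ν →
        ∫ τ in s..t, fx φ χ (r₀ / 2 ^ j) (U u τ)
          ≤ 2 * ν * θ * (∫ τ in s..t, dr φ χ (r₀ / 2 ^ j) (U u τ))
            + ν ^ 2 * (r₀ / 2 ^ j * K j)) →
      ∃ j₀ : ℕ, ∀ j, j₀ ≤ j → (∀ i, i < j → Q * cnt G i j ≤ j - i) → ∀ S : Finset V,
        (∀ x ∈ S, x ∈ cube ∧ Sing T u x) →
        (∀ x ∈ S, ∀ y ∈ S, x ≠ y → r₀ / 2 ^ j ≤ ‖x - y‖) → ∑ x ∈ S, χ x ≤ C * K j := by
  classical
  obtain ⟨C₂, hC₂, hcount⟩ := wcount
  obtain ⟨R, hR, hR'⟩ := hφ.rad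
  obtain ⟨Λ, R2, hΛ, hR2, hlow⟩ := low' hφ
  obtain ⟨Cφ, R1, hCφ, hR1, hhalf⟩ := er_half hφ
  have hm := hφ.mass_pos
  set m := ∫ y, φ y with hmd
  have hθ' : 0 < 1 - θ := by linarith
  set k := 2 * (1 - θ) / (9 * R ^ 2) with hk
  have hk0 : 0 < k := by positivity
  have hCφ0 : 0 < Cφ := by linarith
  obtain ⟨n, hn⟩ : ∃ n : ℕ, Cφ / (1 + k) ^ n ≤ 1 / 80 := by
    obtain ⟨n, hn⟩ := exists_pow_lt_of_lt_one (x := 1 / (80 * Cφ)) (y := 1 / (1 + k))
      (by positivity) (by rw [div_lt_one (by positivity)]; linarith)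
    refine ⟨n, ?_⟩
    rw [one_div_pow] at hn
    have h1 : Cφ * (1 / (1 + k) ^ n) ≤ Cφ * (1 / (80 * Cφ)) := by gcongr
    have h2 : Cφ * (1 / (80 * Cφ)) = 1 / 80 := by field_simp
    rw [h2] at h1
    calc Cφ / (1 + k) ^ n = Cφ * (1 / (1 + k) ^ n) := by ring
      _ ≤ _ := h1
  obtain ⟨q, hq⟩ := pow_unbounded_of_one_lt (2 * Cφ) (by norm_num : (1 : ℝ) < 10 / 9)
  set A' : ℝ := 32 + n with hA'
  have hA'0 : 0 < A' := by positivity
  set δ := k / (80 * (1 + k) * Cφ) with hδ
  have hδ0 : 0 < δ := by positivity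
  have hδ1 : δ ≤ 1 := by
    rw [hδ, div_le_one (by positivity)]
    nlinarith
  set D := 2 * ((1 + k) / k) with hD
  have hD0 : 0 < D := by positivity
  refine ⟨4 * A', 32 * C₂ * (4 * m / (1 - θ) + Λ) / m ^ 2 * (2 + 10 * D), q + 2, by positivity,
    by positivity, by omega,
    fun ν T F r₀ u p f χ K G hν hT hr₀ h hχ hχ0 hK hKm hflux => ?_⟩
  obtain ⟨r₄, hr₄, hcnt4⟩ := hcount ν T F u p f χ hν hT h hχ hχ0
  obtain ⟨c, M, hw⟩ := exists_wt hχ hχ0
  obtain ⟨ρ, hρ, hnr⟩ := near hw
  have hF := F_nonneg hT h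
  set κ := ν * (1 - θ) with hκ
  have hκ0 : 0 < κ := by positivity
  obtain ⟨C, hC0, hbal⟩ := bal_av hν hw hκ0
  obtain ⟨t₂, ht₂, ht₂T, htail⟩ := tail hν hT h hC0 hδ0 le_rfl hT
  set b := C * F ^ 2 * m with hb
  have hb0 : 0 ≤ b := by positivity
  -- bound on the energy
  set E' := Real.exp T * (energy (u 0) + 3 * F ^ 2) with hE'
  have hE'0 : 0 ≤ E' := by
    have := H459R3.NS.energy_nonneg (u 0)
    positivity
  have hM := hw.M0
  set Y₀ := 4 * M * E' * m with hY₀
  have hY₀0 : 0 ≤ Y₀ := by positivity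
  have hY : ∀ r t, t ∈ Ico 0 T → er φ χ r (U u t) ≤ Y₀ := by
    intro r t hI
    refine (er_le (fun i => sp_U h hI i) hφ hw r).trans ?_
    have h1 : ∑ i, ∫ x in cube, U u t i x ^ 2 = energy (u t) := rfl
    rw [h1]
    have h2 := energy_bd hν hF h hI
    rw [hY₀]
    gcongr
  -- the scales
  set r : ℕ → ℝ := fun j => r₀ / 2 ^ j with hr
  have hr0 : ∀ j, 0 < r j := fun j => by positivity
  have hr1 : ∀ j, r j = 2 * r (j + 1) := fun j => by
    simp only [hr]
    rw [pow_succ]
    field_simp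
  have hrt : Tendsto r atTop (𝓝 0) := by
    have h1 := (tendsto_pow_atTop_nhds_zero_of_lt_one (r := (1 / 2 : ℝ)) (by norm_num)
      (by norm_num)).const_mul r₀
    rw [mul_zero] at h1
    refine h1.congr fun j => ?_
    simp only [hr]
    rw [one_div_pow]
    ring
  have hranti : ∀ i j, i ≤ j → r j ≤ r i := by
    intro i j hij
    simp only [hr]
    gcongr
    norm_num
  set Rm := max R (max R1 R2) with hRm
  have hRm0 : 0 < Rm := lt_max_of_lt_left hR
  obtain ⟨j₁, hj₁⟩ : ∃ j₁ : ℕ, r j₁ * Rm ≤ ρ ∧ A' * (r j₁ ^ 2 / ν) ≤ T - t₂ ∧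
      b / ν * r j₁ ≤ ν ^ 2 * K 0 ∧ r j₁ < r₄ := by
    have e1 : ∀ᶠ j in atTop, r j < ρ / Rm := hrt.eventually (gt_mem_nhds (by positivity))
    have e2 : Tendsto (fun j => A' * (r j ^ 2 / ν)) atTop (𝓝 0) := by
      have := ((hrt.pow 2).div_const ν).const_mul A'
      simpa using this
    have e3 : Tendsto (fun j => b / ν * r j) atTop (𝓝 0) := by
      have := hrt.const_mul (b / ν)
      simpa using this
    have e2' : ∀ᶠ j in atTop, A' * (r j ^ 2 / ν) < T - t₂ :=
      e2.eventually (gt_mem_nhds (by linarith))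
    have e3' : ∀ᶠ j in atTop, b / ν * r j < ν ^ 2 * K 0 :=
      e3.eventually (gt_mem_nhds (by have := hK 0; positivity))
    have e4 : ∀ᶠ j in atTop, r j < r₄ := hrt.eventually (gt_mem_nhds hr₄)
    obtain ⟨j, a1, a2, a3, a4⟩ := (e1.and (e2'.and (e3'.and e4))).exists
    refine ⟨j, ?_, a2.le, a3.le, a4⟩
    rw [lt_div_iff₀ hRm0] at a1
    exact a1.le
  obtain ⟨hj1a, hj1b, hj1c, hj1d⟩ := hj₁
  have hsm : ∀ j, j₁ ≤ j → r j * Rm ≤ ρ ∧ A' * (r j ^ 2 / ν) ≤ T - t₂ ∧
      b * r j ^ 2 / ν ≤ ν ^ 2 * (r j * K j) ∧ r j < r₄ := by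
    intro j hj
    have h1 := hranti j₁ j hj
    have h2 := hr0 j
    refine ⟨?_, ?_, ?_, h1.trans_lt hj1d⟩
    · refine le_trans ?_ hj1a
      gcongr
    · refine le_trans ?_ hj1b
      gcongr
    · have h3 : b / ν * r j ≤ ν ^ 2 * K j := by
        have : K 0 ≤ K j := hKm (Nat.zero_le j)
        calc b / ν * r j ≤ b / ν * r j₁ := by gcongr
          _ ≤ ν ^ 2 * K 0 := hj1c
          _ ≤ ν ^ 2 * K j := by gcongr
      calc b * r j ^ 2 / ν = (b / ν * r j) * r j := by ring
        _ ≤ (ν ^ 2 * K j) * r j := by gcongr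
        _ = _ := by ring
  -- the interval of times
  set τ : ℕ → ℝ := fun j => T - A' * (r j ^ 2 / ν) with hτ
  have hτ0 : ∀ j, j₁ ≤ j → t₂ ≤ τ j := fun j hj => by
    have := (hsm j hj).2.1
    simp only [hτ]
    linarith
  have hτT : ∀ j, τ j < T := fun j => by
    have := hr0 j
    simp only [hτ]
    have : 0 < A' * (r j ^ 2 / ν) := by positivity
    linarith
  have ht₂0 : 0 ≤ t₂ := ht₂
  -- the inequality on windows
  have hH1 : ∀ j ∈ G, j₁ ≤ j → ∀ s t, T - 4 * A' * (r j ^ 2 / ν) ≤ s → t₂ ≤ s → s ≤ t → t < T →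
      t - s ≤ r j ^ 2 / ν →
      er φ χ (r j) (U u t) + κ * (∫ τ in s..t, dr φ χ (r j) (U u τ))
        ≤ er φ χ (r j) (U u s) + 2 * (ν ^ 2 * (r j * K j))
          + ∫ τ in s..t, C * (1 + XX (U u τ)) * er φ χ (r j) (U u τ) := by
    intro j hjG hj s t hs hs2 hst htT htW
    have h1 := hbal φ hφ T F u p f h (r j) s t (hr0 j) (ht₂0.trans hs2) hst htT
    have h2 := hflux j hjG s t (ht₂0.trans hs2) (by
      refine le_trans (le_of_eq ?_) hs
      simp only [hr]
      ring) hst htT htW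
    have h3 : b * (t - s) ≤ ν ^ 2 * (r j * K j) := by
      refine le_trans ?_ (hsm j hj).2.2.1
      calc b * (t - s) ≤ b * (r j ^ 2 / ν) := by gcongr
        _ = _ := by ring
    have h4 : fx φ χ (r₀ / 2 ^ j) = fx φ χ (r j) := rfl
    have e1 : (2 * ν - κ) * (∫ τ in s..t, dr φ χ (r j) (U u τ))
        = κ * (∫ τ in s..t, dr φ χ (r j) (U u τ))
          + 2 * ν * θ * (∫ τ in s..t, dr φ χ (r j) (U u τ)) := by
      rw [hκ]
      ring
    rw [e1] at h1
    linarith
  have ha0 : ∀ τ, 0 ≤ C * (1 + XX (U u τ)) := fun τ => by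
    have := XX_nonneg (U u τ)
    positivity
  have hsubI : ∀ {a : ℝ}, t₂ ≤ a → Ico a T ⊆ Ico 0 T := fun ha =>
    Ico_subset_Ico_left (ht₂0.trans ha)
  have caC : ContinuousOn (fun τ => C * (1 + XX (U u τ))) (Ico 0 T) :=
    continuousOn_const.mul (continuousOn_const.add (c_XX h))
  -- the bounds
  set Z : ℕ → ℝ := fun i => Nat.rec Y₀ (fun i z => if j₁ + i + 1 ∈ G then
    2 / 5 * z + D * (ν ^ 2 * (r (j₁ + i + 1) * K (j₁ + i + 1))) else Cφ * z) i with hZ
  have hZ0 : Z 0 = Y₀ := rfl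
  have hZs : ∀ i, Z (i + 1) = if j₁ + i + 1 ∈ G then
    2 / 5 * Z i + D * (ν ^ 2 * (r (j₁ + i + 1) * K (j₁ + i + 1))) else Cφ * Z i := fun i => rfl
  have hZn : ∀ i, 0 ≤ Z i := by
    intro i
    induction i with
    | zero => exact hY₀0
    | succ i ih =>
      rw [hZs]
      have := hr0 (j₁ + i + 1)
      have := hK (j₁ + i + 1)
      split_ifs <;> positivity
  have hbd : ∀ i, ∀ t, τ (j₁ + i) ≤ t → t < T → er φ χ (r (j₁ + i)) (U u t) ≤ Z i := by
    intro i
    induction i with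
    | zero =>
      intro t ht htT
      exact hY _ t ⟨ht₂0.trans ((hτ0 _ (by omega)).trans ht), htT⟩
    | succ i ih =>
      intro t ht htT
      have hj : j₁ ≤ j₁ + i + 1 := by omega
      set j := j₁ + i + 1 with hjd
      have e0 : j₁ + (i + 1) = j := by omega
      rw [e0] at ht ⊢
      have hrj := hr0 j
      have hKj := hK j
      obtain ⟨hs1, hs2, hs3, -⟩ := hsm j hj
      have hrr : r (j₁ + i) = 2 * r j := by rw [hjd]; exact hr1 (j₁ + i)
      have hW4 : τ (j₁ + i) = T - 4 * A' * (r j ^ 2 / ν) := by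
        simp only [hτ]
        rw [hrr]
        ring
      have hτi := hτ0 (j₁ + i) (by omega)
      have hR1' : r j * R ≤ ρ := le_trans (by gcongr; exact le_max_left _ _) hs1
      have hR2' : r j * R1 ≤ ρ :=
        le_trans (by gcongr; exact (le_max_left _ _).trans (le_max_right _ _)) hs1
      have hτle : τ (j₁ + i) ≤ τ j := by
        rw [hW4]
        simp only [hτ]
        have : 0 < A' * (r j ^ 2 / ν) := by positivity
        linarith
      -- trivial bound
      have htriv : ∀ t ∈ Ico (τ (j₁ + i)) T, er φ χ (r j) (U u t) ≤ Cφ * Z i := by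
        intro t ht
        have hI := hsubI hτi ht
        have h1 := hhalf (U u t) χ c M ρ (fun i => sp_U h hI i) hw hnr (r j) hrj hR2'
        have h2 := ih t ht.1 ht.2
        rw [hrr] at h2
        refine h1.trans ?_
        gcongr
      rw [hZs]
      by_cases hG : j₁ + i + 1 ∈ G
      · rw [if_pos hG]
        have hP0 : 0 ≤ 2 * (ν ^ 2 * (r j * K j)) := by positivity
        have h1 := stepn (e := fun t => er φ χ (r j) (U u t)) (d := fun t => dr φ χ (r j) (U u t))
          (a := fun τ => C * (1 + XX (U u τ))) (τ₀ := τ (j₁ + i)) (T := T) (W := r j ^ 2 / ν)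
          (κ := κ) (c₁ := 9 / 2 * R ^ 2 * r j ^ 2) (P := 2 * (ν ^ 2 * (r j * K j))) (δ := δ)
          (Y2 := Z i) (M₀ := Cφ * Z i) (k := k) (by positivity) hκ0 (by positivity)
          (by rw [hκ, hk]; field_simp)
          ((c_er h hφ hχ (r j)).mono (hsubI hτi)) ((c_dr h hφ hχ (r j)).mono (hsubI hτi))
          (caC.mono (hsubI hτi))
          (fun t ht => dr_nonneg (fun i => sp_U h (hsubI hτi ht) i) hφ hw (r j)) (fun τ _ => ha0 τ)
          (fun s t hs hst htT => htail s t (hτi.trans hs) hst htT)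
          (fun s t hs hst htT htW => hH1 j hG hj s t (by rw [← hW4]; exact hs) (hτi.trans hs) hst
            htT htW)
          (fun t ht => by
            have h2 := er_incr (fun i => sp_U h (hsubI hτi ht) i) hφ hw hnr hR hR' hrj hR1'
            have h3 := ih t ht.1 ht.2
            rw [hrr] at h3
            linarith)
          htriv hδ0.le hP0 (hZn i) (by have := hZn i; positivity) n t (by
            rw [hW4]
            have h3 : τ j ≤ t := ht
            simp only [hτ] at h3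
            have h4 : (n : ℝ) ≤ 3 * A' := by
              rw [hA']
              have : (0 : ℝ) ≤ n := by positivity
              linarith
            have h5 : (n : ℝ) * (r j ^ 2 / ν) ≤ 3 * A' * (r j ^ 2 / ν) := by gcongr
            linarith) htT
        refine h1.trans ?_
        have h2 : Cφ * Z i / (1 + k) ^ n ≤ 1 / 80 * Z i := by
          have : Cφ * Z i / (1 + k) ^ n = (Cφ / (1 + k) ^ n) * Z i := by ring
          rw [this]
          exact mul_le_mul_of_nonneg_right hn (hZn i)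
        have h3 : (1 + k) / k * (2 * (ν ^ 2 * (r j * K j)) + δ * (Cφ * Z i))
            = D * (ν ^ 2 * (r j * K j)) + 1 / 80 * Z i := by
          rw [hD, hδ]
          field_simp
        rw [h3]
        have := hZn i
        linarith
      · rw [if_neg hG]
        exact htriv t ⟨hτle.trans ht, htT⟩
  -- normalised quantities
  set y : ℕ → ℝ := fun j => Z (j - j₁) / (ν ^ 2 * r j) with hy
  have hrec : ∀ j, j₁ ≤ j → (∀ i, i < j → (q + 2) * cnt G i j ≤ j - i) →
      y j ≤ (9 / 10) ^ (j - j₁) * y j₁ + 10 * D * K j := by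
    intro j hj hcj
    refine rec_bad (Λ := 2 * Cφ) hD0.le hq.le (by positivity) (fun i => ?_) (fun i => (hK i).le) hKm
      ?_ ?_ hj hcj
    · have := hZn (i - j₁)
      have := hr0 i
      simp only [hy]
      positivity
    · intro i hi hG
      have e1 : i + 1 - j₁ = (i - j₁) + 1 := by omega
      have e2 : j₁ + (i - j₁) + 1 = i + 1 := by omega
      simp only [hy]
      rw [e1, hZs, e2, if_pos hG, hr1 i]
      have := hr0 (i + 1)
      refine le_of_eq ?_
      field_simp
      ring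
    · intro i hi hG
      have e1 : i + 1 - j₁ = (i - j₁) + 1 := by omega
      have e2 : j₁ + (i - j₁) + 1 = i + 1 := by omega
      simp only [hy]
      rw [e1, hZs, e2, if_neg hG, hr1 i]
      have := hr0 (i + 1)
      refine le_of_eq ?_
      field_simp
  obtain ⟨N, hN⟩ : ∃ N : ℕ, (9 / 10 : ℝ) ^ N * y j₁ ≤ K 0 := by
    have h1 : Tendsto (fun N : ℕ => (9 / 10 : ℝ) ^ N * y j₁) atTop (𝓝 0) := by
      have := (tendsto_pow_atTop_nhds_zero_of_lt_one (r := (9 / 10 : ℝ)) (by norm_num)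
        (by norm_num)).mul_const (y j₁)
      rwa [zero_mul] at this
    obtain ⟨N, hN⟩ := (h1.eventually (gt_mem_nhds (hK 0))).exists
    exact ⟨N, hN.le⟩
  have hyj₁ : 0 ≤ y j₁ := by
    have := hZn (j₁ - j₁)
    have := hr0 j₁
    simp only [hy]
    positivity
  refine ⟨j₁ + N + 1, fun j hj hcj S hS hsep => ?_⟩
  have hjj : j₁ ≤ j := by omega
  have hjG : j ∈ G := by
    have h1 := hcj (j - 1) (by omega)
    have h2 : j - 1 + 1 = j := by omega
    by_contra hnG
    have h3 := cnt_one_notMem (G := G) (i := j - 1) (by rw [h2]; exact hnG)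
    rw [h2] at h3
    rw [h3] at h1
    omega
  have hrj := hr0 j
  have hKj := hK j
  obtain ⟨hs1, hs2, hs3, hs4⟩ := hsm j hjj
  have hyb : y j ≤ (1 + 10 * D) * K j := by
    have h1 := hrec j hjj hcj
    have h2 : (9 / 10 : ℝ) ^ (j - j₁) * y j₁ ≤ K j := by
      calc (9 / 10 : ℝ) ^ (j - j₁) * y j₁ ≤ (9 / 10 : ℝ) ^ N * y j₁ := by
            refine mul_le_mul_of_nonneg_right ?_ hyj₁
            exact pow_le_pow_of_le_one (by norm_num) (by norm_num) (by omega)
        _ ≤ K 0 := hN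
        _ ≤ K j := hKm (Nat.zero_le j)
    linarith
  set Y := Z (j - j₁) with hYd
  have hYn : 0 ≤ Y := hZn _
  have hYy : Y = ν ^ 2 * (r j * y j) := by
    simp only [hy]
    rw [← hYd]
    field_simp
  have hbj : ∀ t, τ j ≤ t → t < T → er φ χ (r j) (U u t) ≤ Y := by
    have h1 := hbd (j - j₁)
    have e : j₁ + (j - j₁) = j := by omega
    rw [e] at h1
    exact h1
  have hτj := hτ0 j hjj
  set W := r j ^ 2 / ν with hW
  have hW0 : 0 < W := by positivity
  set P := 2 * (ν ^ 2 * (r j * K j)) with hP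
  have hP0 : 0 < P := by positivity
  -- one window
  set X := (2 * m / κ * (2 * Y + P) + Λ / r j ^ 2 * (W * Y)) / m ^ 2 with hX
  have hX0 : 0 ≤ X := by positivity
  have hwin : ∀ s t, τ j ≤ s → s ≤ t → t < T → t - s ≤ W → ∫ τ in s..t, EN χ (U u τ) ≤ X := by
    intro s t hs hst htT htW
    have hsub : Icc s t ⊆ Ico 0 T := fun x hx =>
      ⟨ht₂0.trans (hτj.trans (hs.trans hx.1)), hx.2.trans_lt htT⟩
    have hdis : κ * (∫ τ in s..t, dr φ χ (r j) (U u τ)) ≤ 2 * Y + P := by
      have h1 := hH1 j hjG hjj s t (by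
        refine le_trans ?_ hs
        simp only [hτ]
        have : 0 < A' * (r j ^ 2 / ν) := by positivity
        linarith) (hτj.trans hs) hst htT htW
      have h2 := hbj s hs (hst.trans_lt htT)
      have h3 : 0 ≤ er φ χ (r j) (U u t) :=
        er_nonneg (fun i => sp_U h (hsub ⟨hst, le_rfl⟩) i) hφ hw (r j)
      have h5 : ∫ τ in s..t, C * (1 + XX (U u τ)) * er φ χ (r j) (U u τ)
          ≤ ∫ τ in s..t, C * (1 + XX (U u τ)) * Y := by
        refine intervalIntegral.integral_mono_on hst ?_ ?_ fun x hx =>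
          mul_le_mul_of_nonneg_left (hbj x (hs.trans hx.1) (hx.2.trans_lt htT)) (ha0 x)
        · refine ContinuousOn.intervalIntegrable ?_
          rw [uIcc_of_le hst]
          exact (caC.mono hsub).mul ((c_er h hφ hχ (r j)).mono hsub)
        · refine ContinuousOn.intervalIntegrable ?_
          rw [uIcc_of_le hst]
          exact (caC.mono hsub).mul continuousOn_const
      rw [intervalIntegral.integral_mul_const] at h5
      have h6 := htail s t (hτj.trans hs) hst htT
      have h8 : (∫ τ in s..t, C * (1 + XX (U u τ))) * Y ≤ 1 * Y :=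
        mul_le_mul_of_nonneg_right (h6.trans hδ1) hYn
      linarith
    have hdint : IntervalIntegrable (fun τ => dr φ χ (r j) (U u τ)) volume s t := by
      refine ContinuousOn.intervalIntegrable ?_
      rw [uIcc_of_le hst]
      exact (c_dr h hφ hχ (r j)).mono hsub
    have hENint : IntervalIntegrable (fun τ => EN χ (U u τ)) volume s t := by
      refine ContinuousOn.intervalIntegrable ?_
      rw [uIcc_of_le hst]
      exact (c_EN h hχ).mono hsub
    have hRR : r j * R2 ≤ ρ :=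
      le_trans (by gcongr; exact (le_max_right _ _).trans (le_max_right _ _)) hs1
    have hpt : ∀ x ∈ Icc s t, m ^ 2 * EN χ (U u x)
        ≤ 2 * m * dr φ χ (r j) (U u x) + Λ / r j ^ 2 * Y := by
      intro x hx
      have h1 := hlow (U u x) χ c M ρ (fun i => sp_U h (hsub hx) i) hw hnr (r j) hrj hRR
      refine h1.trans ?_
      have h2 := hbj x (hs.trans hx.1) (hx.2.trans_lt htT)
      have h5 : 0 ≤ Λ / r j ^ 2 := by positivity
      have := mul_le_mul_of_nonneg_left h2 h5
      linarith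
    have hI := intervalIntegral.integral_mono_on hst (hENint.const_mul (m ^ 2))
      ((hdint.const_mul (2 * m)).add (intervalIntegrable_const (c := Λ / r j ^ 2 * Y))) hpt
    rw [intervalIntegral.integral_add (hdint.const_mul (2 * m)) intervalIntegrable_const,
      intervalIntegral.integral_const_mul, intervalIntegral.integral_const_mul,
      intervalIntegral.integral_const, smul_eq_mul] at hI
    have hZ2 : (t - s) * (Λ / r j ^ 2 * Y) ≤ Λ / r j ^ 2 * (W * Y) := by
      calc (t - s) * (Λ / r j ^ 2 * Y) ≤ W * (Λ / r j ^ 2 * Y) := by gcongr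
        _ = _ := by ring
    have hd2 : 2 * m * (∫ τ in s..t, dr φ χ (r j) (U u τ)) ≤ 2 * m / κ * (2 * Y + P) := by
      have h1 : (∫ τ in s..t, dr φ χ (r j) (U u τ)) ≤ (2 * Y + P) / κ := by
        rw [le_div_iff₀ hκ0]
        linarith
      calc 2 * m * (∫ τ in s..t, dr φ χ (r j) (U u τ)) ≤ 2 * m * ((2 * Y + P) / κ) := by gcongr
        _ = _ := by ring
    rw [hX, le_div_iff₀ (by positivity)]
    linarith
  have hchain := chain ((c_EN h hχ).mono (hsubI hτj)) hX0 hwin 32
  set s := T - 32 * r j ^ 2 / ν with hs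
  have hsW : s = T - 32 * W := by rw [hs, hW]; ring
  have hsτ : τ j ≤ s := by
    rw [hsW]
    simp only [hτ]
    have : 32 * W ≤ A' * W := by
      refine mul_le_mul_of_nonneg_right ?_ hW0.le
      rw [hA']
      have : (0 : ℝ) ≤ n := by positivity
      linarith
    linarith
  have hw1 := hcnt4 (r j) hrj hs4 S hS hsep
  have hlin : ∫⁻ τ in Ioo s T, ENNReal.ofReal (EN χ (U u τ)) ≤ ENNReal.ofReal (32 * X) := by
    refine lim_lint fun t hst htT => ?_
    have hsub : Icc s t ⊆ Ico 0 T := fun x hx =>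
      ⟨ht₂0.trans (hτj.trans (hsτ.trans hx.1)), hx.2.trans_lt htT⟩
    have hc : ContinuousOn (fun τ => EN χ (U u τ)) (Icc s t) := (c_EN h hχ).mono hsub
    have hi : IntegrableOn (fun τ => EN χ (U u τ)) (Ioc s t) :=
      (hc.integrableOn_Icc).mono_set Ioc_subset_Icc_self
    have h0 : ∀ τ, 0 ≤ EN χ (U u τ) := fun τ =>
      Finset.sum_nonneg fun i _ => GG_nonneg fun x => (hχ0 x).le
    rw [← ofReal_integral_eq_lintegral_ofReal hi (Filter.Eventually.of_forall h0)]
    apply ENNReal.ofReal_le_ofReal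
    rw [← intervalIntegral.integral_of_le hst.le]
    have h7 := hchain s t hsτ hst.le htT (by
      push_cast
      linarith)
    exact_mod_cast h7
  have h5 : ENNReal.ofReal ((∑ x ∈ S, χ x) * r j) ≤ ENNReal.ofReal (C₂ / ν * (32 * X)) := by
    refine hw1.trans ?_
    rw [ENNReal.ofReal_mul (by positivity)]
    gcongr
  have h6 : (∑ x ∈ S, χ x) * r j ≤ C₂ / ν * (32 * X) :=
    (ENNReal.ofReal_le_ofReal_iff (by positivity)).1 h5
  have h7 : X ≤ ν * r j * ((4 * m / (1 - θ) + Λ) / m ^ 2 * (y j + K j)) := by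
    have hyj : 0 ≤ y j := by
      simp only [hy]
      positivity
    rw [hX, div_le_iff₀ (by positivity), hYy, hP, hW, hκ]
    have e1 : 2 * m / (ν * (1 - θ)) * (2 * (ν ^ 2 * (r j * y j)) + 2 * (ν ^ 2 * (r j * K j)))
        + Λ / r j ^ 2 * (r j ^ 2 / ν * (ν ^ 2 * (r j * y j)))
        = ν * r j * (4 * m / (1 - θ) * (y j + K j) + Λ * y j) := by
      field_simp
      ring
    have e2 : ν * r j * ((4 * m / (1 - θ) + Λ) / m ^ 2 * (y j + K j)) * m ^ 2
        = ν * r j * ((4 * m / (1 - θ) + Λ) * (y j + K j)) := by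
      field_simp
    rw [e1, e2]
    have : Λ * y j ≤ Λ * (y j + K j) := by gcongr; linarith
    have e3 : (4 * m / (1 - θ) + Λ) * (y j + K j)
        = 4 * m / (1 - θ) * (y j + K j) + Λ * (y j + K j) := by ring
    rw [e3]
    gcongr
  have h8 : y j + K j ≤ (2 + 10 * D) * K j := by linarith
  have h9 : (∑ x ∈ S, χ x) * r j
      ≤ (32 * C₂ * (4 * m / (1 - θ) + Λ) / m ^ 2 * (2 + 10 * D) * K j) * r j := by
    refine h6.trans ?_
    calc C₂ / ν * (32 * X)
        ≤ C₂ / ν * (32 * (ν * r j * ((4 * m / (1 - θ) + Λ) / m ^ 2 * ((2 + 10 * D) * K j)))) := by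
          gcongr
          refine h7.trans ?_
          gcongr
      _ = _ := by
        field_simp
  exact le_of_mul_le_mul_right h9 hrj

end Pool.Agent.Run7.h782
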