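import Pool.Agent.Run7.h782.CZ
import Pool.Agent.W398.MD.FLOWX

/-!
The error terms of the balance.
-/

set_option autoImplicit false

open MeasureTheory Set Metric Filter Topology
open scoped ContDiff

namespace Pool.Agent.Run7.h782

open H459R3.NS W221.NS

/-- the `H¹` norm squared -/
noncomputable def Y1 (s : V → ℝ) : ℝ := (∑ j, ∫ x in cube, pd j s x ^ 2) + ∫ x in cube, s x ^ 2

theorem Y1_nonneg (s : V → ℝ) : 0 ≤ Y1 s :=
  add_nonneg (Finset.sum_nonneg fun _ _ => integral_nonneg fun _ => sq_nonneg _)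
    (integral_nonneg fun _ => sq_nonneg _)

theorem six : ∃ C : ℝ, 0 ≤ C ∧ ∀ s f g : V → ℝ, SP s → SP f → SP g → ∫ x in cube, g x = 0 →
    |∫ x in cube, s x * (f x * g x)|
      ≤ C * Real.sqrt (Y1 s) * (nrm f * Real.sqrt (nrm g * grd g)) := by
  obtain ⟨C1, h1, hC1⟩ := sobolev
  obtain ⟨C2, h2, hC2⟩ := mul_of_Lp (p := 6) (by norm_num)
  refine ⟨C2 * C1, by positivity, fun s f g hs hf hg hg0 => ?_⟩
  have h3 := hC2 s (C1 * Real.sqrt (Y1 s)) hs.cont (by positivity) (hC1 s hs) f g hf hg hg0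
  have hth : H459R3.NS.th 6 = 1 / 2 := by
    unfold H459R3.NS.th
    rw [ENNReal.toReal_inv]
    norm_num
  rw [hth] at h3
  have h4 : nrm g ^ (1 - (1 / 2 : ℝ)) * grd g ^ (1 / 2 : ℝ) = Real.sqrt (nrm g * grd g) := by
    rw [Real.sqrt_mul (nrm_nonneg g), Real.sqrt_eq_rpow, Real.sqrt_eq_rpow]
    norm_num
  rw [h4] at h3
  calc _ ≤ C2 * (C1 * Real.sqrt (Y1 s)) * (nrm f * Real.sqrt (nrm g * grd g)) := h3
    _ = _ := by ring

theorem six_nrm {C : ℝ} (h1 : 0 ≤ C) (hC : ∀ s f g : V → ℝ, SP s → SP f → SP g →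
    ∫ x in cube, g x = 0 → |∫ x in cube, s x * (f x * g x)|
      ≤ C * Real.sqrt (Y1 s) * (nrm f * Real.sqrt (nrm g * grd g)))
    {s g : V → ℝ} (hs : SP s) (hg : SP g) (hg0 : ∫ x in cube, g x = 0) :
    nrm (fun x => s x * g x) ≤ C * Real.sqrt (Y1 s) * Real.sqrt (nrm g * grd g) := by
  have h2 := hC s (fun x => s x * g x) g hs (hs.mul hg) hg hg0
  have h3 : ∫ x in cube, s x * ((s x * g x) * g x) = nrm (fun x => s x * g x) ^ 2 := by
    rw [nrm_sq]
    congr 1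
    funext x
    ring
  rw [h3, abs_of_nonneg (sq_nonneg _)] at h2
  have h4 := nrm_nonneg (fun x => s x * g x)
  by_contra hcon
  push Not at hcon
  have h5 : 0 ≤ C * Real.sqrt (Y1 s) * Real.sqrt (nrm g * grd g) := by positivity
  have h6 : 0 < nrm (fun x => s x * g x) := by linarith
  nlinarith

/-- Weights. -/
structure Wt (χ : V → ℝ) (c M : ℝ) : Prop where
  sp : SP χ
  c0 : 0 < c
  lo : ∀ x, c ≤ χ x
  hi : ∀ x, χ x ≤ M
  d1 : ∀ j x, |pd j χ x| ≤ M
  d2 : ∀ x, |lap χ x| ≤ M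

theorem Wt.M0 {χ : V → ℝ} {c M : ℝ} (h : Wt χ c M) : 0 < M := h.c0.trans_le ((h.lo 0).trans (h.hi 0))

theorem Wt.pos {χ : V → ℝ} {c M : ℝ} (h : Wt χ c M) (x : V) : 0 < χ x := h.c0.trans_le (h.lo x)

/-- A periodic continuous function is bounded. -/
theorem per_bdd {f : V → ℝ} (hf : SP f) : ∃ C : ℝ, ∀ x, |f x| ≤ C :=
  ⟨_, fun x => sup_le hf x⟩

theorem exists_wt {χ : V → ℝ} (h : SP χ) (hpos : ∀ x, 0 < χ x) : ∃ c M, Wt χ c M := by
  obtain ⟨x0, -, hx0⟩ := cube_cpt.exists_isMinOn (f := χ) ⟨0, by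
    constructor
    · exact le_rfl
    · intro i; simp⟩ h.cont.continuousOn
  obtain ⟨C0, h0⟩ := per_bdd h
  choose C1 h1 using fun j => per_bdd (h.pd j)
  obtain ⟨C2, h2⟩ := per_bdd h.lap
  refine ⟨χ x0, max C0 (max (∑ j, |C1 j|) C2), h, hpos x0, fun x => ?_, fun x => ?_, fun j x => ?_,
    fun x => ?_⟩
  · obtain ⟨y, hy, e⟩ := W398.MD.FLOWX.per_cube h.per x
    rw [e]
    exact hx0 hy
  · exact ((le_abs_self _).trans (h0 x)).trans (le_max_left _ _)
  · have a : |C1 j| ≤ ∑ j, |C1 j| := Finset.single_le_sum (f := fun l => |C1 l|)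
      (fun l _ => abs_nonneg _) (Finset.mem_univ j)
    exact (((h1 j x).trans (le_abs_self _)).trans a).trans
      ((le_max_left _ _).trans (le_max_right _ _))
  · exact (h2 x).trans ((le_max_right _ _).trans (le_max_right _ _))

/-- Sum over the components. -/
noncomputable def XX (v : Fin 3 → V → ℝ) : ℝ := ∑ i, Y1 (v i)

theorem XX_nonneg (v : Fin 3 → V → ℝ) : 0 ≤ XX v := Finset.sum_nonneg fun _ _ => Y1_nonneg _

theorem Y1_le_XX (v : Fin 3 → V → ℝ) (i : Fin 3) : Y1 (v i) ≤ XX v :=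
  Finset.single_le_sum (f := fun i => Y1 (v i)) (fun _ _ => Y1_nonneg _) (Finset.mem_univ i)

section

variable {v : Fin 3 → V → ℝ} (hv : ∀ i, SP (v i)) (hdiv : ∀ x, ∑ i, pd i (v i) x = 0)
  {χ : V → ℝ} {c M : ℝ} (hw : Wt χ c M)

include hv hw

theorem AA_eq (z : V) : AA χ v z = ∑ i, ∫ x in cube, χ x * dl z (v i) x ^ 2 := by
  unfold AA
  simp_rw [Finset.mul_sum]
  exact integral_finsetSum _ fun i _ => (hw.sp.mul (SP.sq (SP.dl (hv i) z))).int

theorem BB_eq (z : V) : BB χ v z = ∑ i, ∑ j, ∫ x in cube, χ x * pd j (dl z (v i)) x ^ 2 := by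
  unfold BB
  simp_rw [Finset.mul_sum]
  rw [integral_finsetSum _ fun i _ => (SP.sum fun j _ =>
    hw.sp.mul (SP.sq (SP.dl ((hv i).pd j) z))).int]
  refine Finset.sum_congr rfl fun i _ => ?_
  rw [integral_finsetSum _ fun j _ => (hw.sp.mul (SP.sq (SP.dl ((hv i).pd j) z))).int]
  refine Finset.sum_congr rfl fun j _ => ?_
  rw [pd_dl (hv i)]

theorem AA_ge (z : V) (i : Fin 3) : c * nrm (dl z (v i)) ^ 2 ≤ AA χ v z := by
  rw [AA_eq hv hw z, nrm_sq, ← integral_const_mul]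
  have h1 : ∫ x in cube, c * dl z (v i) x ^ 2 ≤ ∫ x in cube, χ x * dl z (v i) x ^ 2 :=
    integral_mono (SP.cmul (SP.sq (SP.dl (hv i) z)) c).int (hw.sp.mul (SP.sq (SP.dl (hv i) z))).int
      fun x => mul_le_mul_of_nonneg_right (hw.lo x) (sq_nonneg _)
  exact h1.trans (Finset.single_le_sum (f := fun i => ∫ x in cube, χ x * dl z (v i) x ^ 2)
    (fun l _ => integral_nonneg fun x => mul_nonneg (hw.pos x).le (sq_nonneg _))
    (Finset.mem_univ i))

theorem BB_ge (z : V) (i : Fin 3) : c * grd (dl z (v i)) ^ 2 ≤ BB χ v z := by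
  rw [BB_eq hv hw z, grd_sq, Finset.mul_sum]
  have h1 : ∀ j, c * ∫ x in cube, pd j (dl z (v i)) x ^ 2
      ≤ ∫ x in cube, χ x * pd j (dl z (v i)) x ^ 2 := by
    intro j
    rw [← integral_const_mul]
    exact integral_mono (SP.cmul (SP.sq ((SP.dl (hv i) z).pd j)) c).int
      (hw.sp.mul (SP.sq ((SP.dl (hv i) z).pd j))).int
      fun x => mul_le_mul_of_nonneg_right (hw.lo x) (sq_nonneg _)
  refine (Finset.sum_le_sum fun j _ => h1 j).trans ?_
  exact Finset.single_le_sum (f := fun i => ∑ j, ∫ x in cube, χ x * pd j (dl z (v i)) x ^ 2)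
    (fun l _ => Finset.sum_nonneg fun j _ => integral_nonneg fun x =>
      mul_nonneg (hw.pos x).le (sq_nonneg _)) (Finset.mem_univ i)

theorem AA_nonneg (z : V) : 0 ≤ AA χ v z :=
  (mul_nonneg hw.c0.le (sq_nonneg _)).trans (AA_ge hv hw z 0)

theorem BB_nonneg (z : V) : 0 ≤ BB χ v z :=
  (mul_nonneg hw.c0.le (sq_nonneg _)).trans (BB_ge hv hw z 0)

end


theorem nrm_sh {f : V → ℝ} (hf : SP f) (z : V) : nrm (sh z f) = nrm f := by
  unfold nrm
  have h := int_sh (SP.sq hf).per z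
  have e : ∀ x, sh z (fun x => f x ^ 2) x = sh z f x ^ 2 := fun _ => rfl
  simp_rw [e] at h
  rw [h]

theorem Y1_sh {f : V → ℝ} (hf : SP f) (z : V) : Y1 (sh z f) = Y1 f := by
  unfold Y1
  simp_rw [← nrm_sq, pd_sh, fun j => nrm_sh (hf.pd j) z, nrm_sh hf]

theorem nrm_le_of_abs {f : V → ℝ} (hf : Continuous f) {b : ℝ} (hb : ∀ x, |f x| ≤ b) : nrm f ≤ b := by
  have hb0 : 0 ≤ b := (abs_nonneg _).trans (hb 0)
  have h := nrm_mul_le hf continuous_const hb (g := fun _ => (1 : ℝ))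
  have h1 : nrm (fun _ => (1 : ℝ)) = 1 := by
    unfold nrm
    simp only [one_pow, integral_const, smul_eq_mul, mul_one, MeasurableSet.univ,
      measureReal_restrict_apply, univ_inter]
    rw [cube_vol, Real.sqrt_one]
  rw [h1] at h
  simpa using h

section

variable {v : Fin 3 → V → ℝ} (hv : ∀ i, SP (v i)) (hdiv : ∀ x, ∑ i, pd i (v i) x = 0)
  {q : V → ℝ} (hq : SP q) {f : Fin 3 → V → ℝ} (hf : ∀ i, SP (f i)) {F : ℝ}
  (hF : ∀ i x, |f i x| ≤ F)
  (heq : ∀ x, lap q x + (∑ i, ∑ j, pd i (pd j (fun y => v i y * v j y)) x) = ∑ i, pd i (f i) x)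

include hf hF in
theorem nrm_df (z : V) (i : Fin 3) : nrm (dl z (f i)) ≤ 2 * F := by
  refine nrm_le_of_abs (SP.dl (hf i) z).cont fun x => ?_
  unfold dl
  have h1 := hF i (x + z)
  have h2 := hF i x
  rw [abs_le] at *
  constructor <;> linarith

include hv hq hf hF heq in
theorem press_bd {C : ℝ} (h1 : 0 ≤ C) (hC : ∀ s f g : V → ℝ, SP s → SP f → SP g →
    ∫ x in cube, g x = 0 → |∫ x in cube, s x * (f x * g x)|
      ≤ C * Real.sqrt (Y1 s) * (nrm f * Real.sqrt (nrm g * grd g))) {G H : ℝ} (z : V)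
    (hG : ∀ i, nrm (dl z (v i)) ≤ G) (hH : ∀ i, grd (dl z (v i)) ≤ H) :
    nrm (dl z q) ≤ 26 * (C * Real.sqrt (XX v) * Real.sqrt (G * H)) + 9 * F := by
  have hF0 : 0 ≤ F := (abs_nonneg _).trans (hF 0 0)
  have hG0 : 0 ≤ G := (nrm_nonneg _).trans (hG 0)
  have hH0 : 0 ≤ H := (grd_nonneg _).trans (hH 0)
  set B := C * Real.sqrt (XX v) * Real.sqrt (G * H) with hB
  have hB0 : 0 ≤ B := by positivity
  have a1 : ∀ s : V → ℝ, SP s → Y1 s ≤ XX v → ∀ i, nrm (fun x => s x * dl z (v i) x) ≤ B := by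
    intro s hs hY i
    refine (six_nrm h1 hC hs (SP.dl (hv i) z) (int_dl (hv i) z)).trans ?_
    have := hG i
    have := hH i
    have := nrm_nonneg (dl z (v i))
    have := grd_nonneg (dl z (v i))
    rw [hB]
    gcongr
  have a2 : ∀ i j, nrm (dl z (fun y => v i y * v j y)) ≤ 2 * B := by
    intro i j
    have e : dl z (fun y => v i y * v j y)
        = fun x => sh z (v j) x * dl z (v i) x + v i x * dl z (v j) x := by
      funext x
      unfold dl sh
      ring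
    rw [e]
    refine (nrm_add_le ((SP.sh (hv j) z).mul (SP.dl (hv i) z)).cont
      ((hv i).mul (SP.dl (hv j) z)).cont).trans ?_
    have b1 := a1 (sh z (v j)) (SP.sh (hv j) z) (by rw [Y1_sh (hv j)]; exact Y1_le_XX v j) i
    have b2 := a1 (v i) (hv i) (Y1_le_XX v i) j
    linarith
  have a3 : nrm (dl z q) ^ 2 ≤ 18 * ∑ i, ∑ j, nrm (dl z (fun y => v i y * v j y)) ^ 2
      + 6 * ∑ i, nrm (dl z (f i)) ^ 2 := by
    refine cz (F := fun i j => dl z (fun y => v i y * v j y)) (g := fun i => dl z (f i))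
      (SP.dl hq z) (fun i j => SP.dl ((hv i).mul (hv j)) z)
      (fun i => SP.dl (hf i) z) (int_dl hq z) fun x => ?_
    rw [lap_dl hq]
    simp_rw [fun i => pd_dl (hf i) z, fun i j => pd_dl ((hv i).mul (hv j)) z j,
      fun i j => pd_dl (((hv i).mul (hv j)).pd j) z i]
    unfold dl
    rw [Finset.sum_sub_distrib]
    simp_rw [Finset.sum_sub_distrib]
    rw [← heq x, ← heq (x + z)]
    ring
  have a4 : ∑ i, ∑ j, nrm (dl z (fun y => v i y * v j y)) ^ 2 ≤ 9 * (2 * B) ^ 2 := by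
    have : ∑ i : Fin 3, ∑ j : Fin 3, nrm (dl z (fun y => v i y * v j y)) ^ 2
        ≤ ∑ i : Fin 3, ∑ j : Fin 3, (2 * B) ^ 2 := by
      refine Finset.sum_le_sum fun i _ => Finset.sum_le_sum fun j _ => ?_
      exact pow_le_pow_left₀ (nrm_nonneg _) (a2 i j) 2
    refine this.trans (le_of_eq ?_)
    simp
    ring
  have a5 : ∑ i, nrm (dl z (f i)) ^ 2 ≤ 3 * (2 * F) ^ 2 := by
    have : ∑ i : Fin 3, nrm (dl z (f i)) ^ 2 ≤ ∑ i : Fin 3, (2 * F) ^ 2 := by
      refine Finset.sum_le_sum fun i _ => ?_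
      exact pow_le_pow_left₀ (nrm_nonneg _) (nrm_df hf hF z i) 2
    refine this.trans (le_of_eq ?_)
    simp
  have a6 : nrm (dl z q) ^ 2 ≤ (26 * B + 9 * F) ^ 2 := by nlinarith [mul_nonneg hB0 hF0]
  exact (pow_le_pow_iff_left₀ (nrm_nonneg _) (by positivity) (by norm_num)).1 a6

end

theorem alg1 {L G H S e : ℝ} (hL : 0 ≤ L) (hG : 0 ≤ G) (he : 0 < e) (hS : S ≤ (G + H) / 2) :
    L * G * S ≤ (1 / 2 + (1 / 2 + 1 / (16 * e)) * L ^ 2) * G ^ 2 + e * H ^ 2 := by
  have e1 : L * G * S ≤ L * G * ((G + H) / 2) := mul_le_mul_of_nonneg_left hS (by positivity)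
  have e3 : 0 ≤ (L * G - 4 * e * H) ^ 2 / (16 * e) := by positivity
  have e4 : (L * G - 4 * e * H) ^ 2 / (16 * e)
      = L ^ 2 * G ^ 2 / (16 * e) - L * G * H / 2 + e * H ^ 2 := by
    field_simp
    ring
  have e5 : L * G ^ 2 / 2 ≤ (1 / 2 + 1 / 2 * L ^ 2) * G ^ 2 := by
    have h1 : L / 2 ≤ 1 / 2 + 1 / 2 * L ^ 2 := by nlinarith [sq_nonneg (L - 1), sq_nonneg (L + 1)]
    have h2 := mul_le_mul_of_nonneg_right h1 (sq_nonneg G)
    linarith
  have e6 : (1 / 2 + (1 / 2 + 1 / (16 * e)) * L ^ 2) * G ^ 2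
      = (1 / 2 + 1 / 2 * L ^ 2) * G ^ 2 + L ^ 2 * G ^ 2 / (16 * e) := by
    ring
  rw [e6]
  linarith

theorem alg2 {a b c m XX G C' : ℝ} (ha : 0 ≤ a) (hb : 0 ≤ b) (hc : 0 < c) (hX : 0 ≤ XX)
    (hm : 0 ≤ m) (hC' : C' = (a + b) / c + m + 1) :
    (a + b * XX) * G ^ 2 + c * G ^ 2 ≤ C' * (1 + XX) * (c * G ^ 2) := by
  have hCc : a + b + c ≤ C' * c := by
    have : C' * c = a + b + m * c + c := by rw [hC']; field_simp
    rw [this]
    have : 0 ≤ m * c := by positivity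
    linarith
  have e2 : a + b * XX + c ≤ C' * c * (1 + XX) := by
    calc a + b * XX + c ≤ (a + b + c) * (1 + XX) := by
          nlinarith [mul_nonneg ha hX, mul_nonneg hc.le hX]
      _ ≤ _ := mul_le_mul_of_nonneg_right hCc (by linarith)
  have e3 := mul_le_mul_of_nonneg_right e2 (sq_nonneg G)
  linarith

/-- The error terms. -/
theorem err {ν c M ε : ℝ} {χ : V → ℝ} (hν : 0 < ν) (hw : Wt χ c M) (hε : 0 < ε) :
    ∃ C : ℝ, 0 ≤ C ∧ ∀ (v f : Fin 3 → V → ℝ) (q : V → ℝ) (F : ℝ) (z : V), (∀ i, SP (v i)) →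
      SP q → (∀ i, SP (f i)) → (∀ i x, |f i x| ≤ F) →
      (∀ x, lap q x + (∑ i, ∑ j, pd i (pd j (fun y => v i y * v j y)) x) = ∑ i, pd i (f i) x) →
      RR ν χ q v z + ∑ i, ∫ x in cube, χ x * (2 * dl z (v i) x * dl z (f i) x)
        ≤ ε * BB χ v z + C * (1 + XX v) * AA χ v z + C * F ^ 2 := by
  obtain ⟨C6, h6, hC6⟩ := six
  have hM := hw.M0
  have hc := hw.c0
  set L := 165 * C6 * M with hL
  have hL0 : 0 ≤ L := by positivity
  set C' := ((3 * ν * M + 27 * M + 1 / 2) + (1 / 2 + 1 / (16 * ε * c)) * L ^ 2) / c + 39 * M + 1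
    with hC'
  refine ⟨C', by positivity, fun v f q F z hv hq hf hF heq => ?_⟩
  have hF0 : 0 ≤ F := (abs_nonneg _).trans (hF 0 0)
  set G := Real.sqrt (AA χ v z / c) with hG
  set H := Real.sqrt (BB χ v z / c) with hH
  have hA0 := AA_nonneg hv hw z
  have hB0 := BB_nonneg hv hw z
  have hG2 : c * G ^ 2 = AA χ v z := by
    rw [hG, Real.sq_sqrt (by positivity)]
    field_simp
  have hH2 : c * H ^ 2 = BB χ v z := by
    rw [hH, Real.sq_sqrt (by positivity)]
    field_simp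
  have hG0 : 0 ≤ G := Real.sqrt_nonneg _
  have hH0 : 0 ≤ H := Real.sqrt_nonneg _
  have hnG : ∀ i, nrm (dl z (v i)) ≤ G := by
    intro i
    have h1 := AA_ge hv hw z i
    rw [← hG2] at h1
    exact (pow_le_pow_iff_left₀ (nrm_nonneg _) hG0 (by norm_num)).1 (le_of_mul_le_mul_left h1 hc)
  have hnH : ∀ i, grd (dl z (v i)) ≤ H := by
    intro i
    have h1 := BB_ge hv hw z i
    rw [← hH2] at h1
    exact (pow_le_pow_iff_left₀ (grd_nonneg _) hH0 (by norm_num)).1 (le_of_mul_le_mul_left h1 hc)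
  have hX0 := XX_nonneg v
  set X := Real.sqrt (XX v) with hX
  have hX2 : X ^ 2 = XX v := Real.sq_sqrt hX0
  have hX'0 : 0 ≤ X := Real.sqrt_nonneg _
  set S := Real.sqrt (G * H) with hS
  have hS0 : 0 ≤ S := Real.sqrt_nonneg _
  have hS2 : S ^ 2 = G * H := Real.sq_sqrt (by positivity)
  have hSle : S ≤ (G + H) / 2 := by
    have : S ^ 2 ≤ ((G + H) / 2) ^ 2 := by nlinarith [sq_nonneg (G - H)]
    exact (pow_le_pow_iff_left₀ hS0 (by positivity) (by norm_num)).1 this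
  have sg : ∀ i, SP (dl z (v i)) := fun i => SP.dl (hv i) z
  -- first term
  have t1 : ∀ i, ∫ x in cube, lap χ x * dl z (v i) x ^ 2 ≤ M * G ^ 2 := by
    intro i
    have h1 : ∫ x in cube, lap χ x * dl z (v i) x ^ 2 ≤ ∫ x in cube, M * dl z (v i) x ^ 2 :=
      integral_mono (hw.sp.lap.mul (SP.sq (sg i))).int (SP.cmul (SP.sq (sg i)) M).int
        fun x => mul_le_mul_of_nonneg_right ((le_abs_self _).trans (hw.d2 x)) (sq_nonneg _)
    refine h1.trans ?_
    rw [integral_const_mul, ← nrm_sq]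
    have := hnG i
    have := nrm_nonneg (dl z (v i))
    gcongr
  have nM : ∀ i j, nrm (fun x => pd j χ x * dl z (v i) x) ≤ M * G := by
    intro i j
    refine (nrm_mul_le (hw.sp.pd j).cont (sg i).cont (hw.d1 j)).trans ?_
    exact mul_le_mul_of_nonneg_left (hnG i) hM.le
  have t2 : ∀ i j, ∫ x in cube, pd j χ x * v j x * dl z (v i) x ^ 2 ≤ C6 * X * (M * G * S) := by
    intro i j
    have h1 := hC6 (v j) (fun x => pd j χ x * dl z (v i) x) (dl z (v i)) (hv j)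
      ((hw.sp.pd j).mul (sg i)) (sg i) (int_dl (hv i) z)
    have e : ∫ x in cube, pd j χ x * v j x * dl z (v i) x ^ 2
        = ∫ x in cube, v j x * ((pd j χ x * dl z (v i) x) * dl z (v i) x) := by
      congr 1
      funext x
      ring
    rw [e]
    refine (le_abs_self _).trans (h1.trans ?_)
    have b1 := nM i j
    have b2 := hnG i
    have b3 := hnH i
    have b4 := nrm_nonneg (dl z (v i))
    have b5 := grd_nonneg (dl z (v i))
    have b6 := Y1_le_XX v j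
    have b7 : Real.sqrt (Y1 (v j)) ≤ X := Real.sqrt_le_sqrt b6
    have b8 : Real.sqrt (nrm (dl z (v i)) * grd (dl z (v i))) ≤ S := by
      apply Real.sqrt_le_sqrt
      gcongr
    have b9 := nrm_nonneg (fun x => pd j χ x * dl z (v i) x)
    gcongr
  have hq1 := press_bd hv hq hf hF heq h6 hC6 z hnG hnH
  rw [← hX, ← hS] at hq1
  have t3 : ∀ i, ∫ x in cube, 2 * (dl z q x * (pd i χ x * dl z (v i) x))
      ≤ 2 * ((26 * (C6 * X * S) + 9 * F) * (M * G)) := by
    intro i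
    rw [integral_const_mul]
    refine mul_le_mul_of_nonneg_left ?_ (by norm_num)
    refine (le_abs_self _).trans ((abs_int_mul_le (SP.dl hq z).cont
      ((hw.sp.pd i).mul (sg i)).cont).trans ?_)
    have b1 := nM i i
    have b9 := nrm_nonneg (fun x => pd i χ x * dl z (v i) x)
    have b10 := nrm_nonneg (dl z q)
    gcongr
  have t4 : ∀ i, ∫ x in cube, χ x * (2 * dl z (v i) x * dl z (f i) x)
      ≤ (∫ x in cube, χ x * dl z (v i) x ^ 2) + M * (2 * F) ^ 2 := by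
    intro i
    have h1 : ∫ x in cube, χ x * (2 * dl z (v i) x * dl z (f i) x)
        ≤ ∫ x in cube, (χ x * dl z (v i) x ^ 2 + M * dl z (f i) x ^ 2) := by
      refine integral_mono (hw.sp.mul ((SP.cmul (sg i) 2).mul (SP.dl (hf i) z))).int
        ((hw.sp.mul (SP.sq (sg i))).int.add (SP.cmul (SP.sq (SP.dl (hf i) z)) M).int) fun x => ?_
      have b1 := hw.pos x
      have b2 := hw.hi x
      have b3 : χ x * dl z (f i) x ^ 2 ≤ M * dl z (f i) x ^ 2 :=
        mul_le_mul_of_nonneg_right b2 (sq_nonneg _)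
      simp only
      nlinarith [mul_nonneg b1.le (sq_nonneg (dl z (v i) x - dl z (f i) x))]
    refine h1.trans ?_
    rw [integral_add (hw.sp.mul (SP.sq (sg i))).int (SP.cmul (SP.sq (SP.dl (hf i) z)) M).int,
      integral_const_mul, ← nrm_sq (dl z (f i))]
    have b1 := nrm_df hf hF z i
    have b2 := nrm_nonneg (dl z (f i))
    gcongr
  have s1 : ν * (∑ i, ∫ x in cube, lap χ x * dl z (v i) x ^ 2) ≤ ν * (3 * (M * G ^ 2)) := by
    refine mul_le_mul_of_nonneg_left ?_ hν.le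
    refine (Finset.sum_le_sum fun i _ => t1 i).trans (le_of_eq ?_)
    simp
  have s2 : ∑ i, ∑ j, ∫ x in cube, pd j χ x * v j x * dl z (v i) x ^ 2
      ≤ 9 * (C6 * X * (M * G * S)) := by
    refine (Finset.sum_le_sum fun i _ => Finset.sum_le_sum fun j _ => t2 i j).trans (le_of_eq ?_)
    simp
    ring
  have s3 : ∑ i, ∫ x in cube, 2 * (dl z q x * (pd i χ x * dl z (v i) x))
      ≤ 3 * (2 * ((26 * (C6 * X * S) + 9 * F) * (M * G))) := by
    refine (Finset.sum_le_sum fun i _ => t3 i).trans (le_of_eq ?_)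
    simp
  have s4 : ∑ i, ∫ x in cube, χ x * (2 * dl z (v i) x * dl z (f i) x)
      ≤ AA χ v z + 3 * (M * (2 * F) ^ 2) := by
    refine (Finset.sum_le_sum fun i _ => t4 i).trans (le_of_eq ?_)
    rw [Finset.sum_add_distrib, ← AA_eq hv hw z]
    simp
  unfold RR
  have k1 : L * X * G * S ≤ (1 / 2 + (1 / 2 + 1 / (16 * (ε * c))) * (L * X) ^ 2) * G ^ 2
      + (ε * c) * H ^ 2 := alg1 (by positivity) hG0 (by positivity) hSle
  have k2 : 54 * M * (G * F) ≤ 27 * M * G ^ 2 + 27 * M * F ^ 2 := by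
    nlinarith [mul_nonneg hM.le (sq_nonneg (G - F))]
  have k3 := alg2 (a := 3 * ν * M + 27 * M + 1 / 2) (b := (1 / 2 + 1 / (16 * (ε * c))) * L ^ 2)
    (c := c) (m := 39 * M) (XX := XX v) (G := G) (C' := C') (by positivity) (by positivity) hc hX0
    (by positivity) (by rw [hC']; ring)
  have k4 : 39 * M * F ^ 2 ≤ C' * F ^ 2 := by
    have : 39 * M ≤ C' := by
      rw [hC']
      have : 0 ≤ ((3 * ν * M + 27 * M + 1 / 2) + (1 / 2 + 1 / (16 * ε * c)) * L ^ 2) / c := by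
        positivity
      linarith
    exact mul_le_mul_of_nonneg_right this (sq_nonneg _)
  have k5 : (L * X) ^ 2 = L ^ 2 * XX v := by rw [mul_pow, hX2]
  rw [k5] at k1
  clear_value C'
  have e7 : 9 * (C6 * X * (M * G * S)) + 3 * (2 * ((26 * (C6 * X * S) + 9 * F) * (M * G)))
      = L * X * G * S + 54 * M * (G * F) := by
    rw [hL]
    ring
  rw [← hG2] at s4 ⊢
  rw [← hH2]
  linarith [s1, s2, s3, s4, k1, k2, k3, k4, e7]

end Pool.Agent.Run7.h782
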