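import Pool.Agent.Run7.h782.Kern
import Pool.Agent.W12.MD.Base

/-!
Inequalities for increments at different scales.
-/

set_option autoImplicit false

open MeasureTheory Set Metric Filter Topology
open scoped ContDiff

namespace Pool.Agent.Run7.h782

open H459R3.NS W221.NS Pool.Agent.W369.MH

theorem near {χ : V → ℝ} {c M : ℝ} (hw : Wt χ c M) :
    ∃ ρ : ℝ, 0 < ρ ∧ ∀ x y : V, ‖y‖ ≤ ρ → χ (x + y) ≤ 2 * χ x := by
  have hM := hw.M0
  have hc := hw.c0
  have hd : ∀ x, ‖fderiv ℝ χ x‖ ≤ 3 * M := by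
    intro x
    refine ContinuousLinearMap.opNorm_le_bound _ (by positivity) fun y => ?_
    rw [Pool.Agent.W12.MD.fderiv_sum, Real.norm_eq_abs]
    refine (Finset.abs_sum_le_sum_abs _ _).trans ?_
    have h1 : ∀ j, |y j * pd j χ x| ≤ M * ‖y‖ := by
      intro j
      rw [abs_mul, mul_comm]
      have h2 : |y j| ≤ ‖y‖ := norm_le_pi_norm y j
      have h3 := hw.d1 j x
      gcongr
    refine (Finset.sum_le_sum fun j _ => h1 j).trans (le_of_eq ?_)
    simp
    ring
  refine ⟨c / (3 * M), by positivity, fun x y hy => ?_⟩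
  have h1 := Convex.norm_image_sub_le_of_norm_fderiv_le (f := χ) (s := univ) (x := x) (y := x + y)
    (fun z _ => hw.sp.diff z) (fun z _ => hd z) convex_univ (mem_univ _) (mem_univ _)
  rw [add_sub_cancel_left, Real.norm_eq_abs] at h1
  have h2 : 3 * M * ‖y‖ ≤ c := by
    rw [le_div_iff₀ (by positivity)] at hy
    linarith
  have h3 := hw.lo x
  have h4 := (le_abs_self _).trans h1
  linarith

theorem ftc_sq {g : V → ℝ} (hg : SP g) (x z : V) :
    dl z g x ^ 2 ≤ ∫ s in (0 : ℝ)..1, (∑ j, z j * pd j g (x + s • z)) ^ 2 := by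
  set h : ℝ → ℝ := fun s => ∑ j, z j * pd j g (x + s • z) with hh
  have hc : Continuous h := by
    refine continuous_finsetSum _ fun j _ => continuous_const.mul ?_
    exact (hg.pd j).cont.comp (by fun_prop)
  have hd : ∀ s ∈ uIcc (0 : ℝ) 1, HasDerivAt (fun s : ℝ => g (x + s • z)) (h s) s := by
    intro s _
    have h1 : HasDerivAt (fun s : ℝ => x + s • z) z s := by
      simpa using ((hasDerivAt_id s).smul_const z).const_add x
    have h2 := (hg.diff (x + s • z)).hasFDerivAt.comp_hasDerivAt s h1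
    refine h2.congr_deriv ?_
    rw [Pool.Agent.W12.MD.fderiv_sum]
  have h1 : ∫ s in (0 : ℝ)..1, h s = dl z g x := by
    rw [intervalIntegral.integral_eq_sub_of_hasDerivAt hd (hc.intervalIntegrable _ _)]
    unfold dl
    simp
  set a := dl z g x with ha
  have h2 : 0 ≤ ∫ s in (0 : ℝ)..1, (h s - a) ^ 2 :=
    intervalIntegral.integral_nonneg zero_le_one fun s _ => sq_nonneg _
  have h3 : ∫ s in (0 : ℝ)..1, (h s - a) ^ 2
      = (∫ s in (0 : ℝ)..1, h s ^ 2) - a ^ 2 := by
    have e : ∀ s, (h s - a) ^ 2 = h s ^ 2 - 2 * a * h s + a ^ 2 := fun s => by ring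
    simp_rw [e]
    rw [intervalIntegral.integral_add, intervalIntegral.integral_sub,
      intervalIntegral.integral_const_mul, h1]
    · simp
      ring
    · exact (hc.pow 2).intervalIntegrable _ _
    · exact (continuous_const.mul hc).intervalIntegrable _ _
    · exact ((hc.pow 2).sub (continuous_const.mul hc)).intervalIntegrable _ _
    · exact continuous_const.intervalIntegrable _ _
  rw [h3] at h2
  linarith

/-- The nearness property of weights. -/
def Near (χ : V → ℝ) (ρ : ℝ) : Prop := ∀ x y : V, ‖y‖ ≤ ρ → χ (x + y) ≤ 2 * χ x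

theorem sum_sq_le (z : V) : ∑ j, z j ^ 2 ≤ 3 * ‖z‖ ^ 2 := by
  have h1 : ∀ j, z j ^ 2 ≤ ‖z‖ ^ 2 := by
    intro j
    rw [← sq_abs]
    exact pow_le_pow_left₀ (abs_nonneg _) (norm_le_pi_norm z j) 2
  refine (Finset.sum_le_sum fun j _ => h1 j).trans (le_of_eq ?_)
  simp

/-- weighted integral of the square of the gradient -/
noncomputable def GG (χ g : V → ℝ) : ℝ := ∑ j, ∫ x in cube, χ x * pd j g x ^ 2

theorem GG_nonneg {χ g : V → ℝ} (h0 : ∀ x, 0 ≤ χ x) : 0 ≤ GG χ g :=
  Finset.sum_nonneg fun _ _ => integral_nonneg fun x => mul_nonneg (h0 x) (sq_nonneg _)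

theorem tr_bd {χ : V → ℝ} {c M ρ : ℝ} (hw : Wt χ c M) (hn : Near χ ρ) {g : V → ℝ} (hg : SP g)
    {z : V} (hz : ‖z‖ ≤ ρ) :
    ∫ x in cube, χ x * dl z g x ^ 2 ≤ 6 * ‖z‖ ^ 2 * GG χ g := by
  have hχ := hw.sp.cont
  have h0 : ∀ x, 0 ≤ χ x := fun x => (hw.pos x).le
  set H : ℝ → V → ℝ := fun s x => χ x * (∑ j, z j * pd j g (x + s • z)) ^ 2 with hH
  have cH : Continuous (fun q : ℝ × V => H q.1 q.2) := by
    refine (hχ.comp continuous_snd).mul (Continuous.pow ?_ 2)
    refine continuous_finsetSum _ fun j _ => continuous_const.mul ?_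
    exact (hg.pd j).cont.comp (by fun_prop)
  have h1 : ∫ x in cube, χ x * dl z g x ^ 2 ≤ ∫ x in cube, ∫ s in (0 : ℝ)..1, H s x := by
    have cI : Continuous (fun x : V => ∫ s in (0 : ℝ)..1, H s x) :=
      intervalIntegral.continuous_parametric_intervalIntegral_of_continuous' (f := fun x s => H s x)
        (cH.comp continuous_swap) 0 1
    refine integral_mono (hw.sp.mul (SP.sq (SP.dl hg z))).int (integrableOn_cube cI) fun x => ?_
    simp only [hH]
    rw [intervalIntegral.integral_const_mul]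
    exact mul_le_mul_of_nonneg_left (ftc_sq hg x z) (h0 x)
  have h2 : ∫ s in (0 : ℝ)..1, ∫ x in cube, H s x = ∫ x in cube, ∫ s in (0 : ℝ)..1, H s x := by
    refine intervalIntegral_integral_swap ?_
    rw [Measure.prod_restrict, uIoc_of_le zero_le_one]
    have : IntegrableOn (fun q : ℝ × V => H q.1 q.2) (Icc 0 1 ×ˢ cube)
        ((volume : Measure ℝ).prod (volume : Measure V)) :=
      cH.continuousOn.integrableOn_compact (isCompact_Icc.prod cube_cpt)
    exact this.mono_set (prod_mono Ioc_subset_Icc_self subset_rfl)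
  rw [← h2] at h1
  refine h1.trans ?_
  have h3 : ∀ s ∈ Icc (0 : ℝ) 1, ∫ x in cube, H s x ≤ 6 * ‖z‖ ^ 2 * GG χ g := by
    intro s hs
    set G2 : V → ℝ := fun x => ∑ j, pd j g x ^ 2 with hG2
    have sG2 : SP G2 := SP.sum fun j _ => SP.sq (hg.pd j)
    have a1 : ∫ x in cube, H s x ≤ ∫ x in cube, (3 * ‖z‖ ^ 2) * (χ x * G2 (x + s • z)) := by
      have sh2 := SP.sh sG2 (s • z)
      refine integral_mono (integrableOn_cube (cH.comp (by fun_prop :
        Continuous fun x : V => ((s, x) : ℝ × V)))) (SP.cmul (hw.sp.mul sh2) _).int fun x => ?_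
      simp only [hH]
      have b1 : (∑ j, z j * pd j g (x + s • z)) ^ 2 ≤ (∑ j, z j ^ 2) * G2 (x + s • z) :=
        Finset.sum_mul_sq_le_sq_mul_sq _ _ _
      have b2 : (∑ j, z j ^ 2) * G2 (x + s • z) ≤ (3 * ‖z‖ ^ 2) * G2 (x + s • z) :=
        mul_le_mul_of_nonneg_right (sum_sq_le z) (Finset.sum_nonneg fun _ _ => sq_nonneg _)
      calc χ x * (∑ j, z j * pd j g (x + s • z)) ^ 2
          ≤ χ x * ((3 * ‖z‖ ^ 2) * G2 (x + s • z)) :=
            mul_le_mul_of_nonneg_left (b1.trans b2) (h0 x)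
        _ = _ := by ring
    refine a1.trans ?_
    rw [integral_const_mul]
    have a2 : ∫ x in cube, χ x * G2 (x + s • z) = ∫ x in cube, χ (x - s • z) * G2 x := by
      have s3 : SP (fun x => χ x * G2 (x + s • z)) := hw.sp.mul (SP.sh sG2 (s • z))
      rw [← int_shift s3.per (-(s • z))]
      congr 1
      funext x
      simp [sub_eq_add_neg]
    have a3 : ∫ x in cube, χ (x - s • z) * G2 x ≤ ∫ x in cube, 2 * (χ x * G2 x) := by
      have s4 : SP (fun x => χ (x - s • z)) := by
        have := SP.sh hw.sp (-(s • z))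
        have e : sh (-(s • z)) χ = fun x => χ (x - s • z) := by
          funext x
          unfold sh
          rw [sub_eq_add_neg]
        rwa [e] at this
      refine integral_mono (s4.mul sG2).int (SP.cmul (hw.sp.mul sG2) 2).int fun x => ?_
      simp only
      have b1 : χ (x - s • z) ≤ 2 * χ x := by
        have := hn x (-(s • z)) (by
          rw [norm_neg, norm_smul, Real.norm_eq_abs, abs_of_nonneg hs.1]
          exact (mul_le_of_le_one_left (norm_nonneg _) hs.2).trans hz)
        rwa [← sub_eq_add_neg] at this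
      have b2 : 0 ≤ G2 x := Finset.sum_nonneg fun _ _ => sq_nonneg _
      calc χ (x - s • z) * G2 x ≤ 2 * χ x * G2 x := mul_le_mul_of_nonneg_right b1 b2
        _ = _ := by ring
    rw [integral_const_mul] at a3
    have a4 : ∫ x in cube, χ x * G2 x = GG χ g := by
      unfold GG
      simp_rw [hG2, Finset.mul_sum]
      exact integral_finsetSum _ fun j _ => (hw.sp.mul (SP.sq (hg.pd j))).int
    rw [a2]
    rw [a4] at a3
    have : 0 ≤ 3 * ‖z‖ ^ 2 := by positivity
    nlinarith
  have cI2 : Continuous (fun s : ℝ => ∫ x in cube, H s x) :=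
    continuous_parametric_integral_of_continuous (f := fun s x => H s x) (μ := volume) cH cube_cpt
  have h4 := intervalIntegral.integral_mono_on (zero_le_one' ℝ) (cI2.intervalIntegrable 0 1)
    (continuous_const.intervalIntegrable (μ := volume) 0 1) h3
  simpa using h4

end Pool.Agent.Run7.h782
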