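import Pool.Agent.Run7.h782.Inc

/-!
Inequalities between averages at different scales.
-/

set_option autoImplicit false

open MeasureTheory Set Metric Filter Topology
open scoped ContDiff

namespace Pool.Agent.Run7.h782

open H459R3.NS W221.NS Pool.Agent.W369.MH

theorem dl_two (g : V → ℝ) (z x : V) : dl (z + z) g x = 2 * dl z g x + dl z (dl z g) x := by
  unfold dl
  rw [show x + (z + z) = x + z + z by abel]
  ring

/-- average of the square of the increment -/
noncomputable def er (φ χ : V → ℝ) (r : ℝ) (v : Fin 3 → V → ℝ) : ℝ := ∫ y, φ y * AA χ v (r • y)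

/-- average of the square of the increment of the gradient -/
noncomputable def dr (φ χ : V → ℝ) (r : ℝ) (v : Fin 3 → V → ℝ) : ℝ := ∫ y, φ y * BB χ v (r • y)

section

variable {v : Fin 3 → V → ℝ} (hv : ∀ i, SP (v i)) {φ χ : V → ℝ} (hφ : Ker φ) {c M ρ : ℝ}
  (hw : Wt χ c M) (hn : Near χ ρ)

include hv in
theorem cA (hχ : SP χ) : Continuous (fun z => AA χ v z) := by
  unfold AA
  refine continuous_parametric_integral_of_continuous
    (f := fun z x => χ x * ∑ i, dl z (v i) x ^ 2) (μ := volume) ?_ cube_cpt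
  refine (hχ.cont.comp continuous_snd).mul ?_
  refine continuous_finsetSum _ fun i _ => Continuous.pow ?_ 2
  have := (hv i).cont
  unfold dl
  fun_prop

include hv in
theorem cB (hχ : SP χ) : Continuous (fun z => BB χ v z) := by
  unfold BB
  refine continuous_parametric_integral_of_continuous
    (f := fun z x => χ x * ∑ i, ∑ j, dl z (pd j (v i)) x ^ 2) (μ := volume) ?_ cube_cpt
  refine (hχ.cont.comp continuous_snd).mul ?_
  refine continuous_finsetSum _ fun i _ => continuous_finsetSum _ fun j _ => Continuous.pow ?_ 2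
  have := ((hv i).pd j).cont
  unfold dl
  fun_prop

include hv hw hn in
theorem AA_incr {z : V} (hz : ‖z‖ ≤ ρ) :
    AA χ v z ≤ 3 / 8 * AA χ v (z + z) + 9 / 2 * ‖z‖ ^ 2 * BB χ v z := by
  rw [AA_eq hv hw, AA_eq hv hw, BB_eq hv hw, Finset.mul_sum, Finset.mul_sum,
    ← Finset.sum_add_distrib]
  refine Finset.sum_le_sum fun i _ => ?_
  have s1 : SP (dl z (v i)) := SP.dl (hv i) z
  have s2 : SP (dl z (dl z (v i))) := SP.dl s1 z
  have s3 : SP (dl (z + z) (v i)) := SP.dl (hv i) (z + z)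
  have h1 := tr_bd hw hn s1 hz
  have h2 : ∫ x in cube, χ x * dl z (v i) x ^ 2
      ≤ ∫ x in cube, (3 / 8 * (χ x * dl (z + z) (v i) x ^ 2)
        + 3 / 4 * (χ x * dl z (dl z (v i)) x ^ 2)) := by
    refine integral_mono (hw.sp.mul (SP.sq s1)).int
      ((SP.cmul (hw.sp.mul (SP.sq s3)) (3 / 8)).int.add
        (SP.cmul (hw.sp.mul (SP.sq s2)) (3 / 4)).int) fun x => ?_
    simp only
    rw [dl_two]
    have h0 := (hw.pos x).le
    have : 0 ≤ χ x * (dl z (v i) x + 3 / 2 * dl z (dl z (v i)) x) ^ 2 := by positivity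
    nlinarith
  rw [integral_add (SP.cmul (hw.sp.mul (SP.sq s3)) (3 / 8)).int
    (SP.cmul (hw.sp.mul (SP.sq s2)) (3 / 4)).int, integral_const_mul, integral_const_mul] at h2
  refine h2.trans ?_
  have h3 : GG χ (dl z (v i)) = ∑ j, ∫ x in cube, χ x * pd j (dl z (v i)) x ^ 2 := rfl
  rw [← h3]
  linarith

include hv hφ hw in
theorem er_nonneg (r : ℝ) : 0 ≤ er φ χ r v :=
  integral_nonneg fun y => mul_nonneg (hφ.nonneg y) (AA_nonneg hv hw _)

include hv hφ hw in
theorem dr_nonneg (r : ℝ) : 0 ≤ dr φ χ r v :=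
  integral_nonneg fun y => mul_nonneg (hφ.nonneg y) (BB_nonneg hv hw _)

include hv hφ hw hn in
theorem er_incr {R : ℝ} (hR : 0 < R) (hR' : ∀ y, R < ‖y‖ → φ y = 0) {r : ℝ} (hr : 0 < r)
    (hrR : r * R ≤ ρ) :
    er φ χ r v ≤ 3 / 8 * er φ χ (2 * r) v + 9 / 2 * R ^ 2 * r ^ 2 * dr φ χ r v := by
  have c1 := cA hv hw.sp
  have c2 := cB hv hw.sp
  have i1 : Integrable (fun y => φ y * AA χ v (r • y)) := hφ.int_mul (by fun_prop)
  have i2 : Integrable (fun y => φ y * AA χ v ((2 * r) • y)) := hφ.int_mul (by fun_prop)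
  have i3 : Integrable (fun y => φ y * BB χ v (r • y)) := hφ.int_mul (by fun_prop)
  unfold er dr
  rw [← integral_const_mul, ← integral_const_mul, ← integral_add (i2.const_mul _) (i3.const_mul _)]
  refine integral_mono i1 ((i2.const_mul _).add (i3.const_mul _)) fun y => ?_
  simp only
  by_cases hy : R < ‖y‖
  · rw [hR' y hy]
    simp
  · push Not at hy
    have h1 : ‖r • y‖ ≤ r * R := by
      rw [norm_smul, Real.norm_eq_abs, abs_of_pos hr]
      gcongr
    have h2 := AA_incr hv hw hn (h1.trans hrR)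
    have h3 : r • y + r • y = (2 * r) • y := by
      rw [← add_smul]
      ring_nf
    rw [h3] at h2
    have h4 : ‖r • y‖ ^ 2 ≤ R ^ 2 * r ^ 2 := by
      calc ‖r • y‖ ^ 2 ≤ (r * R) ^ 2 := pow_le_pow_left₀ (norm_nonneg _) h1 2
        _ = _ := by ring
    have h5 := BB_nonneg hv hw (r • y)
    have h6 : AA χ v (r • y) ≤ 3 / 8 * AA χ v ((2 * r) • y)
        + 9 / 2 * (R ^ 2 * r ^ 2) * BB χ v (r • y) := by
      refine h2.trans ?_
      gcongr
    have h7 := mul_le_mul_of_nonneg_left h6 (hφ.nonneg y)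
    linarith

/-- weighted square of the gradient -/
noncomputable def EN (χ : V → ℝ) (v : Fin 3 → V → ℝ) : ℝ := ∑ i, GG χ (v i)

include hw in
theorem EN_nonneg : 0 ≤ EN χ v := Finset.sum_nonneg fun i _ => GG_nonneg fun x => (hw.pos x).le

include hv hφ hw hn in
/-- small scales of a smooth field -/
theorem er_small {R : ℝ} (hR : 0 < R) (hR' : ∀ y, R < ‖y‖ → φ y = 0) {r : ℝ} (hr : 0 < r)
    (hrR : r * R ≤ ρ) :
    er φ χ r v ≤ 6 * R ^ 2 * r ^ 2 * (∫ y, φ y) * EN χ v := by
  have c1 := cA hv hw.sp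
  have i1 : Integrable (fun y => φ y * AA χ v (r • y)) := hφ.int_mul (by fun_prop)
  have i2 : Integrable φ := hφ.cont.integrable_of_hasCompactSupport hφ.cs
  have e : 6 * R ^ 2 * r ^ 2 * (∫ y, φ y) * EN χ v = ∫ y, 6 * R ^ 2 * r ^ 2 * EN χ v * φ y := by
    rw [integral_const_mul]
    ring
  rw [e]
  unfold er
  refine integral_mono i1 (i2.const_mul _) fun y => ?_
  simp only
  by_cases hy : R < ‖y‖
  · rw [hR' y hy]
    simp
  · push Not at hy
    have h1 : ‖r • y‖ ≤ r * R := by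
      rw [norm_smul, Real.norm_eq_abs, abs_of_pos hr]
      gcongr
    have h4 : ‖r • y‖ ^ 2 ≤ R ^ 2 * r ^ 2 := by
      calc ‖r • y‖ ^ 2 ≤ (r * R) ^ 2 := pow_le_pow_left₀ (norm_nonneg _) h1 2
        _ = _ := by ring
    have h2 : AA χ v (r • y) ≤ 6 * (R ^ 2 * r ^ 2) * EN χ v := by
      rw [AA_eq hv hw]
      unfold EN
      rw [Finset.mul_sum]
      refine Finset.sum_le_sum fun i _ => (tr_bd hw hn (hv i) (h1.trans hrR)).trans ?_
      have := GG_nonneg (g := v i) (χ := χ) (fun x => (hw.pos x).le)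
      gcongr
    have h7 := mul_le_mul_of_nonneg_left h2 (hφ.nonneg y)
    linarith

include hv hw in
theorem AA_le (z : V) : AA χ v z ≤ 4 * M * ∑ i, ∫ x in cube, v i x ^ 2 := by
  rw [AA_eq hv hw, Finset.mul_sum]
  refine Finset.sum_le_sum fun i _ => ?_
  have s1 := SP.sh (hv i) z
  have h1 : ∫ x in cube, χ x * dl z (v i) x ^ 2
      ≤ ∫ x in cube, (2 * M * sh z (v i) x ^ 2 + 2 * M * v i x ^ 2) := by
    refine integral_mono (hw.sp.mul (SP.sq (SP.dl (hv i) z))).int
      ((SP.cmul (SP.sq s1) (2 * M)).int.add (SP.cmul (SP.sq (hv i)) (2 * M)).int) fun x => ?_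
    simp only
    have h0 := hw.hi x
    have h2 := (hw.pos x).le
    have h3 : dl z (v i) x ^ 2 ≤ 2 * sh z (v i) x ^ 2 + 2 * v i x ^ 2 := by
      have : dl z (v i) x = sh z (v i) x - v i x := rfl
      rw [this]
      nlinarith [sq_nonneg (sh z (v i) x + v i x)]
    calc χ x * dl z (v i) x ^ 2 ≤ M * (2 * sh z (v i) x ^ 2 + 2 * v i x ^ 2) := by
          gcongr
          exact h2.trans h0
      _ = _ := by ring
  refine h1.trans (le_of_eq ?_)
  rw [integral_add (SP.cmul (SP.sq s1) (2 * M)).int (SP.cmul (SP.sq (hv i)) (2 * M)).int,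
    integral_const_mul, integral_const_mul]
  have : ∫ x in cube, sh z (v i) x ^ 2 = ∫ x in cube, v i x ^ 2 := int_sh (SP.sq (hv i)).per z
  rw [this]
  ring

include hv hφ hw in
theorem er_le (r : ℝ) :
    er φ χ r v ≤ 4 * M * (∑ i, ∫ x in cube, v i x ^ 2) * ∫ y, φ y := by
  have c1 := cA hv hw.sp
  have i1 : Integrable (fun y => φ y * AA χ v (r • y)) := hφ.int_mul (by fun_prop)
  have i2 : Integrable φ := hφ.cont.integrable_of_hasCompactSupport hφ.cs
  unfold er
  rw [← integral_const_mul]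
  refine integral_mono i1 (i2.const_mul _) fun y => ?_
  simp only
  have h7 := mul_le_mul_of_nonneg_left (AA_le hv hw (r • y)) (hφ.nonneg y)
  linarith

end

end Pool.Agent.Run7.h782
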