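import Pool.Agent.Run7.h782.Time2

/-!
Averages over the increments.
-/

set_option autoImplicit false

open MeasureTheory Set Metric Filter Topology
open scoped ContDiff

namespace Pool.Agent.Run7.h782

open H459R3.NS W221.NS Pool.Agent.W369.MH

/-- Kernels. -/
structure Ker (φ : V → ℝ) : Prop where
  smooth : ContDiff ℝ ∞ φ
  cs : HasCompactSupport φ
  nonneg : ∀ y, 0 ≤ φ y
  pos : 0 < φ 0

theorem Ker.cont {φ : V → ℝ} (h : Ker φ) : Continuous φ := h.smooth.continuous

theorem Ker.rad {φ : V → ℝ} (h : Ker φ) : ∃ R : ℝ, 0 < R ∧ ∀ y, R < ‖y‖ → φ y = 0 := by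
  obtain ⟨R, hR⟩ := h.cs.isBounded.subset_closedBall 0
  refine ⟨max R 1, by positivity, fun y hy => ?_⟩
  by_contra hne
  have h1 : y ∈ tsupport φ := subset_tsupport _ hne
  have h2 := hR h1
  rw [mem_closedBall_zero_iff] at h2
  exact absurd (h2.trans (le_max_left R 1)) (not_le.2 hy)

theorem Ker.int_mul {φ : V → ℝ} (h : Ker φ) {g : V → ℝ} (hg : Continuous g) :
    Integrable (fun y => φ y * g y) :=
  (h.cont.mul hg).integrable_of_hasCompactSupport h.cs.mul_right

theorem Ker.mass_pos {φ : V → ℝ} (h : Ker φ) : 0 < ∫ y, φ y := by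
  refine (h.cont.integral_pos_of_hasCompactSupport_nonneg_nonzero h.cs h.nonneg (x := 0) h.pos.ne')

/-- Fubini. -/
theorem fub {φ : V → ℝ} (hφ : Continuous φ) (hs : HasCompactSupport φ) {H : V → V → ℝ}
    (hH : Continuous (fun q : V × V => H q.1 q.2)) :
    ∫ y, φ y * ∫ x in cube, H y x = ∫ x in cube, ∫ y, φ y * H y x := by
  have h1 : ∀ y, φ y * ∫ x in cube, H y x = ∫ x in cube, φ y * H y x := fun y =>
    (integral_const_mul _ _).symm
  simp_rw [h1]
  have h2 : Integrable (Function.uncurry fun y x => φ y * H y x)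
      ((volume : Measure V).prod (volume.restrict cube)) := by
    have h3 : IntegrableOn (fun q : V × V => φ q.1 * H q.1 q.2) (tsupport φ ×ˢ cube)
        ((volume : Measure V).prod volume) := by
      refine ContinuousOn.integrableOn_compact (hs.isCompact.prod cube_cpt) ?_
      exact ((hφ.comp continuous_fst).mul hH).continuousOn
    have h4 : IntegrableOn (fun q : V × V => φ q.1 * H q.1 q.2) (univ ×ˢ cube)
        ((volume : Measure V).prod volume) := by
      refine h3.of_forall_sdiff_eq_zero (MeasurableSet.univ.prod cube_meas) ?_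
      rintro ⟨y, x⟩ ⟨⟨-, hx⟩, hn⟩
      have : y ∉ tsupport φ := fun hy => hn ⟨hy, hx⟩
      simp only
      rw [image_eq_zero_of_notMem_tsupport this, zero_mul]
    unfold IntegrableOn at h4
    rw [← Measure.prod_restrict, Measure.restrict_univ] at h4
    exact h4
  exact integral_integral_swap h2

/-- the scaled increment of a smooth function is smooth in the direction -/
theorem sm_inc {g : V → ℝ} (hg : SP g) (r : ℝ) (x : V) :
    ContDiff ℝ ∞ (fun y : V => dl (r • y) g x) := by
  unfold dl
  have h1 : ContDiff ℝ ∞ (fun y : V => x + r • y) := contDiff_const.add (contDiff_id.const_smul r)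
  exact (hg.smooth.comp h1).sub contDiff_const

theorem pd_inc {g : V → ℝ} (hg : SP g) (r : ℝ) (x : V) (j : Fin 3) (y : V) :
    pd j (fun y : V => dl (r • y) g x) y = r * sh (r • y) (pd j g) x := by
  unfold dl sh pd
  have h1 : HasFDerivAt (fun y : V => x + r • y) (r • ContinuousLinearMap.id ℝ V) y :=
    ((hasFDerivAt_id y).const_smul r).const_add x
  have h2 : HasFDerivAt (fun y : V => g (x + r • y) - g x) _ y :=
    ((hg.diff (x + r • y)).hasFDerivAt.comp y h1).sub_const (g x)
  rw [h2.fderiv]
  simp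

theorem pd_mul_cd {f g : V → ℝ} (hf : ContDiff ℝ ∞ f) (hg : ContDiff ℝ ∞ g) (j : Fin 3) (x : V) :
    pd j (fun y => f y * g y) x = pd j f x * g x + f x * pd j g x := by
  unfold pd
  have h1 : HasFDerivAt (fun y => f y * g y) _ x :=
    (hf.differentiable (by simp) x).hasFDerivAt.mul (hg.differentiable (by simp) x).hasFDerivAt
  rw [h1.fderiv]
  simp
  ring

theorem sm_pd {f : V → ℝ} (hf : ContDiff ℝ ∞ f) (j : Fin 3) : ContDiff ℝ ∞ (pd j f) := by
  unfold pd
  exact (hf.fderiv_right (m := ∞) (by simp)).clm_apply contDiff_const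

theorem cs_pd {f : V → ℝ} (hf : HasCompactSupport f) (j : Fin 3) : HasCompactSupport (pd j f) :=
  hf.fderiv_apply ℝ (Pi.single j 1)

/-- integration by parts in the increment -/
theorem ibp_y {φ g : V → ℝ} (hφ : ContDiff ℝ ∞ φ) (hs : HasCompactSupport φ)
    (hg : ContDiff ℝ ∞ g) (j : Fin 3) : ∫ y, φ y * pd j g y = -∫ y, pd j φ y * g y := by
  have h1 := Pool.Agent.W12.MD.int_pd_zero (f := fun y => φ y * g y) (hφ.mul hg) hs.mul_right j
  simp_rw [pd_mul_cd hφ hg] at h1
  have i1 : Integrable (fun y => pd j φ y * g y) :=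
    ((sm_pd hφ j).continuous.mul hg.continuous).integrable_of_hasCompactSupport
      (cs_pd hs j).mul_right
  have i2 : Integrable (fun y => φ y * pd j g y) :=
    (hφ.continuous.mul (sm_pd hg j).continuous).integrable_of_hasCompactSupport hs.mul_right
  rw [integral_add i1 i2] at h1
  linarith


theorem co_y {g : V → ℝ} (hg : Continuous g) (r : ℝ) :
    Continuous (fun q : V × V => dl (r • q.1) g q.2) := by
  unfold dl
  fun_prop

theorem co_y' {g : V → ℝ} (hg : Continuous g) (r : ℝ) :
    Continuous (fun q : V × V => sh (r • q.1) g q.2) := by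
  unfold sh
  fun_prop

section

variable {v : Fin 3 → V → ℝ} (hv : ∀ i, SP (v i)) (hdiv : ∀ x, ∑ i, pd i (v i) x = 0)
  {φ χ : V → ℝ} (hφ : Ker φ) (hχ : SP χ)

/-- the flux -/
noncomputable def fx (φ χ : V → ℝ) (r : ℝ) (v : Fin 3 → V → ℝ) : ℝ :=
  r⁻¹ * ∫ y, ∫ x in cube, χ x * ((∑ j, pd j φ y * dl (r • y) (v j) x)
    * ∑ i, dl (r • y) (v i) x ^ 2)

include hv hdiv hφ hχ in
theorem fx_eq {r : ℝ} (hr : r ≠ 0) : fx φ χ r v = -∫ y, φ y * NN χ v (r • y) := by
  set P : Fin 3 → V → V → ℝ := fun j y x =>
    χ x * (dl (r • y) (v j) x * ∑ i, dl (r • y) (v i) x ^ 2) with hP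
  have cP : ∀ j, Continuous (fun q : V × V => P j q.1 q.2) := by
    intro j
    have c1 := hχ.cont
    refine (c1.comp continuous_snd).mul ((co_y (hv j).cont r).mul ?_)
    exact continuous_finsetSum _ fun i _ => (co_y (hv i).cont r).pow 2
  have cPi : ∀ j, Continuous (fun y : V => ∫ x in cube, P j y x) := fun j =>
    continuous_parametric_integral_of_continuous (f := fun y x => P j y x) (μ := volume) (cP j)
      cube_cpt
  have e1 : ∀ y, ∫ x in cube, χ x * ((∑ j, pd j φ y * dl (r • y) (v j) x)
      * ∑ i, dl (r • y) (v i) x ^ 2) = ∑ j, pd j φ y * ∫ x in cube, P j y x := by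
    intro y
    simp_rw [← integral_const_mul]
    rw [← integral_finsetSum]
    · congr 1
      funext x
      rw [Finset.sum_mul, Finset.mul_sum]
      refine Finset.sum_congr rfl fun j _ => ?_
      rw [hP]
      ring
    · intro j _
      refine integrableOn_cube (continuous_const.mul ?_)
      exact (cP j).comp (by fun_prop : Continuous fun x : V => ((y, x) : V × V))
  have i1 : ∀ j, Integrable (fun y => pd j φ y * ∫ x in cube, P j y x) := fun j =>
    ((sm_pd hφ.smooth j).continuous.mul (cPi j)).integrable_of_hasCompactSupport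
      (cs_pd hφ.cs j).mul_right
  unfold fx
  simp_rw [e1]
  rw [integral_finsetSum _ fun j _ => i1 j]
  have e2 : ∀ j, ∫ y, pd j φ y * ∫ x in cube, P j y x
      = ∫ x in cube, -∫ y, φ y * pd j (fun y => P j y x) y := by
    intro j
    rw [fub (sm_pd hφ.smooth j).continuous (cs_pd hφ.cs j) (cP j)]
    congr 1
    funext x
    have sP : ContDiff ℝ ∞ (fun y => P j y x) := by
      refine contDiff_const.mul ((sm_inc (hv j) r x).mul ?_)
      exact ContDiff.sum fun i _ => (sm_inc (hv i) r x).pow 2
    rw [ibp_y hφ.smooth hφ.cs sP j, neg_neg]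
  simp_rw [e2]
  have pdP : ∀ x y, ∑ j, pd j (fun y => P j y x) y = r * (χ x * ∑ i, ∑ j, 2 * (dl (r • y) (v i) x
      * (dl (r • y) (v j) x * sh (r • y) (pd j (v i)) x))) := by
    intro x y
    have a1 : ∀ j, pd j (fun y => P j y x) y
        = χ x * (r * sh (r • y) (pd j (v j)) x * (∑ i, dl (r • y) (v i) x ^ 2)
          + dl (r • y) (v j) x * ∑ i, 2 * dl (r • y) (v i) x * (r * sh (r • y) (pd j (v i)) x)) := by
      intro j
      have s1 := sm_inc (hv j) r x
      have s2 : ∀ i, ContDiff ℝ ∞ (fun y : V => dl (r • y) (v i) x ^ 2) := fun i =>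
        (sm_inc (hv i) r x).pow 2
      have s3 : ContDiff ℝ ∞ (fun y : V => ∑ i, dl (r • y) (v i) x ^ 2) :=
        ContDiff.sum fun i _ => s2 i
      have b1 : pd j (fun y : V => ∑ i, dl (r • y) (v i) x ^ 2) y
          = ∑ i, 2 * dl (r • y) (v i) x * (r * sh (r • y) (pd j (v i)) x) := by
        have b2 : pd j (fun y : V => ∑ i, dl (r • y) (v i) x ^ 2) y
            = ∑ i, pd j (fun y : V => dl (r • y) (v i) x ^ 2) y := by
          unfold pd
          have : HasFDerivAt (fun y : V => ∑ i, dl (r • y) (v i) x ^ 2) _ y :=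
            HasFDerivAt.fun_sum fun i _ => ((s2 i).differentiable (by simp) y).hasFDerivAt
          rw [this.fderiv]
          simp
        rw [b2]
        refine Finset.sum_congr rfl fun i _ => ?_
        have b3 : (fun y : V => dl (r • y) (v i) x ^ 2)
            = fun y : V => dl (r • y) (v i) x * dl (r • y) (v i) x := by
          funext y
          ring
        rw [b3, pd_mul_cd (sm_inc (hv i) r x) (sm_inc (hv i) r x), pd_inc (hv i)]
        ring
      rw [hP]
      simp only
      rw [pd_mul_cd contDiff_const (s1.mul s3), pd_mul_cd s1 s3, b1, pd_inc (hv j)]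
      have : pd j (fun _ : V => χ x) y = 0 := by
        unfold pd
        simp
      rw [this]
      ring
    simp_rw [a1]
    rw [← Finset.mul_sum, Finset.sum_add_distrib]
    have a2 : ∑ j, r * sh (r • y) (pd j (v j)) x * (∑ i, dl (r • y) (v i) x ^ 2) = 0 := by
      rw [← Finset.sum_mul, ← Finset.mul_sum, div_sh hdiv, mul_zero, zero_mul]
    rw [a2, zero_add]
    have a3 : ∑ j, dl (r • y) (v j) x * ∑ i, 2 * dl (r • y) (v i) x
          * (r * sh (r • y) (pd j (v i)) x)
        = r * ∑ i, ∑ j, 2 * (dl (r • y) (v i) x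
          * (dl (r • y) (v j) x * sh (r • y) (pd j (v i)) x)) := by
      simp_rw [Finset.mul_sum]
      rw [Finset.sum_comm]
      exact Finset.sum_congr rfl fun i _ => Finset.sum_congr rfl fun j _ => by ring
    rw [a3]
    ring
  have cN : Continuous (fun q : V × V => χ q.2 * ∑ i, ∑ j, 2 * (dl (r • q.1) (v i) q.2
      * (dl (r • q.1) (v j) q.2 * sh (r • q.1) (pd j (v i)) q.2))) := by
    refine (hχ.cont.comp continuous_snd).mul ?_
    refine continuous_finsetSum _ fun i _ => continuous_finsetSum _ fun j _ => ?_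
    exact continuous_const.mul ((co_y (hv i).cont r).mul ((co_y (hv j).cont r).mul
      (co_y' ((hv i).pd j).cont r)))
  unfold NN
  rw [fub hφ.cont hφ.cs cN]
  have sPj : ∀ j x, ContDiff ℝ ∞ (fun y => P j y x) := by
    intro j x
    refine contDiff_const.mul ((sm_inc (hv j) r x).mul ?_)
    exact ContDiff.sum fun i _ => (sm_inc (hv i) r x).pow 2
  have i2 : ∀ x j, Integrable (fun y => φ y * pd j (fun y => P j y x) y) := fun x j =>
    (hφ.cont.mul (sm_pd (sPj j x) j).continuous).integrable_of_hasCompactSupport hφ.cs.mul_right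
  have e3 : ∀ x, ∑ j, ∫ y, φ y * pd j (fun y => P j y x) y
      = r * ∫ y, φ y * (χ x * ∑ i, ∑ j, 2 * (dl (r • y) (v i) x
      * (dl (r • y) (v j) x * sh (r • y) (pd j (v i)) x))) := by
    intro x
    rw [← integral_finsetSum _ fun j _ => i2 x j, ← integral_const_mul]
    congr 1
    funext y
    rw [← Finset.mul_sum, pdP]
    ring
  have e4 : ∑ j, ∫ x in cube, -∫ y, φ y * pd j (fun y => P j y x) y
      = ∫ x in cube, -∑ j, ∫ y, φ y * pd j (fun y => P j y x) y := by
    rw [← integral_finsetSum]
    · simp_rw [Finset.sum_neg_distrib]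
    · intro j _
      refine Integrable.neg ?_
      have h2 : ∀ x, ∫ y, φ y * pd j (fun y => P j y x) y = -∫ y, pd j φ y * P j y x := fun x =>
        ibp_y hφ.smooth hφ.cs (sPj j x) j
      simp_rw [h2]
      refine Integrable.neg ?_
      refine integrableOn_cube ?_
      have h3 : Continuous (fun x : V => ∫ y in tsupport φ, pd j φ y * P j y x) :=
        continuous_parametric_integral_of_continuous (f := fun x y => pd j φ y * P j y x)
          (μ := volume) (((sm_pd hφ.smooth j).continuous.comp continuous_snd).mul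
            ((cP j).comp continuous_swap)) hφ.cs.isCompact
      have h4 : (fun x : V => ∫ y in tsupport φ, pd j φ y * P j y x)
          = fun x => ∫ y, pd j φ y * P j y x := by
        funext x
        refine setIntegral_eq_integral_of_forall_compl_eq_zero fun y hy => ?_
        have : pd j φ y = 0 := by
          have h5 : y ∉ tsupport (fderiv ℝ φ) := fun h => hy (tsupport_fderiv_subset ℝ h)
          have h6 := image_eq_zero_of_notMem_tsupport h5
          unfold pd
          rw [h6]
          simp
        rw [this, zero_mul]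
      rw [← h4]
      exact h3
  rw [e4]
  simp_rw [e3]
  rw [integral_neg, integral_const_mul]
  field_simp

end

end Pool.Agent.Run7.h782
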