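import Pool.Agent.Run7.h782.Inc2

/-!
The gradient is bounded by averages of increments.
-/

set_option autoImplicit false

open MeasureTheory Set Metric Filter Topology
open scoped ContDiff

namespace Pool.Agent.Run7.h782

open H459R3.NS W221.NS Pool.Agent.W369.MH

/-- weighted Cauchy-Schwarz inequality -/
theorem csw {a h : V → ℝ} (ha : Continuous a) (hs : HasCompactSupport a) (h0 : ∀ y, 0 ≤ a y)
    (hh : Continuous h) : (∫ y, a y * h y) ^ 2 ≤ (∫ y, a y) * ∫ y, a y * h y ^ 2 := by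
  have i1 : Integrable a := ha.integrable_of_hasCompactSupport hs
  have i2 : Integrable (fun y => a y * h y) := (ha.mul hh).integrable_of_hasCompactSupport hs.mul_right
  have i3 : Integrable (fun y => a y * h y ^ 2) :=
    (ha.mul (hh.pow 2)).integrable_of_hasCompactSupport hs.mul_right
  have key : ∀ l : ℝ, 0 ≤ (∫ y, a y) * (l * l) + (2 * ∫ y, a y * h y) * l
      + ∫ y, a y * h y ^ 2 := by
    intro l
    have h1 : 0 ≤ ∫ y, a y * (l + h y) ^ 2 :=
      integral_nonneg fun y => mul_nonneg (h0 y) (sq_nonneg _)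
    have e : ∀ y, a y * (l + h y) ^ 2 = (l * l) * a y + (2 * l) * (a y * h y) + a y * h y ^ 2 :=
      fun y => by ring
    simp_rw [e] at h1
    have j1 : Integrable (fun y => (l * l) * a y + (2 * l) * (a y * h y)) :=
      (i1.const_mul _).add (i2.const_mul _)
    rw [integral_add j1 i3, integral_add (i1.const_mul _) (i2.const_mul _), integral_const_mul,
      integral_const_mul] at h1
    linarith
  have := discrim_le_zero key
  unfold discrim at this
  linarith

section

variable {v : Fin 3 → V → ℝ} (hv : ∀ i, SP (v i)) {φ χ : V → ℝ} (hφ : Ker φ) {c M ρ : ℝ}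
  (hw : Wt χ c M)

include hv hφ in
theorem low_pt {r : ℝ} (hr : 0 < r) (i j : Fin 3) (x : V) :
    (∫ y, φ y) ^ 2 * pd j (v i) x ^ 2
      ≤ 2 * (∫ y, φ y) * (∫ y, φ y * dl (r • y) (pd j (v i)) x ^ 2)
        + 2 * r⁻¹ ^ 2 * (∫ y, |pd j φ y|) * ∫ y, |pd j φ y| * dl (r • y) (v i) x ^ 2 := by
  set g := pd j (v i) with hg
  have sg : SP g := (hv i).pd j
  have h1 := ibp_y hφ.smooth hφ.cs (sm_inc (hv i) r x) j
  simp_rw [pd_inc (hv i)] at h1
  have c1 : Continuous (fun y : V => sh (r • y) g x) := by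
    have := sg.cont
    unfold sh
    fun_prop
  have c2 : Continuous (fun y : V => dl (r • y) g x) := by
    have := sg.cont
    unfold dl
    fun_prop
  have c3 : Continuous (fun y : V => dl (r • y) (v i) x) := (sm_inc (hv i) r x).continuous
  have i0 : Integrable φ := hφ.cont.integrable_of_hasCompactSupport hφ.cs
  have i1 := hφ.int_mul c1
  have i2 := hφ.int_mul c2
  set P := ∫ y, φ y * dl (r • y) g x with hP
  set Q := ∫ y, pd j φ y * dl (r • y) (v i) x with hQ
  have h2 : (∫ y, φ y) * g x = -r⁻¹ * Q - P := by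
    have e1 : ∫ y, φ y * (r * sh (r • y) g x) = r * ∫ y, φ y * sh (r • y) g x := by
      rw [← integral_const_mul]
      congr 1
      funext y
      ring
    rw [e1] at h1
    have e2 : P = (∫ y, φ y * sh (r • y) g x) - (∫ y, φ y) * g x := by
      rw [hP, ← integral_mul_const, ← integral_sub i1 (i0.mul_const _)]
      congr 1
      funext y
      unfold dl sh
      ring
    have e3 : ∫ y, φ y * sh (r • y) g x = -r⁻¹ * Q := by
      field_simp
      linarith
    rw [e2, e3]
    ring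
  have h3 : P ^ 2 ≤ (∫ y, φ y) * ∫ y, φ y * dl (r • y) g x ^ 2 := csw hφ.cont hφ.cs hφ.nonneg c2
  have h4 : Q ^ 2 ≤ (∫ y, |pd j φ y|) * ∫ y, |pd j φ y| * dl (r • y) (v i) x ^ 2 := by
    have cp := (sm_pd hφ.smooth j).continuous
    have sp := cs_pd hφ.cs j
    have b1 : |Q| ≤ ∫ y, |pd j φ y| * |dl (r • y) (v i) x| := by
      rw [hQ]
      refine (abs_integral_le_integral_abs).trans (le_of_eq ?_)
      congr 1
      funext y
      exact abs_mul _ _
    have b2 := csw (a := fun y => |pd j φ y|) (h := fun y => |dl (r • y) (v i) x|) cp.abs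
      (sp.comp_left abs_zero) (fun y => abs_nonneg _) c3.abs
    simp_rw [sq_abs] at b2
    refine le_trans ?_ b2
    rw [← sq_abs Q]
    exact pow_le_pow_left₀ (abs_nonneg _) b1 2
  have h5 : (∫ y, φ y) ^ 2 * g x ^ 2 ≤ 2 * P ^ 2 + 2 * r⁻¹ ^ 2 * Q ^ 2 := by
    have : (∫ y, φ y) ^ 2 * g x ^ 2 = (-r⁻¹ * Q - P) ^ 2 := by
      rw [← h2]
      ring
    rw [this]
    nlinarith [sq_nonneg (-r⁻¹ * Q + P)]
  have h6 : 0 ≤ 2 * r⁻¹ ^ 2 := by positivity
  nlinarith

include hv hφ hw in
theorem low1 {r : ℝ} (hr : 0 < r) :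
    (∫ y, φ y) ^ 2 * EN χ v ≤ 2 * (∫ y, φ y) * dr φ χ r v
      + 2 * r⁻¹ ^ 2 * ∑ j, (∫ y, |pd j φ y|) * ∫ y, |pd j φ y| * AA χ v (r • y) := by
  set m := ∫ y, φ y with hm
  have h1 : ∀ i j, m ^ 2 * ∫ x in cube, χ x * pd j (v i) x ^ 2
      ≤ 2 * m * (∫ y, φ y * ∫ x in cube, χ x * dl (r • y) (pd j (v i)) x ^ 2)
        + 2 * r⁻¹ ^ 2 * ((∫ y, |pd j φ y|) * ∫ y, |pd j φ y| *
          ∫ x in cube, χ x * dl (r • y) (v i) x ^ 2) := by
    intro i j
    have sg := (hv i).pd j
    have cχ := hw.sp.cont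
    have cp := (sm_pd hφ.smooth j).continuous
    have sp := cs_pd hφ.cs j
    have cH1 : Continuous (fun q : V × V => χ q.2 * dl (r • q.1) (pd j (v i)) q.2 ^ 2) :=
      (cχ.comp continuous_snd).mul ((co_y sg.cont r).pow 2)
    have cH2 : Continuous (fun q : V × V => χ q.2 * dl (r • q.1) (v i) q.2 ^ 2) :=
      (cχ.comp continuous_snd).mul ((co_y (hv i).cont r).pow 2)
    rw [fub hφ.cont hφ.cs cH1, fub cp.abs (sp.comp_left abs_zero) cH2]
    have cI : ∀ (a : V → ℝ), Continuous a → HasCompactSupport a → ∀ H : V → V → ℝ,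
        Continuous (fun q : V × V => H q.1 q.2) → Continuous (fun x : V => ∫ y, a y * H y x) := by
      intro a ha hs H hH
      have h3 : Continuous (fun x : V => ∫ y in tsupport a, a y * H y x) :=
        continuous_parametric_integral_of_continuous (f := fun x y => a y * H y x)
          (μ := volume) ((ha.comp continuous_snd).mul (hH.comp continuous_swap)) hs.isCompact
      have h4 : (fun x : V => ∫ y in tsupport a, a y * H y x) = fun x => ∫ y, a y * H y x := by
        funext x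
        refine setIntegral_eq_integral_of_forall_compl_eq_zero fun y hy => ?_
        rw [image_eq_zero_of_notMem_tsupport hy, zero_mul]
      rw [← h4]
      exact h3
    have I1 := cI φ hφ.cont hφ.cs (fun y x => χ x * dl (r • y) (pd j (v i)) x ^ 2) cH1
    have I2 := cI (fun y => |pd j φ y|) cp.abs (sp.comp_left abs_zero)
      (fun y x => χ x * dl (r • y) (v i) x ^ 2) cH2
    set P : V → ℝ := fun x => ∫ y, φ y * (χ x * dl (r • y) (pd j (v i)) x ^ 2) with hPd
    set Q : V → ℝ := fun x => ∫ y, |pd j φ y| * (χ x * dl (r • y) (v i) x ^ 2) with hQd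
    set K := ∫ y, |pd j φ y| with hKd
    have j1 : IntegrableOn (fun x => 2 * m * P x) cube := integrableOn_cube (continuous_const.mul I1)
    have j2 : IntegrableOn (fun x => 2 * r⁻¹ ^ 2 * (K * Q x)) cube :=
      integrableOn_cube (continuous_const.mul (continuous_const.mul I2))
    have j3 : ∫ x in cube, (2 * m * P x + 2 * r⁻¹ ^ 2 * (K * Q x))
        = 2 * m * (∫ x in cube, P x) + 2 * r⁻¹ ^ 2 * (K * ∫ x in cube, Q x) := by
      rw [integral_add j1 j2, integral_const_mul, integral_const_mul, integral_const_mul]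
    rw [← j3, ← integral_const_mul]
    refine integral_mono (SP.cmul (hw.sp.mul (SP.sq sg)) _).int (j1.add j2) fun x => ?_
    simp only
    have h2 := mul_le_mul_of_nonneg_left (low_pt hv hφ hr i j x) (hw.pos x).le
    have e1 : ∫ y, φ y * (χ x * dl (r • y) (pd j (v i)) x ^ 2)
        = χ x * ∫ y, φ y * dl (r • y) (pd j (v i)) x ^ 2 := by
      rw [← integral_const_mul]
      congr 1
      funext y
      ring
    have e2 : ∫ y, |pd j φ y| * (χ x * dl (r • y) (v i) x ^ 2)
        = χ x * ∫ y, |pd j φ y| * dl (r • y) (v i) x ^ 2 := by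
      rw [← integral_const_mul]
      congr 1
      funext y
      ring
    rw [hPd, hQd]
    simp only
    rw [e1, e2]
    linarith
  have h2 : m ^ 2 * EN χ v = ∑ i, ∑ j, m ^ 2 * ∫ x in cube, χ x * pd j (v i) x ^ 2 := by
    unfold EN GG
    simp_rw [Finset.mul_sum]
  have h3 : dr φ χ r v = ∑ i, ∑ j, ∫ y, φ y * ∫ x in cube, χ x * dl (r • y) (pd j (v i)) x ^ 2 := by
    unfold dr
    simp_rw [BB_eq hv hw, fun i => pd_dl (hv i), Finset.mul_sum]
    have cc : ∀ i j, Integrable (fun y => φ y * ∫ x in cube, χ x * dl (r • y) (pd j (v i)) x ^ 2) := by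
      intro i j
      refine hφ.int_mul ?_
      refine continuous_parametric_integral_of_continuous
        (f := fun y x => χ x * dl (r • y) (pd j (v i)) x ^ 2) (μ := volume) ?_ cube_cpt
      exact (hw.sp.cont.comp continuous_snd).mul ((co_y ((hv i).pd j).cont r).pow 2)
    rw [integral_finsetSum _ fun i _ => integrable_finsetSum _ fun j _ => cc i j]
    exact Finset.sum_congr rfl fun i _ => integral_finsetSum _ fun j _ => cc i j
  have h4 : ∀ j, ∫ y, |pd j φ y| * AA χ v (r • y)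
      = ∑ i, ∫ y, |pd j φ y| * ∫ x in cube, χ x * dl (r • y) (v i) x ^ 2 := by
    intro j
    simp_rw [AA_eq hv hw, Finset.mul_sum]
    refine integral_finsetSum _ fun i _ => ?_
    have cp := (sm_pd hφ.smooth j).continuous
    have sp := cs_pd hφ.cs j
    have c1 : Continuous (fun y : V => ∫ x in cube, χ x * dl (r • y) (v i) x ^ 2) := by
      refine continuous_parametric_integral_of_continuous
        (f := fun y x => χ x * dl (r • y) (v i) x ^ 2) (μ := volume) ?_ cube_cpt
      exact (hw.sp.cont.comp continuous_snd).mul ((co_y (hv i).cont r).pow 2)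
    exact (cp.abs.mul c1).integrable_of_hasCompactSupport
      (HasCompactSupport.mul_right (sp.comp_left abs_zero))
  rw [h2, h3]
  simp_rw [h4]
  refine (Finset.sum_le_sum fun i _ => Finset.sum_le_sum fun j _ => h1 i j).trans (le_of_eq ?_)
  simp_rw [Finset.sum_add_distrib, Finset.mul_sum]
  congr 1
  rw [Finset.sum_comm]

end

/-- The gradient is bounded by averages of increments. -/
theorem low {φ : V → ℝ} (hφ : Ker φ) : ∃ L₀ : ℝ, 1 ≤ L₀ ∧ ∀ L, L₀ ≤ L → ∃ Λ : ℝ, 0 ≤ Λ ∧
    ∀ (v : Fin 3 → V → ℝ) (χ : V → ℝ) (c M : ℝ), (∀ i, SP (v i)) → Wt χ c M → ∀ r : ℝ, 0 < r →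
      (∫ y, φ y) ^ 2 * EN χ v ≤ 2 * (∫ y, φ y) * dr φ χ r v + Λ / r ^ 2 * er φ χ (L * r) v := by
  obtain ⟨R, hR, hR'⟩ := hφ.rad
  have hca : ContinuousAt φ 0 := hφ.cont.continuousAt
  obtain ⟨δ, hδ, hδ'⟩ := Metric.continuousAt_iff.1 hca (φ 0 / 2) (half_pos hφ.pos)
  have hM1 : ∃ M1 : ℝ, 0 ≤ M1 ∧ ∀ j y, |pd j φ y| ≤ M1 := by
    have h1 : ∀ j, ∃ m1 : ℝ, ∀ y, |pd j φ y| ≤ m1 := by
      intro j
      obtain ⟨m1, h2⟩ := (sm_pd hφ.smooth j).continuous.bounded_above_of_compact_support
        (cs_pd hφ.cs j)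
      exact ⟨m1, fun y => by simpa using h2 y⟩
    choose m1 h2 using h1
    refine ⟨∑ j, |m1 j|, by positivity, fun j y => (h2 j y).trans ((le_abs_self _).trans ?_)⟩
    exact Finset.single_le_sum (f := fun j => |m1 j|) (fun _ _ => abs_nonneg _) (Finset.mem_univ j)
  obtain ⟨M1, hM0, hM1⟩ := hM1
  have hL1 : 1 ≤ 1 + 2 * R / δ := by
    have : 0 ≤ 2 * R / δ := by positivity
    linarith
  refine ⟨1 + 2 * R / δ, hL1, fun L hL => ?_⟩
  have hL0 : 0 < L := by linarith
  have hphi : ∀ y : V, ‖y‖ ≤ R → φ 0 / 2 ≤ φ (L⁻¹ • y) := by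
    intro y hy
    have h1 : dist (L⁻¹ • y) 0 < δ := by
      rw [dist_zero_right, norm_smul, Real.norm_eq_abs, abs_of_pos (inv_pos.2 hL0),
        inv_mul_lt_iff₀ hL0]
      have : δ + 2 * R ≤ L * δ := by
        calc δ + 2 * R = (1 + 2 * R / δ) * δ := by field_simp
          _ ≤ L * δ := by gcongr
      linarith
    have h2 := hδ' h1
    rw [Real.dist_eq, abs_lt] at h2
    linarith [h2.1]
  have hpd0 : ∀ j y, R < ‖y‖ → pd j φ y = 0 := by
    intro j y hy
    have h1 : φ =ᶠ[𝓝 y] fun _ => (0 : ℝ) := by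
      filter_upwards [(isOpen_lt continuous_const continuous_norm).mem_nhds hy] with w hw
      exact hR' w hw
    unfold pd
    rw [h1.fderiv_eq]
    simp
  set K := ∑ j, ∫ y, |pd j φ y| with hK
  have hK0 : 0 ≤ K := Finset.sum_nonneg fun _ _ => integral_nonneg fun _ => abs_nonneg _
  have hφ0 := hφ.pos
  refine ⟨2 * (K * (2 * M1 / φ 0)) * L ^ 3, by positivity,
    fun v χ c M hv hw r hr => ?_⟩
  refine (low1 hv hφ hw hr).trans ?_
  have c1 := cA hv hw.sp
  have h1 : ∀ j, ∫ y, |pd j φ y| * AA χ v (r • y)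
      ≤ (2 * M1 / φ 0) * ∫ y, φ (L⁻¹ • y) * AA χ v (r • y) := by
    intro j
    have cp := (sm_pd hφ.smooth j).continuous
    have sp := cs_pd hφ.cs j
    have hcs2 : HasCompactSupport (fun y : V => φ (L⁻¹ • y)) :=
      hφ.cs.comp_smul (inv_ne_zero hL0.ne')
    have cφ := hφ.cont
    have i2 : Integrable (fun y => φ (L⁻¹ • y) * AA χ v (r • y)) :=
      (Continuous.mul (by fun_prop) (by fun_prop)).integrable_of_hasCompactSupport hcs2.mul_right
    have i1 : Integrable (fun y => |pd j φ y| * AA χ v (r • y)) :=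
      (cp.abs.mul (by fun_prop)).integrable_of_hasCompactSupport
        (HasCompactSupport.mul_right (sp.comp_left abs_zero))
    rw [← integral_const_mul]
    refine integral_mono i1 (i2.const_mul _) fun y => ?_
    simp only
    have hA := AA_nonneg hv hw (r • y)
    by_cases hy : R < ‖y‖
    · rw [hpd0 j y hy, abs_zero, zero_mul]
      have := hφ.nonneg (L⁻¹ • y)
      positivity
    · push Not at hy
      have b1 := hphi y hy
      have b2 := hM1 j y
      have b3 : |pd j φ y| ≤ (2 * M1 / φ 0) * φ (L⁻¹ • y) := by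
        calc |pd j φ y| ≤ M1 := b2
          _ = (2 * M1 / φ 0) * (φ 0 / 2) := by field_simp
          _ ≤ _ := by gcongr
      calc |pd j φ y| * AA χ v (r • y) ≤ ((2 * M1 / φ 0) * φ (L⁻¹ • y)) * AA χ v (r • y) :=
            mul_le_mul_of_nonneg_right b3 hA
        _ = _ := by ring
  have h2 : ∫ y, φ (L⁻¹ • y) * AA χ v (r • y) = L ^ 3 * er φ χ (L * r) v := by
    have h3 := Measure.integral_comp_smul (volume : Measure V)
      (fun y => φ y * AA χ v ((L * r) • y)) L⁻¹
    have e : ∀ y : V, (L * r) • L⁻¹ • y = r • y := by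
      intro y
      rw [smul_smul]
      congr 1
      field_simp
    simp_rw [e] at h3
    rw [h3]
    unfold er
    rw [smul_eq_mul]
    congr 1
    simp only [Module.finrank_fintype_fun_eq_card, Fintype.card_fin, inv_pow, inv_inv]
    exact abs_of_pos (by positivity)
  have h5 : ∑ j, (∫ y, |pd j φ y|) * ∫ y, |pd j φ y| * AA χ v (r • y)
      ≤ K * ((2 * M1 / φ 0) * (L ^ 3 * er φ χ (L * r) v)) := by
    rw [hK, Finset.sum_mul]
    refine Finset.sum_le_sum fun j _ => ?_
    have h6 := h1 j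
    rw [h2] at h6
    exact mul_le_mul_of_nonneg_left h6 (integral_nonneg fun _ => abs_nonneg _)
  have h6 : 0 ≤ 2 * r⁻¹ ^ 2 := by positivity
  have h7 := mul_le_mul_of_nonneg_left h5 h6
  have h8 : 2 * r⁻¹ ^ 2 * (K * ((2 * M1 / φ 0) * (L ^ 3 * er φ χ (L * r) v)))
      = 2 * (K * (2 * M1 / φ 0)) * L ^ 3 / r ^ 2 * er φ χ (L * r) v := by
    field_simp
  linarith

end Pool.Agent.Run7.h782
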