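import Pool.Agent.Run7.h782.Basic

/-!
Identities at a fixed time: the balance of the weighted square of the increment.
-/

set_option autoImplicit false

open MeasureTheory Set Metric Filter Topology
open scoped ContDiff

namespace Pool.Agent.Run7.h782

open H459R3.NS W221.NS

theorem SP.sq {f : V → ℝ} (hf : SP f) : SP (fun x => f x ^ 2) := by
  have : (fun x => f x ^ 2) = fun x => f x * f x := by funext x; ring
  rw [this]
  exact hf.mul hf

theorem SP.cmul {f : V → ℝ} (hf : SP f) (c : ℝ) : SP (fun x => c * f x) where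
  smooth := contDiff_const.mul hf.smooth
  per := fun i x => by simp only [hf.per i x]

/-- viscous term -/
theorem visc {χ w : V → ℝ} (hχ : SP χ) (hw : SP w) :
    ∫ x in cube, χ x * (2 * w x * lap w x)
      = -2 * ∑ j, (∫ x in cube, χ x * pd j w x ^ 2) + ∫ x in cube, lap χ x * w x ^ 2 := by
  have h1 := int_lap_mul hw (hχ.mul hw)
  have h2 : ∀ j, ∫ x in cube, pd j w x * pd j (fun y => χ y * w y) x
      = (∫ x in cube, χ x * pd j w x ^ 2)
        + (1 / 2) * ∫ x in cube, pd j χ x * pd j (fun y => w y * w y) x := by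
    intro j
    rw [← integral_const_mul, ← integral_add (hχ.mul (SP.sq (hw.pd j))).int
      (SP.cmul ((hχ.pd j).mul ((hw.mul hw).pd j)) (1 / 2)).int]
    congr 1
    funext x
    rw [pd_mul hχ hw, pd_mul hw hw]
    ring
  have h3 := int_lap_mul hχ (hw.mul hw)
  simp_rw [h2] at h1
  rw [Finset.sum_add_distrib, ← Finset.mul_sum] at h1
  have e1 : ∫ x in cube, χ x * (2 * w x * lap w x) = 2 * ∫ x in cube, lap w x * (χ x * w x) := by
    rw [← integral_const_mul]
    congr 1
    funext x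
    ring
  have e2 : ∫ x in cube, lap χ x * w x ^ 2 = ∫ x in cube, lap χ x * (w x * w x) := by
    congr 1
    funext x
    ring
  rw [e1, e2, h1, h3]
  ring

/-- transport term -/
theorem transp {χ w : V → ℝ} {v : Fin 3 → V → ℝ} (hχ : SP χ) (hw : SP w) (hv : ∀ i, SP (v i))
    (hdiv : ∀ x, ∑ i, pd i (v i) x = 0) :
    ∑ j, ∫ x in cube, χ x * (2 * w x * (v j x * pd j w x))
      = -∑ j, ∫ x in cube, pd j χ x * v j x * w x ^ 2 := by
  have h1 : ∀ j, ∫ x in cube, χ x * (2 * w x * (v j x * pd j w x))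
      = -(∫ x in cube, pd j χ x * v j x * w x ^ 2) - ∫ x in cube, χ x * w x ^ 2 * pd j (v j) x := by
    intro j
    have h2 := ibp (hχ.mul (hv j)) (hw.mul hw) j
    have e1 : ∫ x in cube, χ x * (2 * w x * (v j x * pd j w x))
        = ∫ x in cube, χ x * v j x * pd j (fun y => w y * w y) x := by
      congr 1
      funext x
      rw [pd_mul hw hw]
      ring
    have e2 : ∫ x in cube, pd j (fun x => χ x * v j x) x * (w x * w x)
        = (∫ x in cube, pd j χ x * v j x * w x ^ 2) + ∫ x in cube, χ x * w x ^ 2 * pd j (v j) x := by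
      rw [← integral_add (((hχ.pd j).mul (hv j)).mul (SP.sq hw)).int
        ((hχ.mul (SP.sq hw)).mul ((hv j).pd j)).int]
      congr 1
      funext x
      rw [pd_mul hχ (hv j)]
      ring
    rw [e1]
    linarith
  simp_rw [h1]
  rw [Finset.sum_sub_distrib, Finset.sum_neg_distrib,
    ← integral_finsetSum _ fun j _ => ((hχ.mul (SP.sq hw)).mul ((hv j).pd j)).int]
  have : ∀ x, ∑ j, χ x * w x ^ 2 * pd j (v j) x = 0 := by
    intro x
    rw [← Finset.mul_sum, hdiv, mul_zero]
  simp_rw [this]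
  simp

/-- pressure term -/
theorem prest {χ q : V → ℝ} {w : Fin 3 → V → ℝ} (hχ : SP χ) (hq : SP q) (hw : ∀ i, SP (w i))
    (hdiv : ∀ x, ∑ i, pd i (w i) x = 0) :
    ∑ i, ∫ x in cube, χ x * (2 * w i x * pd i q x)
      = -∑ i, ∫ x in cube, 2 * (q x * (pd i χ x * w i x)) := by
  have h1 : ∀ i, ∫ x in cube, χ x * (2 * w i x * pd i q x)
      = -(∫ x in cube, 2 * (q x * (pd i χ x * w i x)))
        - ∫ x in cube, 2 * (χ x * q x) * pd i (w i) x := by
    intro i
    have h2 := ibp (hχ.mul (hw i)) hq i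
    have e1 : ∫ x in cube, χ x * (2 * w i x * pd i q x)
        = 2 * ∫ x in cube, χ x * w i x * pd i q x := by
      rw [← integral_const_mul]
      congr 1
      funext x
      ring
    have e2 : 2 * ∫ x in cube, pd i (fun x => χ x * w i x) x * q x
        = (∫ x in cube, 2 * (q x * (pd i χ x * w i x)))
        + ∫ x in cube, 2 * (χ x * q x) * pd i (w i) x := by
      rw [← integral_const_mul, ← integral_add (SP.cmul (hq.mul ((hχ.pd i).mul (hw i))) 2).int
        ((SP.cmul (hχ.mul hq) 2).mul ((hw i).pd i)).int]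
      congr 1
      funext x
      rw [pd_mul hχ (hw i)]
      ring
    rw [e1]
    linarith
  simp_rw [h1]
  rw [Finset.sum_sub_distrib, Finset.sum_neg_distrib,
    ← integral_finsetSum _ fun i _ => ((SP.cmul (hχ.mul hq) 2).mul ((hw i).pd i)).int]
  have : ∀ x, ∑ i, 2 * (χ x * q x) * pd i (w i) x = 0 := by
    intro x
    rw [← Finset.mul_sum, hdiv, mul_zero]
  simp_rw [this]
  simp

/-- A constant may be subtracted from the pressure. -/
theorem prest_const {χ : V → ℝ} {w : Fin 3 → V → ℝ} (hχ : SP χ) (hw : ∀ i, SP (w i))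
    (hdiv : ∀ x, ∑ i, pd i (w i) x = 0) :
    ∑ i, ∫ x in cube, pd i χ x * w i x = 0 := by
  have h1 : ∀ i, ∫ x in cube, pd i χ x * w i x = -∫ x in cube, χ x * pd i (w i) x := fun i =>
    ibp hχ (hw i) i
  simp_rw [h1]
  rw [Finset.sum_neg_distrib, ← integral_finsetSum _ fun i _ => (hχ.mul ((hw i).pd i)).int]
  simp_rw [← Finset.mul_sum, hdiv]
  simp

section

variable {v : Fin 3 → V → ℝ} (hv : ∀ i, SP (v i)) (hdiv : ∀ x, ∑ i, pd i (v i) x = 0)

include hdiv in
theorem div_sh (z x : V) : ∑ i, sh z (pd i (v i)) x = 0 := hdiv (x + z)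

include hv hdiv in
theorem div_dl (z x : V) : ∑ i, pd i (dl z (v i)) x = 0 := by
  simp_rw [pd_dl (hv _)]
  unfold dl
  rw [Finset.sum_sub_distrib, hdiv, hdiv, sub_self]

include hv in
theorem dl_conv (z : V) (i : Fin 3) (x : V) : dl z (conv v i) x
    = ∑ j, dl z (v j) x * sh z (pd j (v i)) x + ∑ j, v j x * pd j (dl z (v i)) x := by
  unfold dl conv sh
  rw [← Finset.sum_add_distrib, ← Finset.sum_sub_distrib]
  refine Finset.sum_congr rfl fun j _ => ?_
  have := congrFun (pd_dl (hv i) z j) x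
  rw [show pd j (fun x => v i (x + z) - v i x) x = pd j (v i) (x + z) - pd j (v i) x from this]
  ring

/-- The weighted square of the increment. -/
noncomputable def AA (χ : V → ℝ) (v : Fin 3 → V → ℝ) (z : V) : ℝ :=
  ∫ x in cube, χ x * ∑ i, dl z (v i) x ^ 2

/-- The weighted square of the increment of the gradient. -/
noncomputable def BB (χ : V → ℝ) (v : Fin 3 → V → ℝ) (z : V) : ℝ :=
  ∫ x in cube, χ x * ∑ i, ∑ j, dl z (pd j (v i)) x ^ 2

/-- The nonlinear term. -/
noncomputable def NN (χ : V → ℝ) (v : Fin 3 → V → ℝ) (z : V) : ℝ :=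
  ∫ x in cube, χ x * ∑ i, ∑ j, 2 * (dl z (v i) x * (dl z (v j) x * sh z (pd j (v i)) x))

/-- The error terms. -/
noncomputable def RR (ν : ℝ) (χ q : V → ℝ) (v : Fin 3 → V → ℝ) (z : V) : ℝ :=
  ν * (∑ i, ∫ x in cube, lap χ x * dl z (v i) x ^ 2)
    + (∑ i, ∑ j, ∫ x in cube, pd j χ x * v j x * dl z (v i) x ^ 2)
    + ∑ i, ∫ x in cube, 2 * (dl z q x * (pd i χ x * dl z (v i) x))

include hv hdiv in
/-- The balance at a fixed time. -/
theorem balance {ν : ℝ} {χ q : V → ℝ} (hχ : SP χ) (hq : SP q) {g f : Fin 3 → V → ℝ}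
    (hg : ∀ i x, g i x = ν * lap (v i) x - conv v i x - pd i q x + f i x)
    (hf : ∀ i, Continuous (f i)) (z : V) :
    ∫ x in cube, χ x * ∑ i, 2 * dl z (v i) x * dl z (g i) x
      = -2 * ν * BB χ v z - NN χ v z + RR ν χ q v z
        + ∑ i, ∫ x in cube, χ x * (2 * dl z (v i) x * dl z (f i) x) := by
  have hw : ∀ i, SP (dl z (v i)) := fun i => SP.dl (hv i) z
  have hdw := div_dl hv hdiv z
  have hfi : ∀ i, IntegrableOn (fun x => χ x * (2 * dl z (v i) x * dl z (f i) x)) cube := by
    intro i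
    apply integrableOn_cube
    have c1 := hχ.cont
    have c2 := (hw i).cont
    have c3 : Continuous (dl z (f i)) := by
      unfold dl
      have := hf i
      fun_prop
    fun_prop
  have e1 : ∀ x, χ x * ∑ i, 2 * dl z (v i) x * dl z (g i) x
      = ∑ i, (ν * (χ x * (2 * dl z (v i) x * lap (dl z (v i)) x))
        - ∑ j, χ x * (2 * (dl z (v i) x * (dl z (v j) x * sh z (pd j (v i)) x)))
        - ∑ j, χ x * (2 * dl z (v i) x * (v j x * pd j (dl z (v i)) x))
        - χ x * (2 * dl z (v i) x * pd i (dl z q) x)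
        + χ x * (2 * dl z (v i) x * dl z (f i) x)) := by
    intro x
    rw [Finset.mul_sum]
    refine Finset.sum_congr rfl fun i _ => ?_
    have a1 : dl z (g i) x = ν * lap (dl z (v i)) x - dl z (conv v i) x - pd i (dl z q) x
        + dl z (f i) x := by
      rw [lap_dl (hv i), pd_dl hq]
      unfold dl
      rw [hg, hg]
      ring
    rw [a1, dl_conv hv]
    have a2 : ∑ j, χ x * (2 * (dl z (v i) x * (dl z (v j) x * sh z (pd j (v i)) x)))
        = χ x * (2 * dl z (v i) x * ∑ j, dl z (v j) x * sh z (pd j (v i)) x) := by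
      rw [Finset.mul_sum, Finset.mul_sum]
      exact Finset.sum_congr rfl fun j _ => by ring
    have a3 : ∑ j, χ x * (2 * dl z (v i) x * (v j x * pd j (dl z (v i)) x))
        = χ x * (2 * dl z (v i) x * ∑ j, v j x * pd j (dl z (v i)) x) := by
      rw [Finset.mul_sum, Finset.mul_sum]
    rw [a2, a3]
    ring
  simp_rw [e1]
  have i1 : ∀ i, IntegrableOn (fun x => ν * (χ x * (2 * dl z (v i) x * lap (dl z (v i)) x))) cube :=
    fun i => (SP.cmul (hχ.mul ((SP.cmul (hw i) 2).mul (hw i).lap)) ν).int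
  have i2 : ∀ i j, SP (fun x => χ x * (2 * (dl z (v i) x * (dl z (v j) x
      * sh z (pd j (v i)) x)))) := fun i j =>
    hχ.mul (SP.cmul ((hw i).mul ((hw j).mul (SP.sh ((hv i).pd j) z))) 2)
  have i3 : ∀ i j, SP (fun x => χ x * (2 * dl z (v i) x * (v j x * pd j (dl z (v i)) x))) :=
    fun i j => hχ.mul ((SP.cmul (hw i) 2).mul ((hv j).mul ((hw i).pd j)))
  have i4 : ∀ i, SP (fun x => χ x * (2 * dl z (v i) x * pd i (dl z q) x)) := fun i =>
    hχ.mul ((SP.cmul (hw i) 2).mul ((SP.dl hq z).pd i))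
  have i2' : ∀ i, IntegrableOn (fun x => ∑ j, χ x * (2 * (dl z (v i) x * (dl z (v j) x
      * sh z (pd j (v i)) x)))) cube := fun i => (SP.sum fun j _ => i2 i j).int
  have i3' : ∀ i, IntegrableOn (fun x => ∑ j, χ x * (2 * dl z (v i) x
      * (v j x * pd j (dl z (v i)) x))) cube := fun i => (SP.sum fun j _ => i3 i j).int
  have j1 : ∀ i, Integrable (fun x => ν * (χ x * (2 * dl z (v i) x * lap (dl z (v i)) x))
        - ∑ j, χ x * (2 * (dl z (v i) x * (dl z (v j) x * sh z (pd j (v i)) x))))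
        (volume.restrict cube) := fun i => (i1 i).sub (i2' i)
  have j2 : ∀ i, Integrable (fun x => ν * (χ x * (2 * dl z (v i) x * lap (dl z (v i)) x))
        - ∑ j, χ x * (2 * (dl z (v i) x * (dl z (v j) x * sh z (pd j (v i)) x)))
        - ∑ j, χ x * (2 * dl z (v i) x * (v j x * pd j (dl z (v i)) x)))
        (volume.restrict cube) := fun i => (j1 i).sub (i3' i)
  have j3 : ∀ i, Integrable (fun x => ν * (χ x * (2 * dl z (v i) x * lap (dl z (v i)) x))
        - ∑ j, χ x * (2 * (dl z (v i) x * (dl z (v j) x * sh z (pd j (v i)) x)))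
        - ∑ j, χ x * (2 * dl z (v i) x * (v j x * pd j (dl z (v i)) x))
        - χ x * (2 * dl z (v i) x * pd i (dl z q) x))
        (volume.restrict cube) := fun i => (j2 i).sub (i4 i).int
  have j4 : ∀ i, Integrable (fun x => ν * (χ x * (2 * dl z (v i) x * lap (dl z (v i)) x))
        - ∑ j, χ x * (2 * (dl z (v i) x * (dl z (v j) x * sh z (pd j (v i)) x)))
        - ∑ j, χ x * (2 * dl z (v i) x * (v j x * pd j (dl z (v i)) x))
        - χ x * (2 * dl z (v i) x * pd i (dl z q) x)
        + χ x * (2 * dl z (v i) x * dl z (f i) x))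
        (volume.restrict cube) := fun i => (j3 i).add (hfi i)
  rw [integral_finsetSum _ fun i _ => j4 i]
  have e2 : ∀ i, ∫ x in cube, (ν * (χ x * (2 * dl z (v i) x * lap (dl z (v i)) x))
        - ∑ j, χ x * (2 * (dl z (v i) x * (dl z (v j) x * sh z (pd j (v i)) x)))
        - ∑ j, χ x * (2 * dl z (v i) x * (v j x * pd j (dl z (v i)) x))
        - χ x * (2 * dl z (v i) x * pd i (dl z q) x)
        + χ x * (2 * dl z (v i) x * dl z (f i) x))
      = ν * (-2 * ∑ j, (∫ x in cube, χ x * pd j (dl z (v i)) x ^ 2)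
          + ∫ x in cube, lap χ x * dl z (v i) x ^ 2)
        - (∑ j, ∫ x in cube, χ x * (2 * (dl z (v i) x * (dl z (v j) x * sh z (pd j (v i)) x))))
        - (∑ j, ∫ x in cube, χ x * (2 * dl z (v i) x * (v j x * pd j (dl z (v i)) x)))
        - (∫ x in cube, χ x * (2 * dl z (v i) x * pd i (dl z q) x))
        + ∫ x in cube, χ x * (2 * dl z (v i) x * dl z (f i) x) := by
    intro i
    rw [integral_add (j3 i) (hfi i), integral_sub (j2 i) (i4 i).int, integral_sub (j1 i) (i3' i),
      integral_sub (i1 i) (i2' i), integral_const_mul, visc hχ (hw i),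
      integral_finsetSum _ fun j _ => (i2 i j).int, integral_finsetSum _ fun j _ => (i3 i j).int]
  simp_rw [e2]
  rw [Finset.sum_add_distrib, Finset.sum_sub_distrib, Finset.sum_sub_distrib,
    Finset.sum_sub_distrib, prest hχ (SP.dl hq z) hw hdw, ← Finset.mul_sum,
    Finset.sum_add_distrib, ← Finset.mul_sum]
  have e3 : ∀ i, ∑ j, ∫ x in cube, χ x * (2 * dl z (v i) x * (v j x * pd j (dl z (v i)) x))
      = -∑ j, ∫ x in cube, pd j χ x * v j x * dl z (v i) x ^ 2 := fun i =>
    transp hχ (hw i) hv hdiv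
  simp_rw [e3]
  have e4 : BB χ v z = ∑ i, ∑ j, ∫ x in cube, χ x * pd j (dl z (v i)) x ^ 2 := by
    unfold BB
    simp_rw [Finset.mul_sum]
    rw [integral_finsetSum _ fun i _ => (SP.sum fun j _ =>
      hχ.mul (SP.sq (SP.dl ((hv i).pd j) z))).int]
    refine Finset.sum_congr rfl fun i _ => ?_
    rw [integral_finsetSum _ fun j _ => (hχ.mul (SP.sq (SP.dl ((hv i).pd j) z))).int]
    refine Finset.sum_congr rfl fun j _ => ?_
    rw [pd_dl (hv i)]
  have e5 : NN χ v z = ∑ i, ∑ j, ∫ x in cube, χ x * (2 * (dl z (v i) x * (dl z (v j) x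
      * sh z (pd j (v i)) x))) := by
    unfold NN
    simp_rw [Finset.mul_sum]
    rw [integral_finsetSum _ fun i _ => (SP.sum fun j _ => i2 i j).int]
    refine Finset.sum_congr rfl fun i _ => ?_
    rw [integral_finsetSum _ fun j _ => (i2 i j).int]
  rw [e4, e5]
  unfold RR
  rw [Finset.sum_neg_distrib]
  ring

end

end Pool.Agent.Run7.h782
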