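import Pool.Agent.Run7.h782.Time1

/-!
Joint continuity and the integrated balance.
-/

set_option autoImplicit false

open MeasureTheory Set Metric Filter Topology
open scoped ContDiff

namespace Pool.Agent.Run7.h782

open H459R3.NS W221.NS Pool.Agent.W369.MH

/-- Integrals depending on time and a parameter. -/
theorem par_cont {T : ℝ} {X : Type*} [TopologicalSpace X] [FirstCountableTopology X]
    [LocallyCompactSpace X] {K : Set V} (hK : IsCompact K) {H : ℝ → X → V → ℝ}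
    (hH : ContinuousOn (fun q : ℝ × X × V => H q.1 q.2.1 q.2.2) (Ico 0 T ×ˢ univ)) :
    ContinuousOn (fun q : ℝ × X => ∫ x in K, H q.1 q.2 x) (Ico 0 T ×ˢ univ) := by
  rintro ⟨t, z⟩ ⟨ht, -⟩
  have ht' : 0 ≤ t ∧ t < T := ht
  obtain ⟨b, hb1, hb2⟩ := exists_between ht'.2
  set c : ℝ → ℝ := fun τ => max 0 (min b τ) with hc
  have hcm : ∀ τ, c τ ∈ Ico 0 T := fun τ =>
    ⟨le_max_left _ _, max_lt (ht'.1.trans_lt ht'.2) ((min_le_left _ _).trans_lt hb2)⟩
  have hcc : Continuous c := by fun_prop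
  have h1 : Continuous (fun q : (ℝ × X) × V => H (c q.1.1) q.1.2 q.2) :=
    hH.comp_continuous (f := fun q : (ℝ × X) × V => ((c q.1.1, q.1.2, q.2) : ℝ × X × V))
      (by fun_prop) (fun q => ⟨hcm _, mem_univ _⟩)
  have h2 : Continuous (fun q : ℝ × X => ∫ x in K, H (c q.1) q.2 x) :=
    continuous_parametric_integral_of_continuous (f := fun (q : ℝ × X) x => H (c q.1) q.2 x)
      (μ := volume) h1 hK
  have h3 : ∀ᶠ q : ℝ × X in 𝓝[Ico 0 T ×ˢ univ] (t, z), q.1 < b := by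
    apply nhdsWithin_le_nhds
    exact continuous_fst.continuousAt.eventually (Iio_mem_nhds hb1)
  refine (h2.continuousAt.continuousWithinAt).congr_of_eventuallyEq ?_ ?_
  · filter_upwards [h3, self_mem_nhdsWithin] with q hq1 hq2
    have : c q.1 = q.1 := by
      rw [hc]
      simp only
      rw [min_eq_right hq1.le, max_eq_right hq2.1.1]
    rw [this]
  · have : c t = t := by
      rw [hc]
      simp only
      rw [min_eq_right hb1.le, max_eq_right ht'.1]
    simp only [this]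

theorem co_sh {T : ℝ} {g : ℝ → V → ℝ}
    (hg : ContinuousOn (fun z : ℝ × V => g z.1 z.2) (Ico 0 T ×ˢ univ)) :
    ContinuousOn (fun q : ℝ × V × V => sh q.2.1 (g q.1) q.2.2) (Ico 0 T ×ˢ univ) :=
  hg.comp (f := fun q : ℝ × V × V => ((q.1, q.2.2 + q.2.1) : ℝ × V)) (by fun_prop)
    (fun q hq => ⟨hq.1, mem_univ _⟩)

theorem co_id {T : ℝ} {g : ℝ → V → ℝ}
    (hg : ContinuousOn (fun z : ℝ × V => g z.1 z.2) (Ico 0 T ×ˢ univ)) :
    ContinuousOn (fun q : ℝ × V × V => g q.1 q.2.2) (Ico 0 T ×ˢ univ) :=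
  hg.comp (f := fun q : ℝ × V × V => ((q.1, q.2.2) : ℝ × V)) (by fun_prop)
    (fun q hq => ⟨hq.1, mem_univ _⟩)

theorem co_dl {T : ℝ} {g : ℝ → V → ℝ}
    (hg : ContinuousOn (fun z : ℝ × V => g z.1 z.2) (Ico 0 T ×ˢ univ)) :
    ContinuousOn (fun q : ℝ × V × V => dl q.2.1 (g q.1) q.2.2) (Ico 0 T ×ˢ univ) :=
  (co_sh hg).sub (co_id hg)

theorem hd_AA_aux {T : ℝ} {g : ℝ → V → ℝ}
    (hg : ContDiffOn ℝ ∞ (fun z : ℝ × V => g z.1 z.2) (Ico 0 T ×ˢ univ)) (z : V) :
    ContDiffOn ℝ ∞ (fun q : ℝ × V => dl z (g q.1) q.2) (Ico 0 T ×ˢ univ) :=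
  (hg.comp (f := fun q : ℝ × V => ((q.1, q.2 + z) : ℝ × V))
    (by fun_prop) (fun q hq => ⟨hq.1, mem_univ _⟩)).sub hg

section

variable {ν T F : ℝ} {u : ℝ → V → V} {p : ℝ → V → ℝ} {f : ℝ → V → V}

theorem c_U (h : IsSolF ν T F u p f) (i : Fin 3) :
    ContinuousOn (fun z : ℝ × V => U u z.1 i z.2) (Ico 0 T ×ˢ univ) := (sm_U h i).continuousOn

theorem c_pdU (h : IsSolF ν T F u p f) (i j : Fin 3) :
    ContinuousOn (fun z : ℝ × V => pd j (U u z.1 i) z.2) (Ico 0 T ×ˢ univ) :=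
  (contDiffOn_pd (f := fun s y => U u s i y) (sm_U h i) j).continuousOn

theorem c_AA (h : IsSolF ν T F u p f) {χ : V → ℝ} (hχ : SP χ) :
    ContinuousOn (fun q : ℝ × V => AA χ (U u q.1) q.2) (Ico 0 T ×ˢ univ) := by
  unfold AA
  refine par_cont (X := V) cube_cpt
    (H := fun t z x => χ x * ∑ i, dl z (U u t i) x ^ 2) ?_
  have hc := hχ.cont
  refine ContinuousOn.mul (by fun_prop) ?_
  exact continuousOn_finsetSum _ fun i _ => (co_dl (g := fun t x => U u t i x) (c_U h i)).pow 2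

theorem c_BB (h : IsSolF ν T F u p f) {χ : V → ℝ} (hχ : SP χ) :
    ContinuousOn (fun q : ℝ × V => BB χ (U u q.1) q.2) (Ico 0 T ×ˢ univ) := by
  unfold BB
  refine par_cont (X := V) cube_cpt
    (H := fun t z x => χ x * ∑ i, ∑ j, dl z (pd j (U u t i)) x ^ 2) ?_
  have hc := hχ.cont
  refine ContinuousOn.mul (by fun_prop) ?_
  exact continuousOn_finsetSum _ fun i _ => continuousOn_finsetSum _ fun j _ =>
    (co_dl (g := fun t x => pd j (U u t i) x) (c_pdU h i j)).pow 2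

theorem c_NN (h : IsSolF ν T F u p f) {χ : V → ℝ} (hχ : SP χ) :
    ContinuousOn (fun q : ℝ × V => NN χ (U u q.1) q.2) (Ico 0 T ×ˢ univ) := by
  unfold NN
  refine par_cont (X := V) cube_cpt
    (H := fun t z x => χ x * ∑ i, ∑ j, 2 * (dl z (U u t i) x * (dl z (U u t j) x
      * sh z (pd j (U u t i)) x))) ?_
  have hc := hχ.cont
  refine ContinuousOn.mul (by fun_prop) ?_
  refine continuousOn_finsetSum _ fun i _ => continuousOn_finsetSum _ fun j _ => ?_
  exact continuousOn_const.mul ((co_dl (g := fun t x => U u t i x) (c_U h i)).mul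
    ((co_dl (g := fun t x => U u t j x) (c_U h j)).mul
      (co_sh (g := fun t x => pd j (U u t i) x) (c_pdU h i j))))

theorem c_XX (h : IsSolF ν T F u p f) : ContinuousOn (fun t => XX (U u t)) (Ico 0 T) := by
  unfold XX Y1
  refine continuousOn_finsetSum _ fun i _ => ContinuousOn.add ?_ ?_
  · refine continuousOn_finsetSum _ fun j _ => ?_
    exact continuousOn_int (F := fun s x => pd j (U u s i) x ^ 2) ((c_pdU h i j).pow 2)
  · exact continuousOn_int (F := fun s x => U u s i x ^ 2) ((c_U h i).pow 2)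

theorem hd_AA (h : IsSolF ν T F u p f) {χ : V → ℝ} (hχ : SP χ) (z : V) {t : ℝ}
    (ht : t ∈ Ioo 0 T) :
    HasDerivAt (fun s => AA χ (U u s) z)
      (∫ x in cube, χ x * ∑ i, 2 * dl z (U u t i) x * dl z (DU u t i) x) t := by
  have hF : ContDiffOn ℝ 1 (fun q : ℝ × V => χ q.2 * ∑ i, dl z (U u q.1 i) q.2 ^ 2)
      (Ioo 0 T ×ˢ univ) := by
    refine ContDiffOn.mul ?_ ?_
    · exact ((hχ.smooth.of_le (by norm_cast)).comp contDiff_snd).contDiffOn
    · refine ContDiffOn.sum fun i _ => ContDiffOn.pow ?_ 2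
      exact mono_Ioo (f := fun t x => dl z (U u t i) x)
        (hd_AA_aux (g := fun t x => U u t i x) (sm_U h i) z) (by norm_cast)
  have key := hasDerivAt_int (F := fun s x => χ x * ∑ i, dl z (U u s i) x ^ 2) hF ht
  refine key.congr_deriv ?_
  congr 1
  funext x
  have h1 : ∀ i, HasDerivAt (fun s => dl z (U u s i) x) (dl z (DU u t i) x) t := fun i =>
    (hd_U h ht i (x + z)).sub (hd_U h ht i x)
  have h2 : HasDerivAt (fun s => χ x * ∑ i, dl z (U u s i) x ^ 2)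
      (χ x * ∑ i, 2 * dl z (U u t i) x * dl z (DU u t i) x) t := by
    refine HasDerivAt.const_mul _ ?_
    have h3 : HasDerivAt (fun s => ∑ i, dl z (U u s i) x ^ 2)
        (∑ i, (2 : ℕ) * dl z (U u t i) x ^ (2 - 1) * dl z (DU u t i) x) t :=
      HasDerivAt.fun_sum fun i _ => (h1 i).pow 2
    refine h3.congr_deriv (Finset.sum_congr rfl fun i _ => ?_)
    simp
  exact h2.deriv

/-- The integrated balance at one increment. -/
theorem bal_int {c M ε : ℝ} {χ : V → ℝ} (hν : 0 < ν) (hw : Wt χ c M) (hε : 0 < ε) :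
    ∃ C : ℝ, 0 ≤ C ∧ ∀ (T F : ℝ) (u : ℝ → V → V) (p : ℝ → V → ℝ) (f : ℝ → V → V),
      IsSolF ν T F u p f → ∀ (z : V) (s t : ℝ), 0 ≤ s → s ≤ t → t < T →
        AA χ (U u t) z - AA χ (U u s) z ≤ ∫ τ in s..t, (-(2 * ν - ε) * BB χ (U u τ) z
          - NN χ (U u τ) z + C * (1 + XX (U u τ)) * AA χ (U u τ) z + C * F ^ 2) := by
  obtain ⟨C, hC0, hC⟩ := err hν hw hε
  refine ⟨C, hC0, fun T F u p f h z s t hs hst htT => ?_⟩
  have hsub : Icc s t ⊆ Ico 0 T := fun τ hτ => ⟨hs.trans hτ.1, hτ.2.trans_lt htT⟩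
  have sl : ∀ {G : ℝ → V → ℝ}, ContinuousOn (fun q : ℝ × V => G q.1 q.2) (Ico 0 T ×ˢ univ) →
      ContinuousOn (fun τ => G τ z) (Icc s t) := by
    intro G hG
    exact hG.comp (f := fun τ : ℝ => ((τ, z) : ℝ × V)) (by fun_prop)
      (fun τ hτ => ⟨hsub hτ, mem_univ _⟩)
  have c1 := sl (G := fun τ z => AA χ (U u τ) z) (c_AA h hw.sp)
  have c2 := sl (G := fun τ z => BB χ (U u τ) z) (c_BB h hw.sp)
  have c3 := sl (G := fun τ z => NN χ (U u τ) z) (c_NN h hw.sp)
  have c4 := (c_XX h).mono hsub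
  refine intervalIntegral.sub_le_integral_of_hasDeriv_right_of_le hst c1
    (g' := fun τ => ∫ x in cube, χ x * ∑ i, 2 * dl z (U u τ i) x * dl z (DU u τ i) x)
    (fun τ hτ => (hd_AA h hw.sp z ⟨hs.trans_lt hτ.1, hτ.2.trans htT⟩).hasDerivWithinAt) ?_ ?_
  · refine ContinuousOn.integrableOn_Icc ?_
    exact (((continuousOn_const.mul c2).sub c3).add
      ((continuousOn_const.mul (continuousOn_const.add c4)).mul c1)).add continuousOn_const
  · intro τ hτ
    have hτ' : τ ∈ Ioo 0 T := ⟨hs.trans_lt hτ.1, hτ.2.trans htT⟩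
    have hI : τ ∈ Ico 0 T := ⟨hτ'.1.le, hτ'.2⟩
    have h1 := balance (fun i => sp_U h hI i) (div_U h hI) (ν := ν) (q := p τ) hw.sp (sp_p h hI)
      (g := DU u τ) (f := fun i x => f τ x i) (fun i x => DU_eq h hτ' i x)
      (fun i => (sp_f h hτ' i).cont) z
    have h2 := hC (U u τ) (fun i x => f τ x i) (p τ) F z (fun i => sp_U h hI i) (sp_p h hI)
      (fun i => sp_f h hτ' i) (fun i x => (h.force τ hτ' x (mem_univ x) i).1)
      (fun x => pres_eq h hτ' x)
    rw [h1]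
    linarith

end

end Pool.Agent.Run7.h782
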