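import Pool.Agent.Run7.h782.Low

/-!
The integrated balance of the averages.
-/

set_option autoImplicit false

open MeasureTheory Set Metric Filter Topology
open scoped ContDiff

namespace Pool.Agent.Run7.h782

open H459R3.NS W221.NS Pool.Agent.W369.MH

theorem fubT {φ : V → ℝ} (hφ : Continuous φ) (hs : HasCompactSupport φ) {G : ℝ → V → ℝ} {s t : ℝ}
    (hst : s ≤ t) (hG : ContinuousOn (fun q : ℝ × V => G q.1 q.2) (Icc s t ×ˢ univ)) :
    ∫ τ in s..t, ∫ y, φ y * G τ y = ∫ y, φ y * ∫ τ in s..t, G τ y := by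
  have h1 : ∀ y, φ y * ∫ τ in s..t, G τ y = ∫ τ in s..t, φ y * G τ y := fun y =>
    (intervalIntegral.integral_const_mul _ _).symm
  simp_rw [h1]
  refine intervalIntegral_integral_swap ?_
  have h3 : IntegrableOn (fun q : ℝ × V => φ q.2 * G q.1 q.2) (Icc s t ×ˢ tsupport φ)
      ((volume : Measure ℝ).prod (volume : Measure V)) := by
    refine ContinuousOn.integrableOn_compact (isCompact_Icc.prod hs.isCompact) ?_
    exact ((hφ.comp continuous_snd).continuousOn).mul (hG.mono (prod_mono subset_rfl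
      (subset_univ _)))
  have h4 : IntegrableOn (fun q : ℝ × V => φ q.2 * G q.1 q.2) (Icc s t ×ˢ univ)
      ((volume : Measure ℝ).prod (volume : Measure V)) := by
    refine h3.of_forall_sdiff_eq_zero (measurableSet_Icc.prod MeasurableSet.univ) ?_
    rintro ⟨τ, y⟩ ⟨⟨hτ, -⟩, hn⟩
    have : y ∉ tsupport φ := fun hy => hn ⟨hτ, hy⟩
    simp only
    rw [image_eq_zero_of_notMem_tsupport this, zero_mul]
  rw [uIoc_of_le hst]
  have h5 : IntegrableOn (fun q : ℝ × V => φ q.2 * G q.1 q.2) (Ioc s t ×ˢ univ)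
      ((volume : Measure ℝ).prod (volume : Measure V)) :=
    h4.mono_set (prod_mono Ioc_subset_Icc_self subset_rfl)
  unfold IntegrableOn at h5
  rw [← Measure.prod_restrict, Measure.restrict_univ] at h5
  exact h5

theorem av_cont {φ : V → ℝ} (hφ : Continuous φ) (hs : HasCompactSupport φ) {G : ℝ → V → ℝ} {T : ℝ}
    (hG : ContinuousOn (fun q : ℝ × V => G q.1 q.2) (Ico 0 T ×ˢ univ)) (r : ℝ) :
    ContinuousOn (fun t => ∫ y, φ y * G t (r • y)) (Ico 0 T) := by
  have h1 : ContinuousOn (fun q : ℝ × Unit => ∫ y in tsupport φ, φ y * G q.1 (r • y))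
      (Ico 0 T ×ˢ univ) := by
    refine par_cont (X := Unit) hs.isCompact (H := fun t _ y => φ y * G t (r • y)) ?_
    refine ContinuousOn.mul (by fun_prop) ?_
    exact hG.comp (f := fun q : ℝ × Unit × V => ((q.1, r • q.2.2) : ℝ × V)) (by fun_prop)
      (fun q hq => ⟨hq.1, mem_univ _⟩)
  have h2 : ContinuousOn (fun t : ℝ => ∫ y in tsupport φ, φ y * G t (r • y)) (Ico 0 T) :=
    h1.comp (f := fun t : ℝ => ((t, ()) : ℝ × Unit)) (by fun_prop) (fun t ht => ⟨ht, mem_univ _⟩)
  refine h2.congr fun t _ => ?_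
  symm
  refine setIntegral_eq_integral_of_forall_compl_eq_zero fun y hy => ?_
  rw [image_eq_zero_of_notMem_tsupport hy, zero_mul]

section

variable {ν T F : ℝ} {u : ℝ → V → V} {p : ℝ → V → ℝ} {f : ℝ → V → V} {φ χ : V → ℝ}

theorem c_er (h : IsSolF ν T F u p f) (hφ : Ker φ) (hχ : SP χ) (r : ℝ) :
    ContinuousOn (fun t => er φ χ r (U u t)) (Ico 0 T) :=
  av_cont hφ.cont hφ.cs (G := fun t z => AA χ (U u t) z) (c_AA h hχ) r

theorem c_dr (h : IsSolF ν T F u p f) (hφ : Ker φ) (hχ : SP χ) (r : ℝ) :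
    ContinuousOn (fun t => dr φ χ r (U u t)) (Ico 0 T) :=
  av_cont hφ.cont hφ.cs (G := fun t z => BB χ (U u t) z) (c_BB h hχ) r

theorem c_fx (h : IsSolF ν T F u p f) (hφ : Ker φ) (hχ : SP χ) {r : ℝ} (hr : r ≠ 0) :
    ContinuousOn (fun t => fx φ χ r (U u t)) (Ico 0 T) := by
  have h1 := (av_cont hφ.cont hφ.cs (G := fun t z => NN χ (U u t) z) (c_NN h hχ) r).neg
  refine h1.congr fun t ht => ?_
  exact fx_eq (fun i => sp_U h ht i) (div_U h ht) hφ hχ hr

end

/-- The integrated balance. -/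
theorem bal_av {ν c M ε : ℝ} {χ : V → ℝ} (hν : 0 < ν) (hw : Wt χ c M) (hε : 0 < ε) :
    ∃ C : ℝ, 0 ≤ C ∧ ∀ (φ : V → ℝ), Ker φ →
      ∀ (T F : ℝ) (u : ℝ → V → V) (p : ℝ → V → ℝ) (f : ℝ → V → V),
      IsSolF ν T F u p f → ∀ (r s t : ℝ), 0 < r → 0 ≤ s → s ≤ t → t < T →
        er φ χ r (U u t) + (2 * ν - ε) * (∫ τ in s..t, dr φ χ r (U u τ))
          ≤ er φ χ r (U u s) + (∫ τ in s..t, fx φ χ r (U u τ))
            + (∫ τ in s..t, C * (1 + XX (U u τ)) * er φ χ r (U u τ))
            + C * F ^ 2 * (∫ y, φ y) * (t - s) := by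
  obtain ⟨C, hC0, hC⟩ := bal_int hν hw hε
  refine ⟨C, hC0, fun φ hφ T F u p f h r s t hr hs hst htT => ?_⟩
  have hsub : Icc s t ⊆ Ico 0 T := fun τ hτ => ⟨hs.trans hτ.1, hτ.2.trans_lt htT⟩
  have hsI : s ∈ Ico 0 T := hsub ⟨le_rfl, hst⟩
  have htI : t ∈ Ico 0 T := hsub ⟨hst, le_rfl⟩
  set Rr : ℝ → V → ℝ := fun τ z => -(2 * ν - ε) * BB χ (U u τ) z - NN χ (U u τ) z
    + C * (1 + XX (U u τ)) * AA χ (U u τ) z + C * F ^ 2 with hRr
  have cX : ContinuousOn (fun q : ℝ × V => XX (U u q.1)) (Ico 0 T ×ˢ univ) :=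
    (c_XX h).comp (f := fun q : ℝ × V => q.1) continuousOn_fst (fun q hq => hq.1)
  have cR : ContinuousOn (fun q : ℝ × V => Rr q.1 q.2) (Ico 0 T ×ˢ univ) :=
    (((continuousOn_const.mul (c_BB h hw.sp)).sub (c_NN h hw.sp)).add
      ((continuousOn_const.mul (continuousOn_const.add cX)).mul (c_AA h hw.sp))).add
        continuousOn_const
  have cR2 : ContinuousOn (fun q : ℝ × V => Rr q.1 (r • q.2)) (Icc s t ×ˢ univ) :=
    cR.comp (f := fun q : ℝ × V => ((q.1, r • q.2) : ℝ × V)) (by fun_prop)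
      (fun q hq => ⟨hsub hq.1, mem_univ _⟩)
  have hFub := fubT hφ.cont hφ.cs (G := fun τ y => Rr τ (r • y)) hst cR2
  -- integrate over the increments
  have cAt := cA (fun i => sp_U h htI i) hw.sp
  have cAs := cA (fun i => sp_U h hsI i) hw.sp
  have i1 : Integrable (fun y => φ y * AA χ (U u t) (r • y)) := hφ.int_mul (by fun_prop)
  have i2 : Integrable (fun y => φ y * AA χ (U u s) (r • y)) := hφ.int_mul (by fun_prop)
  have i3 : Integrable (fun y => φ y * ∫ τ in s..t, Rr τ (r • y)) := by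
    refine hφ.int_mul ?_
    -- continuity of the time integral
    set cl : ℝ → ℝ := fun τ => max s (min t τ) with hcl
    have hclm : ∀ τ, cl τ ∈ Icc s t := fun τ =>
      ⟨le_max_left _ _, max_le hst (min_le_left _ _)⟩
    have hcc : Continuous cl := by fun_prop
    have c1 : Continuous (fun q : V × ℝ => Rr (cl q.2) (r • q.1)) :=
      cR2.comp_continuous (f := fun q : V × ℝ => ((cl q.2, q.1) : ℝ × V)) (by fun_prop)
        (fun q => ⟨hclm _, mem_univ _⟩)
    have c2 : Continuous (fun y : V => ∫ τ in s..t, Rr (cl τ) (r • y)) :=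
      intervalIntegral.continuous_parametric_intervalIntegral_of_continuous'
        (f := fun y τ => Rr (cl τ) (r • y)) c1 s t
    have e1 : (fun y : V => ∫ τ in s..t, Rr (cl τ) (r • y))
        = fun y => ∫ τ in s..t, Rr τ (r • y) := by
      funext y
      refine intervalIntegral.integral_congr fun τ hτ => ?_
      rw [uIcc_of_le hst] at hτ
      simp only [hcl]
      rw [min_eq_right hτ.2, max_eq_right hτ.1]
    rw [← e1]
    exact c2
  have h1 : er φ χ r (U u t) - er φ χ r (U u s) ≤ ∫ y, φ y * ∫ τ in s..t, Rr τ (r • y) := by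
    unfold er
    rw [← integral_sub i1 i2]
    refine integral_mono (i1.sub i2) i3 fun y => ?_
    simp only
    rw [← mul_sub]
    exact mul_le_mul_of_nonneg_left (hC T F u p f h (r • y) s t hs hst htT) (hφ.nonneg y)
  rw [← hFub] at h1
  have h2 : ∀ τ ∈ Icc s t, ∫ y, φ y * Rr τ (r • y)
      = (-(2 * ν - ε) * dr φ χ r (U u τ) + fx φ χ r (U u τ)
        + C * (1 + XX (U u τ)) * er φ χ r (U u τ)) + C * F ^ 2 * (∫ y, φ y) := by
    intro τ hτ
    have hI := hsub hτ
    have hv := fun i => sp_U h hI i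
    have cA' := cA hv hw.sp
    have cB' := cB hv hw.sp
    have cN' : Continuous (fun z => NN χ (U u τ) z) := by
      have := (c_NN h hw.sp).comp_continuous (f := fun z : V => ((τ, z) : ℝ × V)) (by fun_prop)
        (fun z => ⟨hI, mem_univ _⟩)
      exact this
    have j1 : Integrable (fun y => φ y * BB χ (U u τ) (r • y)) := hφ.int_mul (by fun_prop)
    have j2 : Integrable (fun y => φ y * NN χ (U u τ) (r • y)) := hφ.int_mul (by fun_prop)
    have j3 : Integrable (fun y => φ y * AA χ (U u τ) (r • y)) := hφ.int_mul (by fun_prop)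
    have j4 : Integrable φ := hφ.cont.integrable_of_hasCompactSupport hφ.cs
    have e : ∀ y, φ y * Rr τ (r • y) = -(2 * ν - ε) * (φ y * BB χ (U u τ) (r • y))
        - φ y * NN χ (U u τ) (r • y) + C * (1 + XX (U u τ)) * (φ y * AA χ (U u τ) (r • y))
        + C * F ^ 2 * φ y := by
      intro y
      rw [hRr]
      ring
    simp_rw [e]
    have k1 : Integrable (fun y => -(2 * ν - ε) * (φ y * BB χ (U u τ) (r • y))) := j1.const_mul _
    have k2 : Integrable (fun y => -(2 * ν - ε) * (φ y * BB χ (U u τ) (r • y))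
        - φ y * NN χ (U u τ) (r • y)) := k1.sub j2
    have k3 : Integrable (fun y => C * (1 + XX (U u τ)) * (φ y * AA χ (U u τ) (r • y))) :=
      j3.const_mul _
    have k4 : Integrable (fun y => -(2 * ν - ε) * (φ y * BB χ (U u τ) (r • y))
        - φ y * NN χ (U u τ) (r • y) + C * (1 + XX (U u τ)) * (φ y * AA χ (U u τ) (r • y))) :=
      k2.add k3
    rw [integral_add k4 (j4.const_mul _), integral_add k2 k3, integral_sub k1 j2,
      integral_const_mul, integral_const_mul, integral_const_mul,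
      fx_eq hv (div_U h hI) hφ hw.sp hr.ne']
    unfold dr er
    ring
  have h3 : ∫ τ in s..t, ∫ y, φ y * Rr τ (r • y)
      = ∫ τ in s..t, ((-(2 * ν - ε) * dr φ χ r (U u τ) + fx φ χ r (U u τ)
        + C * (1 + XX (U u τ)) * er φ χ r (U u τ)) + C * F ^ 2 * (∫ y, φ y)) := by
    refine intervalIntegral.integral_congr fun τ hτ => ?_
    rw [uIcc_of_le hst] at hτ
    exact h2 τ hτ
  have ii : ∀ {g : ℝ → ℝ}, ContinuousOn g (Ico 0 T) → IntervalIntegrable g volume s t := by
    intro g hg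
    refine ContinuousOn.intervalIntegrable ?_
    rw [uIcc_of_le hst]
    exact hg.mono hsub
  have l1 := ii (c_dr h hφ hw.sp r)
  have l2 := ii (c_fx h hφ hw.sp hr.ne')
  have l3 : IntervalIntegrable (fun τ => C * (1 + XX (U u τ)) * er φ χ r (U u τ)) volume s t :=
    ii ((continuousOn_const (c := C)).mul ((continuousOn_const (c := (1 : ℝ))).add
      (c_XX h)) |>.mul (c_er h hφ hw.sp r))
  have l1' : IntervalIntegrable (fun τ => -(2 * ν - ε) * dr φ χ r (U u τ)) volume s t :=
    l1.const_mul _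
  have l12 : IntervalIntegrable (fun τ => -(2 * ν - ε) * dr φ χ r (U u τ) + fx φ χ r (U u τ))
    volume s t := l1'.add l2
  have l123 : IntervalIntegrable (fun τ => -(2 * ν - ε) * dr φ χ r (U u τ) + fx φ χ r (U u τ)
    + C * (1 + XX (U u τ)) * er φ χ r (U u τ)) volume s t := l12.add l3
  have l4 : IntervalIntegrable (fun _ : ℝ => C * F ^ 2 * (∫ y, φ y)) volume s t :=
    intervalIntegrable_const
  rw [h3, intervalIntegral.integral_add l123 l4, intervalIntegral.integral_add l12 l3,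
    intervalIntegral.integral_add l1' l2, intervalIntegral.integral_const_mul,
    intervalIntegral.integral_const] at h1
  rw [smul_eq_mul] at h1
  linarith

end Pool.Agent.Run7.h782
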